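import Pool.Agent.Q56.WL.GGen
import Pool.Agent.TH894.NF1

/-! Conditions at `s` consecutive primes, near powers. -/

set_option autoImplicit false

namespace Pool.Agent.Q56.WL

open Finset Filter
open Pool.Agent.TH894.NF (Ang pr qk Bx cnt pr_prime qk_pos qk_cop pr_le_qk Bx_per)
open Pool.Agent.TH894.NE (Pr Pr_le_one)
open Pool.Agent.Q235.FD (avg)

open Classical in
lemma avg_ite {d : ℕ} (q : ℕ) (T : (Fin d → ℕ) → Prop) : avg q (fun n => if T n then (1 : ℝ) else 0) = Pr d q T := by
  unfold avg Pr Pool.Agent.TH894.NE.box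
  rw [card_filter, Fintype.card_fin]
  push_cast
  refine congrArg (· / (q : ℝ) ^ d) (sum_congr ?_ fun _ _ => rfl)
  ext n
  simp only [Fintype.mem_piFinset]

open Classical in
/-- the data -/
noncomputable def boxData {d : ℕ} (a : Ang d) (s : ℕ) : GData (Fin d) (a.e * 2 * s + 3) where
  κ := ℕ × ℕ × (Fin s → ℝ × ℝ)
  Λ := fun x => if x < s + 3 then ∅ else
    (range (x + 1)) ×ˢ ((range s) ×ˢ (Fintype.piFinset (fun _ : Fin s => (insert (2 : ℝ) (a.W x)) ×ˢ (insert (2 : ℝ) (a.W x)))))
  card := by
    intro x _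
    split_ifs with hx
    · rw [card_empty]
      exact Nat.zero_le _
    · push Not at hx
      rw [card_product, card_product, card_range, card_range, Fintype.card_piFinset_const, card_product]
      have hW : (insert (2 : ℝ) (a.W x)).card ≤ x ^ a.e := by
        have h1 := card_insert_le (2 : ℝ) (a.W x)
        have h2 := a.card x (by omega)
        have h3 : (a.W x).card + 1 ≤ x ^ a.e := by exact_mod_cast h2
        omega
      have e1 : ((insert (2 : ℝ) (a.W x)).card * (insert (2 : ℝ) (a.W x)).card) ^ s ≤ (x ^ a.e * x ^ a.e) ^ s :=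
        Nat.pow_le_pow_left (Nat.mul_le_mul hW hW) s
      have e2 : x ^ (a.e * 2 * s + 3) = (x * x) * (x * (x ^ a.e * x ^ a.e) ^ s) := by
        rw [← pow_add, ← pow_mul]
        ring
      rw [e2]
      exact Nat.mul_le_mul (by nlinarith) (Nat.mul_le_mul (by omega) e1)
  I := fun x l => (range l.1).filter (fun k => k % s = l.2.1 ∧ qk s k ≤ x)
  q := fun _ _ k => qk s k
  pos := by
    intro x l k hk
    rw [mem_filter] at hk
    exact ⟨qk_pos s k, hk.2.2⟩
  cop := by
    intro x l k k' hk hk' hne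
    rw [mem_filter] at hk hk'
    exact qk_cop s k k' (hk.2.1.trans hk'.2.1.symm) hne
  G := fun _ l k n => if Bx a s l.2.2 k n then 1 else 0
  per := by
    intro x l k n _
    have h := Bx_per a s l.2.2 k n
    by_cases h1 : Bx a s l.2.2 k n
    · rw [if_pos h1, if_pos (h.1 h1)]
    · rw [if_neg h1, if_neg (fun h' => h1 (h.2 h'))]
  bound := by
    intro x l k n _
    split_ifs <;> simp

open Classical in
theorem boxes_near {d : ℕ} (a : Ang d) {M : ℕ} {e w : Fin d → ℝ} {μ : Fin d → Fin M} (hset : Setting e w μ)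
    (s : ℕ) (hs : 1 ≤ s) (δ : ℝ) (hδ : 0 < δ) (A B : ℕ) :
    ForAlmostAll e w μ A B (fun (_ : Unit) n m => ∀ w : Fin s → ℝ × ℝ,
      |(cnt a s w n m : ℝ) - Pool.Agent.TH894.NF.ex a s w n| ≤ (n : ℝ) ^ (1 / 2 + δ)) := by
  have hsr : (1 : ℝ) ≤ s := by exact_mod_cast hs
  have hev : ∀ᶠ n : ℕ in atTop, (s : ℝ) ≤ (n : ℝ) ^ (δ / 2) := by
    have h1 : Tendsto (fun x : ℝ => x ^ (δ / 2)) atTop atTop := tendsto_rpow_atTop (by positivity)
    exact (h1.comp tendsto_natCast_atTop_atTop).eventually (eventually_ge_atTop _)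
  obtain ⟨n₁, hn₁⟩ := eventually_atTop.1 hev
  have hlaw : ForAlmostAll e w μ A B (fun (_ : Unit) x m => GLaw (δ / (6 * s)) (boxData a s) x m) :=
    gforAlmostAll_of hset (by positivity) A B (fun _ : Unit => boxData a s) 0 (fun _ _ _ _ h => h)
  refine hlaw.pow (3 * s) (by omega) (n₁ + 16 * s + 16) ?_
  intro _ n m hyn hcon w
  have hn16 : 16 * s + 16 ≤ n := by omega
  have hnr16 : (16 : ℝ) * s + 16 ≤ n := by exact_mod_cast hn16
  have hn0 : (0 : ℝ) < n := by linarith
  have hn1 : (1 : ℝ) ≤ n := by linarith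
  obtain ⟨x, hx⟩ : ∃ x, x = n ^ (3 * s) := ⟨_, rfl⟩
  rw [← hx] at hcon
  have hxr : (x : ℝ) = (n : ℝ) ^ (3 * s) := by rw [hx]; push_cast; ring
  have hnx : n ≤ x := by
    rw [hx]
    exact Nat.le_self_pow (by omega) n
  have hq : ∀ k ∈ range n, qk s k ≤ x := by
    intro k hk
    rw [mem_range] at hk
    unfold Pool.Agent.TH894.NF.qk
    calc ∏ i : Fin s, pr (k + i) ≤ ∏ _i : Fin s, n ^ 3 := by
          apply prod_le_prod'
          intro i _
          refine (Pool.Agent.TH862.EA.nth_prime_le (k + i)).trans ?_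
          have h1 : k + i + 1 ≤ n + s := by have := i.isLt; omega
          have h2 : n + s ≤ 2 * n := by omega
          calc 4 * (k + i + 1) ^ 2 ≤ 4 * (2 * n) ^ 2 := Nat.mul_le_mul_left 4 (Nat.pow_le_pow_left (h1.trans h2) 2)
            _ = 16 * n ^ 2 := by ring
            _ ≤ n * n ^ 2 := Nat.mul_le_mul_right _ (by omega)
            _ = n ^ 3 := by ring
      _ = x := by rw [prod_const, card_univ, Fintype.card_fin, hx, ← pow_mul]
  -- a box with bounds in a finite set
  have hend : ∀ i : Fin s, ∃ w' ∈ (insert (2 : ℝ) (a.W x)) ×ˢ (insert (2 : ℝ) (a.W x)), ∀ p n, p.Prime → p ≤ x →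
      (((w i).1 ≤ a.a p n ∧ a.a p n < (w i).2) ↔ (w'.1 ≤ a.a p n ∧ a.a p n < w'.2)) := by
    intro i
    obtain ⟨u, hu, hu2⟩ := a.end_pt x (w i).1
    obtain ⟨v, hv, hv2⟩ := a.end_pt x (w i).2
    refine ⟨(u, v), mem_product.2 ⟨hu, hv⟩, fun p n hp hpx => ?_⟩
    rw [hu2 p n hp hpx, ← not_le, hv2 p n hp hpx, not_le]
  choose w' hw' hw'2 using hend
  have hBx : ∀ k ∈ range n, ∀ m : Fin d → ℕ, Bx a s w k m ↔ Bx a s w' k m := by
    intro k hk m
    unfold Pool.Agent.TH894.NF.Bx
    apply forall_congr'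
    intro i
    exact hw'2 i (pr (k + i)) m (pr_prime _) ((pr_le_qk s k i).trans (hq k hk))
  have hcnt : cnt a s w n m = cnt a s w' n m := by
    unfold Pool.Agent.TH894.NF.cnt
    congr 1
    apply filter_congr
    intro k hk
    exact hBx k hk m
  have hex : Pool.Agent.TH894.NF.ex a s w n = Pool.Agent.TH894.NF.ex a s w' n := by
    unfold Pool.Agent.TH894.NF.ex
    refine sum_congr rfl fun k hk => ?_
    congr 1
    funext m
    exact propext (hBx k hk m)
  rw [hcnt, hex]
  -- the classes modulo s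
  have hclass : ∀ t ∈ range s, ((range n).filter (fun k => k % s = t ∧ qk s k ≤ x)) = (range n).filter (fun k => k % s = t) := by
    intro t _
    apply filter_congr
    intro k hk
    exact ⟨fun h => h.1, fun h => ⟨h, hq k hk⟩⟩
  have hmem : ∀ t ∈ range s, (n, t, w') ∈ (boxData a s).Λ x := by
    intro t ht
    show (n, t, w') ∈ (if x < s + 3 then ∅ else
      (range (x + 1)) ×ˢ ((range s) ×ˢ (Fintype.piFinset (fun _ : Fin s => (insert (2 : ℝ) (a.W x)) ×ˢ (insert (2 : ℝ) (a.W x))))))
    rw [if_neg (by omega), mem_product, mem_product, mem_range]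
    refine ⟨?_, ht, ?_⟩
    · show n < x + 1
      omega
    · rw [Fintype.mem_piFinset]
      exact hw'
  have hpart : ∀ t ∈ range s, |((((range n).filter (fun k => k % s = t)).filter (fun k => Bx a s w' k m)).card : ℝ) -
      ∑ k ∈ (range n).filter (fun k => k % s = t), Pr d (qk s k) (Bx a s w' k)| ≤ Real.sqrt n * (n : ℝ) ^ (δ / 2) := by
    intro t ht
    have h1 := hcon (n, t, w') (hmem t ht)
    have hI : (boxData a s).I x (n, t, w') = (range n).filter (fun k => k % s = t) := hclass t ht
    have hA : ∀ k, avg ((boxData a s).q x (n, t, w') k) ((boxData a s).G x (n, t, w') k) = Pr d (qk s k) (Bx a s w' k) :=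
      fun k => avg_ite (qk s k) (Bx a s w' k)
    have hA2 : ∀ k, avg ((boxData a s).q x (n, t, w') k) (fun m => (boxData a s).G x (n, t, w') k m ^ 2) =
        Pr d (qk s k) (Bx a s w' k) := by
      intro k
      rw [← hA k]
      congr 1
      funext m
      show (if Bx a s w' k m then (1 : ℝ) else 0) ^ 2 = if Bx a s w' k m then (1 : ℝ) else 0
      split_ifs <;> norm_num
    have hS : ∑ k ∈ (range n).filter (fun k => k % s = t), (boxData a s).G x (n, t, w') k m =
        ((((range n).filter (fun k => k % s = t)).filter (fun k => Bx a s w' k m)).card : ℝ) := by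
      show ∑ k ∈ (range n).filter (fun k => k % s = t), (if Bx a s w' k m then (1 : ℝ) else 0) = _
      rw [card_filter]
      push_cast
      rfl
    rw [hI, hS] at h1
    simp only [hA, hA2] at h1
    refine h1.trans ?_
    apply mul_le_mul _ _ (by positivity) (Real.sqrt_nonneg _)
    · apply Real.sqrt_le_sqrt
      apply max_le hn1
      calc ∑ k ∈ (range n).filter (fun k => k % s = t), Pr d (qk s k) (Bx a s w' k) ≤ ∑ _k ∈ (range n).filter (fun k => k % s = t), (1 : ℝ) :=
            sum_le_sum fun k _ => Pr_le_one _ _ _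
        _ = (((range n).filter (fun k => k % s = t)).card : ℝ) := by rw [sum_const, nsmul_eq_mul, mul_one]
        _ ≤ n := by
            have := card_filter_le (range n) (fun k => k % s = t)
            rw [card_range] at this
            exact_mod_cast this
    · rw [hxr, ← Real.rpow_natCast, ← Real.rpow_mul hn0.le]
      apply Real.rpow_le_rpow_of_exponent_le hn1
      push_cast
      have : 3 * (s : ℝ) * (δ / (6 * s)) = δ / 2 := by field_simp; ring
      rw [this]
  have hsum : |(cnt a s w' n m : ℝ) - Pool.Agent.TH894.NF.ex a s w' n| ≤ s * (Real.sqrt n * (n : ℝ) ^ (δ / 2)) := by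
    have h1 : (cnt a s w' n m : ℝ) - Pool.Agent.TH894.NF.ex a s w' n = ∑ t ∈ range s, (((((range n).filter (fun k => k % s = t)).filter (fun k => Bx a s w' k m)).card : ℝ) -
        ∑ k ∈ (range n).filter (fun k => k % s = t), Pr d (qk s k) (Bx a s w' k)) := by
      rw [sum_sub_distrib]
      congr 1
      · unfold Pool.Agent.TH894.NF.cnt
        have h2 : ((range n).filter (fun k => Bx a s w' k m)).card =
            ∑ t ∈ range s, (((range n).filter (fun k => Bx a s w' k m)).filter (fun k => k % s = t)).card :=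
          card_eq_sum_card_fiberwise (fun k _ => mem_coe.2 (mem_range.2 (Nat.mod_lt _ (by omega))))
        rw [h2]
        push_cast
        refine sum_congr rfl fun t _ => ?_
        rw [filter_filter, filter_filter]
        congr 2
        apply filter_congr
        intro k _
        exact and_comm
      · unfold Pool.Agent.TH894.NF.ex
        rw [← sum_fiberwise_of_maps_to (s := range n) (t := range s) (g := fun k => k % s) (fun k _ => mem_range.2 (Nat.mod_lt _ (by omega)))]
    rw [h1]
    refine (abs_sum_le_sum_abs _ _).trans ((sum_le_sum hpart).trans ?_)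
    rw [sum_const, card_range, nsmul_eq_mul]
  have h9 : s * (Real.sqrt n * (n : ℝ) ^ (δ / 2)) ≤ (n : ℝ) ^ (1 / 2 + δ) := by
    have e1 : (n : ℝ) ^ (1 / 2 + δ) = (n : ℝ) ^ (δ / 2) * (Real.sqrt n * (n : ℝ) ^ (δ / 2)) := by
      rw [Real.sqrt_eq_rpow, ← Real.rpow_add hn0, ← Real.rpow_add hn0]
      congr 1
      ring
    rw [e1]
    apply mul_le_mul_of_nonneg_right (hn₁ n (by omega)) (by positivity)
  linarith

end Pool.Agent.Q56.WL
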