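import Pool.Agent.Q56.WL.Fam
import Pool.Agent.Q235.FD.Cen

/-! Functions with small averages, near powers. -/

set_option autoImplicit false

namespace Pool.Agent.Q56.WL

open Finset
open Pool.Agent.Q235.FD (Sets funData law_fun avg avg_mono avg_const avg_div eventually_le sum_inv_primes)

variable {L : Type} [Fintype L] {m : ℕ}

/-- functions whose averages are `O(1 / p)` -/
theorem centered_near {e w : L → ℝ} {μ : L → Fin m} (hs : Setting e w μ) {δ : ℝ} (hδ : 0 < δ) (A W B A₃ : ℕ) {τ : Type}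
    (U : ℕ → Finset τ) (hU : ∀ x, 2 ≤ x → (U x).card ≤ x ^ A₃) (G : τ → ℕ → (L → ℕ) → ℝ)
    (hper : ∀ t p n, p.Prime → G t p n = G t p (fun i => n i % p)) {C : ℝ} (hC : 1 ≤ C)
    (hbd : ∀ t p n, p.Prime → |G t p n| ≤ C) (hav : ∀ t p, p.Prime → |avg p (G t p)| ≤ C / p) :
    ForAlmostAll e w μ A W (fun (θ : Sets B) x n => ∀ P ∈ θ.S x, ∀ t ∈ U x,
      |∑ p ∈ P, G t p n| ≤ Real.sqrt (max 1 P.card) * (x : ℝ) ^ δ) := by
  have hC0 : 0 < C := by linarith
  obtain ⟨x₁, hx₁⟩ := eventually_le hδ C hC0.le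
  have hper' : ∀ t p n, p.Prime → G t p n / C = G t p (fun i => n i % p) / C := fun t p n hp => by rw [hper t p n hp]
  have hb' : ∀ t p n, p.Prime → |G t p n / C| ≤ 1 := fun t p n hp => by
    rw [abs_div, abs_of_pos hC0, div_le_one hC0]
    exact hbd t p n hp
  refine forAlmostAll_of hs (show 0 < δ / 2 by positivity) A W
    (fun θ : Sets B => funData θ U hU (fun t p n => G t p n / C) hper' hb') (x₁ + 2) ?_
  intro θ x n hx h P hP t ht
  have hPr := θ.prime x P hP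
  have h1 := law_fun θ U hU _ hper' hb' h P hP t ht
  have h2 : ∑ p ∈ P, avg p (fun n => (G t p n / C) ^ 2) ≤ P.card := by
    have : ∑ p ∈ P, avg p (fun n => (G t p n / C) ^ 2) ≤ ∑ p ∈ P, (1 : ℝ) := by
      apply sum_le_sum
      intro p hp
      have h3 : avg p (fun n => (G t p n / C) ^ 2) ≤ avg (L := L) p (fun _ => 1) := by
        apply avg_mono
        intro n
        rw [sq_le_one_iff_abs_le_one]
        exact hb' t p n (hPr p hp).1
      rwa [avg_const (hPr p hp).1.one_lt.le] at h3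
    simpa using this
  have h4 : Real.sqrt (max 1 (∑ p ∈ P, avg p (fun n => (G t p n / C) ^ 2))) ≤ Real.sqrt (max 1 P.card) :=
    Real.sqrt_le_sqrt (max_le_max le_rfl h2)
  have h5 : |∑ p ∈ P, avg p (fun n => G t p n / C)| ≤ 1 + Real.log x := by
    refine (abs_sum_le_sum_abs _ _).trans (le_trans (sum_le_sum fun p hp => ?_) (sum_inv_primes hPr))
    rw [avg_div, abs_div, abs_of_pos hC0, div_le_iff₀ hC0]
    have := hav t p (hPr p hp).1
    calc |avg p (G t p)| ≤ C / p := this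
      _ = 1 / p * C := by ring
  have h6 : ∑ p ∈ P, G t p n / C = (∑ p ∈ P, G t p n) / C := (sum_div _ _ _).symm
  rw [h6] at h1
  obtain ⟨V, hV⟩ : ∃ V, V = Real.sqrt (max 1 (P.card : ℝ)) := ⟨_, rfl⟩
  have hV1 : 1 ≤ V := by rw [hV, Real.one_le_sqrt]; exact le_max_left _ _
  rw [← hV] at h4 ⊢
  have hxp : (0 : ℝ) ≤ (x : ℝ) ^ (δ / 2) := by positivity
  have h7 : |(∑ p ∈ P, G t p n) / C| ≤ V * (x : ℝ) ^ (δ / 2) + (1 + Real.log x) := by
    have h8 := abs_add_le ((∑ p ∈ P, G t p n) / C - ∑ p ∈ P, avg p (fun n => G t p n / C)) (∑ p ∈ P, avg p (fun n => G t p n / C))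
    rw [sub_add_cancel] at h8
    have h9 := mul_le_mul_of_nonneg_right h4 hxp
    linarith
  rw [abs_div, abs_of_pos hC0, div_le_iff₀ hC0] at h7
  have hx2 : (1 : ℝ) ≤ x := by exact_mod_cast (by omega : 1 ≤ x)
  have hlog : 0 ≤ Real.log x := Real.log_nonneg hx2
  calc |∑ p ∈ P, G t p n| ≤ (V * (x : ℝ) ^ (δ / 2) + (1 + Real.log x)) * C := h7
    _ ≤ (V * (x : ℝ) ^ (δ / 2) + V * (1 + Real.log x)) * C := by
        apply mul_le_mul_of_nonneg_right _ hC0.le
        have : 1 * (1 + Real.log x) ≤ V * (1 + Real.log x) := mul_le_mul_of_nonneg_right hV1 (by linarith)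
        linarith
    _ = V * (C * (x : ℝ) ^ (δ / 2) + C * (1 + Real.log x)) := by ring
    _ ≤ V * (x : ℝ) ^ δ := mul_le_mul_of_nonneg_left (hx₁ x (by omega)) (by linarith)

end Pool.Agent.Q56.WL
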