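import Pool.Agent.Q56.WL.One
import Pool.Agent.Q213.CC.Main

/-! Short character sums at all positions in windows near powers. -/

set_option autoImplicit false

namespace Pool.Agent.Q56.WL

open Finset Filter
open Pool.Agent.Q235.FD (Data Law avg)
open Pool.Agent.Q213.CC (cs cs_mod GG GG_nonneg GG_le_one bad card_bad mean_one)

lemma avg_one_eq (p : ℕ) (F : ℕ → ℝ) : avg (L := Unit) p (fun n => F (n ())) = (∑ u ∈ range p, F u) / p := by
  classical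
  unfold Pool.Agent.Q235.FD.avg
  rw [Fintype.card_unit, pow_one]
  congr 1
  refine sum_bij' (fun n _ => n ()) (fun u _ => fun _ => u) ?_ ?_ ?_ ?_ ?_
  · intro n hn
    simp only [Fintype.mem_piFinset] at hn
    exact hn ()
  · intro u hu
    simp only [Fintype.mem_piFinset]
    exact fun _ => hu
  · intro n _
    rfl
  · intro u _
    rfl
  · intro n _
    rfl

/-- the parameters: the power, the precision, and families of nonprincipal characters -/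
structure Fams where
  n : ℕ
  hn : 2 ≤ n
  δ : ℝ
  hδ : 0 < δ
  a : ℝ
  ha : 0 ≤ a
  X : ℕ → (p : ℕ) → Finset (DirichletCharacter ℂ p)
  hX : ∀ x p : ℕ, p.Prime → ((X x p).card : ℝ) ≤ (x : ℝ) ^ a ∧ ∀ χ ∈ X x p, χ ≠ 1

/-- the length -/
noncomputable def wid (n x : ℕ) : ℕ := ⌊(x : ℝ) ^ (1 / (n : ℝ))⌋₊

lemma wid_pos (n : ℕ) {x : ℕ} (hx : 1 ≤ x) : 1 ≤ wid n x := by
  unfold wid
  refine Nat.le_floor ?_
  have : (1 : ℝ) ≤ x := by exact_mod_cast hx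
  simpa using Real.one_le_rpow this (by positivity : (0 : ℝ) ≤ 1 / (n : ℝ))

open Classical in
/-- the data of the law -/
noncomputable def famData (θ : Fams) : Data Unit 0 where
  κ := Unit
  Λ := fun _ => univ
  card := fun x _ => by simp
  P := fun x _ => (range (x + 1)).filter (fun p => p.Prime)
  prime := by
    intro x _ p hp
    rw [mem_filter, mem_range] at hp
    exact ⟨hp.2, by omega⟩
  G := fun x _ p m => GG θ.n (wid θ.n x) ((x : ℝ) ^ θ.a) (θ.X x) p (m ())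
  per := by
    intro x _ p m _
    unfold GG
    congr 1
    refine sum_congr rfl fun χ _ => sum_congr rfl fun H _ => ?_
    rw [cs_mod]
  bound := by
    intro x _ p m hp
    rw [mem_filter, mem_range] at hp
    have hx1 : 1 ≤ x := by
      have := hp.2.two_le
      omega
    have hx0 : (0 : ℝ) < x := by exact_mod_cast hx1
    rw [abs_of_nonneg (GG_nonneg θ.n (wid θ.n x) _ (by positivity) (θ.X x) p _)]
    exact GG_le_one θ.n (wid θ.n x) _ (by positivity) (wid_pos θ.n hx1) (θ.X x) p _ (θ.hX x p hp.2).1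

open Classical in
theorem few_near {e w : ℝ} (he : 1 < e) (hk : ∀ k : ℕ, e ≠ k) (hw : w ≠ 0) (A V : ℕ) : ∃ c : ℝ, 0 < c ∧
    ∀ n : ℕ, 2 ≤ n → ∀ δ : ℝ, 0 < δ → ∃ y₀ : ℕ, ∀ (β : ℝ) (X y : ℕ), y₀ ≤ y → ∀ a : ℝ, 0 ≤ a →
    ∀ F : ℕ → (p : ℕ) → Finset (DirichletCharacter ℂ p),
    (∀ x p : ℕ, y ≤ x → p.Prime → ((F x p).card : ℝ) ≤ (x : ℝ) ^ a ∧ ∀ χ ∈ F x p, χ ≠ 1) →
    (badIndices X e w β ((y : ℝ) ^ V) (fun M => ∀ x : ℕ, y ≤ x → (x : ℝ) ≤ (X : ℝ) ^ c →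
      ((bad n δ (F x) x M).card : ℝ) ≤ (x : ℝ) ^ (1 / 2 + a + 4 * δ)) : ℝ) ≤ 1 / (y : ℝ) ^ A * X := by
  have hdet : ∀ n : ℕ, 2 ≤ n → ∀ δ : ℝ, 0 < δ → ∃ x₀ : ℕ, ∀ x : ℕ, x₀ ≤ x →
      ∀ a : ℝ, 0 ≤ a → ∀ X : (p : ℕ) → Finset (DirichletCharacter ℂ p),
      (∀ p : ℕ, p.Prime → ((X p).card : ℝ) ≤ (x : ℝ) ^ a ∧ ∀ χ ∈ X p, χ ≠ 1) →
      ∀ (W : ℕ), W = ⌊(x : ℝ) ^ (1 / (n : ℝ))⌋₊ → ∀ M : ℕ,
      |∑ p ∈ (range (x + 1)).filter (fun p => p.Prime), GG n W ((x : ℝ) ^ a) X p M -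
          ∑ p ∈ (range (x + 1)).filter (fun p => p.Prime),
            (∑ u ∈ range p, GG n W ((x : ℝ) ^ a) X p u) / p| ≤
        Real.sqrt (max 1 (∑ p ∈ (range (x + 1)).filter (fun p => p.Prime),
            (∑ u ∈ range p, GG n W ((x : ℝ) ^ a) X p u) / p)) * (x : ℝ) ^ (1 / 8 : ℝ) →
      ((bad n δ X x M).card : ℝ) ≤ (x : ℝ) ^ (1 / 2 + a + 4 * δ) := fun n hn δ hδ => card_bad n hn δ hδ
  choose! x₀ hx₀ using hdet
  have H : ForAlmostAll (fun _ : Unit => e) (fun _ => w) (fun _ => (0 : Fin 1)) A V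
      (fun (θ : Fams) x m => x₀ θ.n θ.δ ≤ x → ((bad θ.n θ.δ (θ.X x) x (m ())).card : ℝ) ≤ (x : ℝ) ^ (1 / 2 + θ.a + 4 * θ.δ)) := by
    refine forAlmostAll_of (setting_one he hk hw) (show (0 : ℝ) < 1 / 8 by norm_num) A V famData 1 ?_
    intro θ x m hx hlaw hx0'
    have hx0 : (0 : ℝ) < x := by exact_mod_cast hx
    have hL : 0 < (x : ℝ) ^ θ.a := by positivity
    have h1 : |∑ p ∈ (range (x + 1)).filter (fun p => p.Prime), GG θ.n (wid θ.n x) ((x : ℝ) ^ θ.a) (θ.X x) p (m ()) -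
        ∑ p ∈ (range (x + 1)).filter (fun p => p.Prime), avg p (fun m : Unit → ℕ => GG θ.n (wid θ.n x) ((x : ℝ) ^ θ.a) (θ.X x) p (m ()))| ≤
        Real.sqrt (max 1 (∑ p ∈ (range (x + 1)).filter (fun p => p.Prime),
          avg p (fun m : Unit → ℕ => GG θ.n (wid θ.n x) ((x : ℝ) ^ θ.a) (θ.X x) p (m ()) ^ 2))) * (x : ℝ) ^ (1 / 8 : ℝ) :=
      hlaw () (show () ∈ (univ : Finset Unit) from mem_univ _)
    refine hx₀ θ.n θ.hn θ.δ θ.hδ x hx0' θ.a θ.ha (θ.X x) (fun p hp => θ.hX x p hp) (wid θ.n x) rfl (m ()) ?_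
    have e1 : ∑ p ∈ (range (x + 1)).filter (fun p => p.Prime), avg p (fun m : Unit → ℕ => GG θ.n (wid θ.n x) ((x : ℝ) ^ θ.a) (θ.X x) p (m ())) =
        ∑ p ∈ (range (x + 1)).filter (fun p => p.Prime), (∑ u ∈ range p, GG θ.n (wid θ.n x) ((x : ℝ) ^ θ.a) (θ.X x) p u) / p :=
      sum_congr rfl fun p _ => avg_one_eq p (fun u => GG θ.n (wid θ.n x) ((x : ℝ) ^ θ.a) (θ.X x) p u)
    rw [e1] at h1
    refine h1.trans (mul_le_mul_of_nonneg_right (Real.sqrt_le_sqrt (max_le_max le_rfl (sum_le_sum fun p hp => ?_))) (by positivity))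
    rw [mem_filter] at hp
    rw [avg_one_eq p (fun u => GG θ.n (wid θ.n x) ((x : ℝ) ^ θ.a) (θ.X x) p u ^ 2)]
    refine div_le_div_of_nonneg_right (sum_le_sum fun u _ => ?_) (Nat.cast_nonneg p)
    have h4 := GG_nonneg θ.n (wid θ.n x) _ hL (θ.X x) p u
    have h5 := GG_le_one θ.n (wid θ.n x) _ hL (wid_pos θ.n hx) (θ.X x) p u (θ.hX x p hp.2).1
    nlinarith
  obtain ⟨c, hc, y₀, h⟩ := one_dim H
  refine ⟨c, hc, fun n hn δ hδ => ⟨y₀ + x₀ n δ, fun β X y hy a ha F hF => ?_⟩⟩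
  obtain ⟨θ, hθ⟩ : ∃ θ : Fams, θ = ⟨n, hn, δ, hδ, a, ha, fun x p => if y ≤ x then F x p else ∅, by
    intro x p hp
    by_cases hyx : y ≤ x
    · rw [if_pos hyx]
      exact hF x p hyx hp
    · rw [if_neg hyx]
      refine ⟨?_, fun χ hχ => absurd hχ (notMem_empty χ)⟩
      rw [card_empty, Nat.cast_zero]
      positivity⟩ := ⟨_, rfl⟩
  refine le_trans (Nat.cast_le.2 (badIndices_mono ?_)) (h θ β X y (by omega))
  intro M hM x hyx hxX
  have h1 := hM x hyx hxX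
  rw [hθ] at h1
  have h2 : ((bad n δ (fun p => if y ≤ x then F x p else ∅) x M).card : ℝ) ≤ (x : ℝ) ^ (1 / 2 + a + 4 * δ) := h1 (by
    show x₀ n δ ≤ x
    omega)
  have h3 : (fun p => if y ≤ x then F x p else ∅) = F x := by
    funext p
    rw [if_pos hyx]
  rw [h3] at h2
  exact h2

end Pool.Agent.Q56.WL
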