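import Pool.Agent.Q56.WL.Fam
import Pool.Agent.Q235.FD.Ell

/-! Systems of elliptic curves with coefficients near powers. -/

set_option autoImplicit false

namespace Pool.Agent.Q56.WL

open Finset
open Pool.Agent.Q235.FD (Sets number curveProportion propData law_prop proportion proportion_prod)

theorem ell_near {s m : ℕ} {e w : Fin s × Fin 2 → ℝ} {μ : Fin s × Fin 2 → Fin m} (hs : Setting e w μ) {δ : ℝ} (hδ : 0 < δ)
    (A W B C : ℕ) {τ : Type} (U : ℕ → Finset τ) (hU : ∀ x, 2 ≤ x → (U x).card ≤ x ^ C) (Q : τ → ℕ → ℕ → ℕ → Prop)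
    (hQ : ∀ t p a b, Q t p a b ↔ Q t p (a % p) (b % p)) :
    ForAlmostAll e w μ A W (fun (θ : Sets B) z n => ∀ P ∈ θ.S z, ∀ t : Fin s → τ, (∀ j, t j ∈ U z) →
      |(number P (fun p => ∀ j, Q (t j) p (n (j, 0)) (n (j, 1))) : ℝ) - ∑ p ∈ P, ∏ j, curveProportion p (Q (t j) p)| ≤
        Real.sqrt (max 1 (∑ p ∈ P, ∏ j, curveProportion p (Q (t j) p))) * (z : ℝ) ^ δ) := by
  classical
  have hU' : ∀ x, 2 ≤ x → (Fintype.piFinset (fun _ : Fin s => U x)).card ≤ x ^ (C * s) := by
    intro x hx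
    rw [Fintype.card_piFinset, prod_const, card_univ, Fintype.card_fin, pow_mul]
    exact Nat.pow_le_pow_left (hU x hx) s
  refine forAlmostAll_of hs hδ A W (fun θ : Sets B => propData θ (fun x => Fintype.piFinset (fun _ : Fin s => U x)) hU'
    (fun t p n => ∀ j, Q (t j) p (n (j, 0)) (n (j, 1))) (fun t p n => forall_congr' fun j => hQ _ _ _ _)) 0 ?_
  intro θ x m _ h P hP t ht
  have h1 := law_prop θ _ hU' _ _ h P hP t (by
    rw [Fintype.mem_piFinset]
    exact ht)
  have h2 : ∀ p, proportion (L := Fin s × Fin 2) p (fun n => ∀ j, Q (t j) p (n (j, 0)) (n (j, 1))) = ∏ j, curveProportion p (Q (t j) p) :=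
    fun p => proportion_prod p (fun j => Q (t j) p)
  simp only [h2] at h1
  exact h1

end Pool.Agent.Q56.WL
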