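import Pool.Agent.Q56.TF.ExpB
import Pool.Agent.TH915.PW.GenPoly

set_option autoImplicit false

/-! Exponential sums over smooth functions of non-integral order, uniformly in the function. -/

namespace Pool.Agent.Q56.WL
open Finset Filter
open Pool.Agent.H469R2.NK (e norm_e e_add conj_e Cq Cq_pos)
open Pool.Agent.TH915.PW (Hy pw pw_der)
open Pool.Agent.Y719.LP (exp_bound_mean)
open Pool.Agent.Q56.TF (Sm choice ev_log Sx)

/-- the exponential sums, uniformly in the function -/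
lemma exp_unif {k : ℕ} (hk : 1 ≤ k) {b c1 c2 : ℝ} (hb0 : 0 < b) (hb1 : b < 1) (hc1 : 0 < c1) (hc2 : 0 < c2) :
    ∃ D κ : ℝ, 0 < D ∧ 0 < κ ∧ ∃ x₀ : ℕ, ∀ x : ℕ, x₀ ≤ x → ∀ φ : ℕ → ℝ → ℝ,
      Sm k b c1 c2 ((x : ℝ) ^ (1 / 2 : ℝ)) φ → ∀ θ : ℝ, 0 < θ → θ ≤ 1 →
      (‖Sx x (fun m => φ 0 m) θ‖ / x) ^ (2 ^ k) ≤
        D * ((1 + Real.log x) ^ k / (θ * (x : ℝ) ^ (k + b)) + (x : ℝ) ^ (-κ)) := by
  have hk0 : (0 : ℝ) < k := by exact_mod_cast hk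
  obtain ⟨κ, hκ⟩ : ∃ κ : ℝ, κ = min (1 / 4) ((1 - b) / (2 * k)) := ⟨_, rfl⟩
  have hκ0 : 0 < κ := by
    rw [hκ]
    apply lt_min (by norm_num)
    apply div_pos (by linarith) (by positivity)
  have hκ1 : κ ≤ 1 / 4 := by rw [hκ]; exact min_le_left _ _
  have hκ2 : κ ≤ (1 - b) / (2 * k) := by rw [hκ]; exact min_le_right _ _
  -- constants
  obtain ⟨D1, hD1⟩ : ∃ D1 : ℝ, D1 = Cq k * (4 / c1 + 1 + 2 * (2 * c2) ^ (1 / (k : ℝ)) + 2 ^ (k + 3) * (c2 / c1)) := ⟨_, rfl⟩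
  have hCq := Cq_pos k
  have hD10 : 0 < D1 := by rw [hD1]; positivity
  obtain ⟨x1, hx1⟩ := eventually_atTop.1 (ev_log k)
  have hev2 : ∀ᶠ x : ℕ in atTop, (2 * c2) ≤ ((x : ℝ) ^ (1 / 2 : ℝ)) ^ (1 - b) :=
    ((tendsto_rpow_atTop (show (0 : ℝ) < 1 - b by linarith)).comp
      ((tendsto_rpow_atTop (show (0 : ℝ) < 1 / 2 by norm_num)).comp tendsto_natCast_atTop_atTop)).eventually_ge_atTop _
  obtain ⟨x2, hx2⟩ := eventually_atTop.1 hev2
  refine ⟨2 ^ (2 ^ k) * (1 + D1), κ, by positivity, hκ0, x1 + x2 + 4, fun x hx φ h θ hθ hθ1 => ?_⟩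
  obtain ⟨_, _, _, _, ht0, hder, hlo, hhi, hdec⟩ := h
  have hxx1 := hx1 x (by omega)
  have hxx2 := hx2 x (by omega)
  have hx0 : (0 : ℝ) < x := by exact_mod_cast (by omega : 0 < x)
  have hx1' : (1 : ℝ) ≤ x := by exact_mod_cast (by omega : 1 ≤ x)
  have hlx : 0 ≤ Real.log x := Real.log_nonneg hx1'
  obtain ⟨q, hq⟩ : ∃ q : ℝ, q = (x : ℝ) ^ (1 / 2 : ℝ) := ⟨_, rfl⟩
  rw [← hq] at hxx2 ht0 hder hlo hhi hdec
  have hq0 : 0 < q := by rw [hq]; positivity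
  have hqs : q = Real.sqrt x := by rw [hq, Real.sqrt_eq_rpow]
  have hqq : q * q = x := by rw [hqs]; exact Real.mul_self_sqrt hx0.le
  have hq1 : 1 ≤ q := ht0
  -- the cut
  obtain ⟨Y, hY⟩ : ∃ Y, Y = Nat.sqrt x + 1 := ⟨_, rfl⟩
  have hYq : q ≤ Y := by
    rw [hqs, hY]
    push_cast
    have := Nat.lt_succ_sqrt x
    rw [Real.sqrt_le_left (by positivity)]
    have h1 : (x : ℝ) ≤ ((Nat.sqrt x + 1) * (Nat.sqrt x + 1) : ℕ) := by exact_mod_cast this.le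
    push_cast at h1
    rw [sq]
    exact h1
  have hYq2 : (Y : ℝ) - 1 ≤ q := by
    rw [hqs, hY]
    push_cast
    rw [add_sub_cancel_right]
    exact Real.nat_sqrt_le_real_sqrt
  have hYx : Y ≤ x := by
    rw [hY]
    have h1 := Nat.sqrt_lt_self (show 1 < x by omega)
    omega
  obtain ⟨L, hL⟩ : ∃ L, L = x + 1 - Y := ⟨_, rfl⟩
  have hLx : L ≤ x := by omega
  have hY0 : (0 : ℝ) < Y := lt_of_lt_of_le hq0 hYq
  have hYt : q ≤ Y := hYq
  obtain ⟨T, hT⟩ : ∃ T : ℂ, T = ∑ n ∈ range L, e (θ * φ 0 (Y + n)) := ⟨_, rfl⟩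
  have hsplit : ‖Sx x (fun m => φ 0 m) θ‖ ≤ q + ‖T‖ := by
    have h1 : Icc 1 x = Ico 1 (x + 1) := by
      ext m
      rw [mem_Icc, mem_Ico]
      omega
    unfold Sx
    rw [h1, ← sum_Ico_consecutive _ (show 1 ≤ Y by omega) (show Y ≤ x + 1 by omega)]
    refine (norm_add_le _ _).trans ?_
    apply add_le_add
    · refine (norm_sum_le _ _).trans ?_
      simp only [norm_e, sum_const, Nat.card_Ico, nsmul_eq_mul, mul_one]
      rw [Nat.cast_sub (by omega)]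
      push_cast
      exact hYq2
    · rw [hT, sum_Ico_eq_sum_range, hL]
      apply le_of_eq
      congr 1
      apply sum_congr rfl
      intro n _
      push_cast
      rfl
  -- the parameters
  obtain ⟨lo, hlo'⟩ : ∃ lo : ℝ, lo = c1 * ((x : ℝ) + 1) ^ (b - 1) := ⟨_, rfl⟩
  obtain ⟨hi, hhi'⟩ : ∃ hi : ℝ, hi = c2 * (Y : ℝ) ^ (b - 1) := ⟨_, rfl⟩
  have hlo0 : 0 < lo := by rw [hlo']; positivity
  have hhi0 : 0 < hi := by rw [hhi']; positivity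
  have hHy : Hy k (Y : ℝ) ((x : ℝ) + 1) lo hi φ := by
    refine ⟨?_, ?_, ?_, ?_⟩
    · intro m hm t ht
      exact hder m hm t (hYt.trans ht.1)
    · intro t ht
      refine le_trans ?_ (hlo t (hYt.trans ht.1))
      rw [hlo']
      apply mul_le_mul_of_nonneg_left _ hc1.le
      apply Real.rpow_le_rpow_of_nonpos (lt_of_lt_of_le hY0 ht.1) ht.2 (by linarith)
    · intro t ht
      refine le_trans (hhi t (hYt.trans ht.1)) ?_
      rw [hhi']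
      apply mul_le_mul_of_nonneg_left _ hc2.le
      apply Real.rpow_le_rpow_of_nonpos hY0 ht.1 (by linarith)
    · intro t ht
      exact hdec t (hYt.trans ht.1)
  have hYb : (Y : ℝ) ^ (b - 1) ≤ q ^ (b - 1) := Real.rpow_le_rpow_of_nonpos hq0 hYq (by linarith)
  have hqb : q ^ (b - 1) = 1 / q ^ (1 - b) := by
    rw [one_div, ← Real.rpow_neg hq0.le]
    congr 1
    ring
  have hhi1 : 2 * hi ≤ 1 := by
    rw [hhi']
    calc 2 * (c2 * (Y : ℝ) ^ (b - 1)) ≤ 2 * (c2 * q ^ (b - 1)) := by gcongr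
      _ = (2 * c2) / q ^ (1 - b) := by rw [hqb]; ring
      _ ≤ 1 := by
        rw [div_le_one (by positivity)]
        exact hxx2
  have hW1 : 2 * (θ * hi) ≤ 1 := by
    have : θ * hi ≤ 1 * hi := mul_le_mul_of_nonneg_right hθ1 hhi0.le
    linarith
  obtain ⟨H, hH1, hH2, hH3, hH4⟩ := choice k x hk (by omega) θ lo hi hθ hlo0 hhi0 hW1
  have hmain := exp_bound_mean hlo0 hhi0.le θ hθ hHy (Y : ℝ) x L H (by omega) hLx le_rfl (by
    rw [hL, Nat.cast_sub (by omega)]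
    push_cast
    linarith) hH1 hH2 hH3
  rw [← hT] at hmain
  -- bounds
  have hxp : (x : ℝ) ^ (k + b) = (x : ℝ) ^ (b - 1) * (x : ℝ) ^ (k + 1) := by
    rw [← Real.rpow_natCast, ← Real.rpow_add hx0]
    congr 1
    push_cast
    ring
  have hlo2 : c1 / 2 * (x : ℝ) ^ (b - 1) ≤ lo := by
    rw [hlo']
    have h1 : ((x : ℝ) + 1) ^ (b - 1) ≥ (2 * x : ℝ) ^ (b - 1) := by
      apply Real.rpow_le_rpow_of_nonpos (by positivity) (by linarith) (by linarith)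
    have h2 : (2 * x : ℝ) ^ (b - 1) = 2 ^ (b - 1) * (x : ℝ) ^ (b - 1) := Real.mul_rpow (by norm_num) hx0.le
    have h3 : (1 / 2 : ℝ) ≤ 2 ^ (b - 1) := by
      rw [show (1 / 2 : ℝ) = 2 ^ (-1 : ℝ) by rw [Real.rpow_neg_one]; norm_num]
      apply Real.rpow_le_rpow_of_exponent_le (by norm_num)
      linarith
    have h4 : 0 < (x : ℝ) ^ (b - 1) := by positivity
    have h5 : (1 / 2 : ℝ) * (x : ℝ) ^ (b - 1) ≤ ((x : ℝ) + 1) ^ (b - 1) := by
      rw [h2] at h1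
      nlinarith
    calc c1 / 2 * (x : ℝ) ^ (b - 1) = c1 * (1 / 2 * (x : ℝ) ^ (b - 1)) := by ring
      _ ≤ _ := mul_le_mul_of_nonneg_left h5 hc1.le
  have B2 : 2 * (1 + Real.log x) ^ k / (θ * lo * (x : ℝ) ^ (k + 1)) ≤
      4 / c1 * ((1 + Real.log x) ^ k / (θ * (x : ℝ) ^ (k + b))) := by
    rw [hxp]
    calc 2 * (1 + Real.log x) ^ k / (θ * lo * (x : ℝ) ^ (k + 1))
        ≤ 2 * (1 + Real.log x) ^ k / (θ * (c1 / 2 * (x : ℝ) ^ (b - 1)) * (x : ℝ) ^ (k + 1)) := by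
          apply div_le_div_of_nonneg_left (by positivity) (by positivity)
          gcongr
      _ = _ := by
          field_simp
          ring
  have hxκ : (x : ℝ) ^ (-κ) > 0 := by positivity
  have B1 : 1 / (x : ℝ) ≤ (x : ℝ) ^ (-κ) := by
    rw [one_div, ← Real.rpow_neg_one]
    apply Real.rpow_le_rpow_of_exponent_le hx1'
    linarith
  have B3 : 2 * (2 * (θ * hi)) ^ (1 / (k : ℝ)) ≤ 2 * (2 * c2) ^ (1 / (k : ℝ)) * (x : ℝ) ^ (-κ) := by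
    have h1 : 2 * (θ * hi) ≤ 2 * c2 * q ^ (b - 1) := by
      rw [hhi']
      calc 2 * (θ * (c2 * (Y : ℝ) ^ (b - 1))) ≤ 2 * (1 * (c2 * q ^ (b - 1))) := by gcongr
        _ = _ := by ring
    have h2 : (2 * (θ * hi)) ^ (1 / (k : ℝ)) ≤ (2 * c2 * q ^ (b - 1)) ^ (1 / (k : ℝ)) :=
      Real.rpow_le_rpow (by positivity) h1 (by positivity)
    have h3 : (2 * c2 * q ^ (b - 1)) ^ (1 / (k : ℝ)) = (2 * c2) ^ (1 / (k : ℝ)) * (q ^ (b - 1)) ^ (1 / (k : ℝ)) :=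
      Real.mul_rpow (by positivity) (by positivity)
    have h4 : (q ^ (b - 1)) ^ (1 / (k : ℝ)) = (x : ℝ) ^ (-((1 - b) / (2 * k))) := by
      rw [hq, ← Real.rpow_mul hx0.le, ← Real.rpow_mul hx0.le]
      congr 1
      field_simp
      ring
    have h5 : (x : ℝ) ^ (-((1 - b) / (2 * k))) ≤ (x : ℝ) ^ (-κ) :=
      Real.rpow_le_rpow_of_exponent_le hx1' (by linarith)
    rw [h3, h4] at h2
    have h6 : 0 ≤ (2 * c2) ^ (1 / (k : ℝ)) := by positivity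
    calc 2 * (2 * (θ * hi)) ^ (1 / (k : ℝ)) ≤ 2 * ((2 * c2) ^ (1 / (k : ℝ)) * (x : ℝ) ^ (-((1 - b) / (2 * k)))) := by linarith
      _ ≤ 2 * ((2 * c2) ^ (1 / (k : ℝ)) * (x : ℝ) ^ (-κ)) := by gcongr
      _ = _ := by ring
  have B4 : 2 ^ (k + 2) * (1 + Real.log x) ^ k * (hi / lo) / x ≤ 2 ^ (k + 3) * (c2 / c1) * (x : ℝ) ^ (-κ) := by
    have h1 : hi / lo ≤ 2 * (c2 / c1) * q := by
      rw [div_le_iff₀ hlo0]
      have h2 : (Y : ℝ) ^ (b - 1) ≤ q * (x : ℝ) ^ (b - 1) := by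
        refine hYb.trans ?_
        rw [hq, ← Real.rpow_mul hx0.le, ← Real.rpow_add hx0]
        apply Real.rpow_le_rpow_of_exponent_le hx1'
        linarith
      rw [hhi']
      calc c2 * (Y : ℝ) ^ (b - 1) ≤ c2 * (q * (x : ℝ) ^ (b - 1)) := mul_le_mul_of_nonneg_left h2 hc2.le
        _ = 2 * (c2 / c1) * q * (c1 / 2 * (x : ℝ) ^ (b - 1)) := by
            field_simp
        _ ≤ _ := mul_le_mul_of_nonneg_left hlo2 (by positivity)
    have h3 : (x : ℝ) ^ (1 / 4 : ℝ) * q / x ≤ (x : ℝ) ^ (-κ) := by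
      have : (x : ℝ) ^ (1 / 4 : ℝ) * q / x = (x : ℝ) ^ (-(1 / 4) : ℝ) := by
        rw [hq, div_eq_mul_inv, ← Real.rpow_neg_one, ← Real.rpow_add hx0, ← Real.rpow_add hx0]
        norm_num
      rw [this]
      apply Real.rpow_le_rpow_of_exponent_le hx1'
      linarith
    calc 2 ^ (k + 2) * (1 + Real.log x) ^ k * (hi / lo) / x
        ≤ 2 ^ (k + 2) * (x : ℝ) ^ (1 / 4 : ℝ) * (2 * (c2 / c1) * q) / x := by gcongr
      _ = 2 ^ (k + 3) * (c2 / c1) * ((x : ℝ) ^ (1 / 4 : ℝ) * q / x) := by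
          rw [show k + 3 = k + 2 + 1 by ring, pow_succ]
          ring
      _ ≤ _ := mul_le_mul_of_nonneg_left h3 (by positivity)
  obtain ⟨V, hV⟩ : ∃ V : ℝ, V = (1 + Real.log x) ^ k / (θ * (x : ℝ) ^ (k + b)) := ⟨_, rfl⟩
  have hV0 : 0 ≤ V := by rw [hV]; positivity
  rw [← hV] at B2 ⊢
  have hTb : (‖T‖ / x) ^ (2 ^ k) ≤ D1 * (V + (x : ℝ) ^ (-κ)) := by
    refine hmain.trans ?_
    have h1 : 1 / (H : ℝ) + 2 / (θ * lo) / x * ((1 + Real.log H) / H) ^ k ≤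
        (4 / c1 + 1 + 2 * (2 * c2) ^ (1 / (k : ℝ)) + 2 ^ (k + 3) * (c2 / c1)) * (V + (x : ℝ) ^ (-κ)) := by
      have g1 : 0 ≤ 4 / c1 := by positivity
      have g2 : 0 ≤ 2 * (2 * c2) ^ (1 / (k : ℝ)) := by positivity
      have g3 : 0 ≤ 2 ^ (k + 3) * (c2 / c1) := by positivity
      have k1 := mul_nonneg g1 hxκ.le
      have k2 := mul_nonneg g2 hV0
      have k3 := mul_nonneg g3 hV0
      nlinarith
    rw [hD1, mul_assoc]
    exact mul_le_mul_of_nonneg_left h1 hCq.le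
  -- the conclusion
  have h2k : 1 ≤ 2 ^ k := Nat.one_le_two_pow
  have hfin : (‖Sx x (fun m => φ 0 m) θ‖ / x) ^ (2 ^ k) ≤ (q / x + ‖T‖ / x) ^ (2 ^ k) := by
    apply pow_le_pow_left₀ (by positivity)
    rw [← add_div]
    exact div_le_div_of_nonneg_right hsplit hx0.le
  refine hfin.trans ?_
  have h3 := add_pow_le (show 0 ≤ q / x by positivity) (show 0 ≤ ‖T‖ / x by positivity) (2 ^ k)
  refine h3.trans ?_
  have h4 : (q / x) ^ (2 ^ k) ≤ (x : ℝ) ^ (-κ) := by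
    have h5 : q / x = 1 / q := by
      rw [div_eq_div_iff hx0.ne' hq0.ne', one_mul, hqq]
    have h6 : q / x ≤ 1 := by
      rw [h5, div_le_one hq0]
      exact hq1
    have h7 : 2 ≤ 2 ^ k := by
      calc 2 = 2 ^ 1 := by norm_num
        _ ≤ 2 ^ k := Nat.pow_le_pow_right (by norm_num) hk
    calc (q / x) ^ (2 ^ k) ≤ (q / x) ^ 2 := pow_le_pow_of_le_one (by positivity) h6 h7
      _ = 1 / x := by rw [h5, div_pow, one_pow, sq, hqq]
      _ ≤ _ := B1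
  have h5 : (2 : ℝ) ^ (2 ^ k - 1) ≤ 2 ^ (2 ^ k) := pow_le_pow_right₀ (by norm_num) (by omega)
  calc 2 ^ (2 ^ k - 1) * ((q / x) ^ 2 ^ k + (‖T‖ / x) ^ 2 ^ k)
      ≤ 2 ^ (2 ^ k) * ((x : ℝ) ^ (-κ) + D1 * (V + (x : ℝ) ^ (-κ))) := by
        apply mul_le_mul h5 (add_le_add h4 hTb) (by positivity) (by positivity)
    _ ≤ 2 ^ (2 ^ k) * (1 + D1) * (V + (x : ℝ) ^ (-κ)) := by
        rw [mul_assoc]
        apply mul_le_mul_of_nonneg_left _ (by positivity)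
        nlinarith

end Pool.Agent.Q56.WL
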