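import Pool.Agent.Q56.WL.Mom
import Pool.Agent.Q235.FD.Gen

set_option autoImplicit false

/-! The general law for sums of local functions over primes, at the integer points near real vectors. -/

namespace Pool.Agent.Q56.WL
open Finset Filter
open Pool.Agent.TH894.NE (box mem_box card_box Per mean mean_mono mean_const mean_add mean_mul mean_abs_le)
open Pool.Agent.TH894.ND (ee ee_add ee_norm ee_int ee_zero ee_sum)
open Pool.Agent.Q235.FD (Data Law avg avg_equiv)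

theorem bad_one {d : ℕ} (j : ℕ) {τ : Type*} (T : Finset τ) (R : τ → Fin d → ℝ) (w : ℝ)
    (hw : 1 ≤ w) (z : ℕ) (hz : 1 ≤ z)
    (hexp : Ex T R ((z : ℝ) ^ (2 * j)) (1 / (z : ℝ) ^ (4 * j * d)))
    {ι : Type*} (I : Finset ι) (q : ι → ℕ) (hq : ∀ a ∈ I, 1 ≤ q a ∧ q a ≤ z)
    (hcop : ∀ a ∈ I, ∀ a' ∈ I, a ≠ a' → Nat.Coprime (q a) (q a')) (G : ι → (Fin d → ℕ) → ℝ)
    (hG : ∀ a ∈ I, Per (q a) (G a)) (hG1 : ∀ a ∈ I, ∀ n, |G a n| ≤ 1)
    (S : Finset (τ × (Fin d → ℕ))) (hS : ∀ s ∈ S, s.1 ∈ T ∧ ∀ l, |(s.2 l : ℝ) - R s.1 l| ≤ w) (c : ℝ) (hc : 0 ≤ c)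
    (hbad : ∀ s ∈ S, Real.sqrt (max 1 (∑ a ∈ I, mean d (q a) (fun n => G a n ^ 2))) * (2 * c) <
      |∑ a ∈ I, G a s.2 - ∑ a ∈ I, mean d (q a) (G a)|) :
    (S.card : ℝ) * c ^ (2 * j) ≤ (48 * w) ^ d * (12 * ((2 * j).factorial : ℝ)) * T.card := by
  classical
  obtain ⟨F, hF⟩ : ∃ F : ι → (Fin d → ℕ) → ℝ, F = fun a n => (G a n - mean d (q a) (G a)) / 2 := ⟨_, rfl⟩
  obtain ⟨V, hV⟩ : ∃ V, V = max 1 (∑ a ∈ I, mean d (q a) (fun n => G a n ^ 2)) := ⟨_, rfl⟩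
  have hFb : ∀ a ∈ I, ∀ n, |F a n| ≤ 1 := by
    intro a ha n
    rw [hF]
    show |(G a n - mean d (q a) (G a)) / 2| ≤ 1
    have h1 := abs_le.1 (hG1 a ha n)
    have h2 := abs_le.1 (mean_abs_le (hq a ha).1 (G a) (hG1 a ha))
    rw [abs_le]
    constructor <;> linarith [h1.1, h1.2, h2.1, h2.2]
  have hV1 : 1 ≤ V := by rw [hV]; exact le_max_left _ _
  refine bad_pairs j T R w hw z hz hexp I q hq hcop F ?_ V hV1 ?_ S hS c hc ?_
  · intro a ha
    refine ⟨fun n => ?_, hFb a ha, ?_⟩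
    · rw [hF]
      show (G a n - mean d (q a) (G a)) / 2 = (G a (fun i => n i % q a) - mean d (q a) (G a)) / 2
      rw [← hG a ha n]
    · rw [hF]
      show mean d (q a) (fun n => (G a n - mean d (q a) (G a)) / 2) = 0
      have h1 : (fun n : Fin d → ℕ => (G a n - mean d (q a) (G a)) / 2) =
          fun n => (1 / 2 : ℝ) * G a n + (fun _ => -(mean d (q a) (G a)) / 2) n := by
        funext n
        ring
      rw [h1, mean_add (fun n => (1 / 2 : ℝ) * G a n), mean_const d (q a) (hq a ha).1, mean_mul]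
      ring
  · have h1 : ∀ a ∈ I, mean d (q a) (fun n => F a n ^ 2) ≤ mean d (q a) (fun n => G a n ^ 2) := by
      intro a ha
      obtain ⟨M, hM⟩ : ∃ M, M = mean d (q a) (G a) := ⟨_, rfl⟩
      have h2 : (fun n : Fin d → ℕ => F a n ^ 2) = fun n => (1 / 4 : ℝ) * G a n ^ 2 + ((-(M / 2)) * G a n + (fun _ => M ^ 2 / 4) n) := by
        funext n
        rw [hF, hM]
        ring
      have h0 : 0 ≤ mean d (q a) (fun n => G a n ^ 2) := by
        unfold Pool.Agent.TH894.NE.mean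
        exact mul_nonneg (by positivity) (sum_nonneg fun n _ => sq_nonneg _)
      rw [h2, mean_add (fun n => (1 / 4 : ℝ) * G a n ^ 2), mean_add (fun n => (-(M / 2)) * G a n), mean_const d (q a) (hq a ha).1, mean_mul, mean_mul, ← hM]
      nlinarith [sq_nonneg M]
    rw [hV]
    exact (sum_le_sum h1).trans (le_max_right _ _)
  · intro s hs
    have hlt := hbad s hs
    rw [← hV] at hlt
    have hsum : ∑ a ∈ I, G a s.2 - ∑ a ∈ I, mean d (q a) (G a) = 2 * ∑ a ∈ I, F a s.2 := by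
      rw [hF, mul_sum, ← sum_sub_distrib]
      exact sum_congr rfl fun a _ => by ring
    rw [hsum, abs_mul, abs_of_pos (show (0 : ℝ) < 2 by norm_num)] at hlt
    nlinarith

/-- the hypothesis on the exponential sums does not depend on the names of the coordinates -/
lemma Ex.equiv {L : Type*} [Fintype L] {d : ℕ} (e : L ≃ Fin d) {τ : Type*} {T : Finset τ} {R : τ → L → ℝ} {D ε : ℝ}
    (h : Ex T R D ε) : Ex T (fun t i => R t (e.symm i)) D ε := by
  intro θ hθ hne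
  have h1 := h (fun l => θ (e l)) (fun l => hθ (e l)) (by
    obtain ⟨i, hi⟩ := hne
    exact ⟨e.symm i, by rw [Equiv.apply_symm_apply]; exact hi⟩)
  have h2 : ∀ t, ∑ i, θ i * R t (e.symm i) = ∑ l, θ (e l) * R t l := by
    intro t
    rw [← Equiv.sum_comp e (fun i => θ i * R t (e.symm i))]
    exact sum_congr rfl fun l _ => by rw [Equiv.symm_apply_apply]
  simp only [h2]
  exact h1

theorem gen (L : Type) [Fintype L] (δ : ℝ) (hδ : 0 < δ) (A B A₂ : ℕ) : ∃ j : ℕ, ∃ y₀ : ℕ,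
    ∀ (D : Data L A₂) {τ : Type} (T : Finset τ) (R : τ → L → ℝ) (y Z : ℕ), y₀ ≤ y →
    Ex T R ((Z : ℝ) ^ (2 * j)) (1 / (Z : ℝ) ^ (4 * j * Fintype.card L)) → ∀ E : Finset τ, E ⊆ T →
    (∀ t ∈ E, ∃ n : L → ℕ, (∀ l, |(n l : ℝ) - R t l| ≤ (y : ℝ) ^ B) ∧ ∃ z : ℕ, y ≤ z ∧ z ≤ Z ∧ ¬ Law δ D z n) →
    (E.card : ℝ) * (y : ℝ) ^ A ≤ T.card := by
  classical
  obtain ⟨d, hd⟩ : ∃ d, d = Fintype.card L := ⟨_, rfl⟩
  obtain ⟨e⟩ : Nonempty (L ≃ Fin d) := by rw [hd]; exact ⟨Fintype.equivFin L⟩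
  obtain ⟨a, ha⟩ : ∃ a : ℕ, a = B * d + A + A₂ + 3 := ⟨_, rfl⟩
  obtain ⟨j, hj⟩ : ∃ j : ℕ, j = ⌈(a : ℝ) / δ⌉₊ := ⟨_, rfl⟩
  have hja : (a : ℝ) ≤ δ * (2 * j : ℕ) := by
    have h1 : (a : ℝ) / δ ≤ j := by rw [hj]; exact Nat.le_ceil _
    rw [div_le_iff₀ hδ] at h1
    have h2 : (0 : ℝ) ≤ δ * j := by positivity
    push_cast
    linarith
  obtain ⟨K, hK⟩ : ∃ K : ℝ, K = 48 ^ d * (12 * ((2 * j).factorial : ℝ)) * 2 ^ (2 * j) := ⟨_, rfl⟩
  have hK0 : 0 < K := by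
    rw [hK]
    have : (0 : ℝ) < ((2 * j).factorial : ℝ) := by exact_mod_cast Nat.factorial_pos _
    positivity
  obtain ⟨y₁, hy₁⟩ := exists_nat_ge K
  refine ⟨j, y₁ + 2, fun D τ T R y Z hy hexp E hET hE => ?_⟩
  have hy1 : (1 : ℝ) ≤ y := by exact_mod_cast (by omega : 1 ≤ y)
  have hTc : (0 : ℝ) ≤ T.card := Nat.cast_nonneg _
  rw [← hd] at hexp
  -- one parameter
  obtain ⟨Bd, hBd⟩ : ∃ Bd : (z : ℕ) → D.κ → Finset τ, Bd = fun z l => E.filter (fun t => ∃ n : L → ℕ,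
      (∀ l, |(n l : ℝ) - R t l| ≤ (y : ℝ) ^ B) ∧
      Real.sqrt (max 1 (∑ p ∈ D.P z l, avg p (fun n => D.G z l p n ^ 2))) * (z : ℝ) ^ δ <
        |∑ p ∈ D.P z l, D.G z l p n - ∑ p ∈ D.P z l, avg p (D.G z l p)|) := ⟨_, rfl⟩
  have hone : ∀ z : ℕ, y ≤ z → z ≤ Z → ∀ l ∈ D.Λ z, ((Bd z l).card : ℝ) * (z : ℝ) ^ (A + A₂ + 2) ≤ T.card := by
    intro z hyz hzZ l hl
    have hz2 : 2 ≤ z := by omega
    have hz1r : (1 : ℝ) ≤ z := by exact_mod_cast (by omega : 1 ≤ z)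
    have hz0 : (0 : ℝ) < z := by linarith
    have hzZr : (z : ℝ) ≤ Z := by exact_mod_cast hzZ
    have hch : ∀ t ∈ Bd z l, ∃ n : L → ℕ, (∀ l, |(n l : ℝ) - R t l| ≤ (y : ℝ) ^ B) ∧
      Real.sqrt (max 1 (∑ p ∈ D.P z l, avg p (fun n => D.G z l p n ^ 2))) * (z : ℝ) ^ δ <
        |∑ p ∈ D.P z l, D.G z l p n - ∑ p ∈ D.P z l, avg p (D.G z l p)| := by
      intro t ht
      rw [hBd, mem_filter] at ht
      exact ht.2
    choose! n hn1 hn2 using hch
    obtain ⟨S, hS⟩ : ∃ S : Finset (τ × (Fin d → ℕ)), S = (Bd z l).image (fun t => (t, fun i => n t (e.symm i))) := ⟨_, rfl⟩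
    have hcard : S.card = (Bd z l).card := by
      rw [hS]
      apply card_image_of_injOn
      intro t _ t' _ h
      exact (Prod.mk.inj h).1
    have hw1 : (1 : ℝ) ≤ (y : ℝ) ^ B := one_le_pow₀ hy1
    have hexp' : Ex T (fun t i => R t (e.symm i)) ((z : ℝ) ^ (2 * j)) (1 / (z : ℝ) ^ (4 * j * d)) := by
      refine (hexp.equiv e).mono (by positivity) ?_ ?_
      · exact pow_le_pow_left₀ hz0.le hzZr _
      · exact one_div_le_one_div_of_le (by positivity) (pow_le_pow_left₀ hz0.le hzZr _)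
    have hmain := bad_one j T (fun t i => R t (e.symm i)) ((y : ℝ) ^ B) hw1 z (by omega) hexp' (D.P z l) (fun p => p)
      (fun p hp => ⟨(D.prime z l p hp).1.one_lt.le, (D.prime z l p hp).2⟩)
      (fun p hp p' hp' hne => (Nat.coprime_primes (D.prime z l p hp).1 (D.prime z l p' hp').1).2 hne)
      (fun p n => D.G z l p (fun i => n (e i))) (fun p hp n => D.per z l p _ hp) (fun p hp n => D.bound z l p _ hp) S (by
        intro s hs
        rw [hS, mem_image] at hs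
        obtain ⟨t, ht, rfl⟩ := hs
        refine ⟨?_, fun i => hn1 t ht (e.symm i)⟩
        have ht' := ht
        rw [hBd, mem_filter] at ht'
        exact hET ht'.1) ((z : ℝ) ^ δ / 2) (by positivity) (by
        intro s hs
        rw [hS, mem_image] at hs
        obtain ⟨t, ht, rfl⟩ := hs
        have h1 := hn2 t ht
        have e1 : ∀ i : L, e.symm (e i) = i := fun i => e.symm_apply_apply i
        have e2 : ∀ p, mean d p (fun n => (D.G z l p (fun i => n (e i))) ^ 2) = avg p (fun n => D.G z l p n ^ 2) :=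
          fun p => avg_equiv e p (fun n => D.G z l p n ^ 2)
        have e3 : ∀ p, mean d p (fun n => D.G z l p (fun i => n (e i))) = avg p (D.G z l p) :=
          fun p => avg_equiv e p (D.G z l p)
        simp only [e1, e2, e3]
        rw [mul_div_cancel₀ _ (two_ne_zero)]
        exact h1)
    rw [hcard] at hmain
    have h1 : (z : ℝ) ^ a ≤ ((z : ℝ) ^ δ) ^ (2 * j) := by
      rw [← Real.rpow_natCast ((z : ℝ) ^ δ), ← Real.rpow_mul hz0.le, ← Real.rpow_natCast (z : ℝ) a]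
      exact Real.rpow_le_rpow_of_exponent_le hz1r hja
    have h2 : ((y : ℝ) ^ B) ^ d ≤ (z : ℝ) ^ (B * d) := by
      rw [← pow_mul]
      apply pow_le_pow_left₀ (by positivity)
      exact_mod_cast hyz
    have hKz : K ≤ z := by
      refine hy₁.trans ?_
      exact_mod_cast (by omega : y₁ ≤ z)
    have hb0 : (0 : ℝ) ≤ ((Bd z l).card : ℝ) := Nat.cast_nonneg _
    have h3 : ((Bd z l).card : ℝ) * (z : ℝ) ^ a ≤ K * (z : ℝ) ^ (B * d) * T.card := by
      rw [div_pow, mul_pow] at hmain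
      calc ((Bd z l).card : ℝ) * (z : ℝ) ^ a ≤ ((Bd z l).card : ℝ) * ((z : ℝ) ^ δ) ^ (2 * j) := mul_le_mul_of_nonneg_left h1 hb0
        _ = (((Bd z l).card : ℝ) * (((z : ℝ) ^ δ) ^ (2 * j) / 2 ^ (2 * j))) * 2 ^ (2 * j) := by field_simp
        _ ≤ (48 ^ d * ((y : ℝ) ^ B) ^ d * (12 * ((2 * j).factorial : ℝ)) * T.card) * 2 ^ (2 * j) :=
            mul_le_mul_of_nonneg_right hmain (by positivity)
        _ = (K * ((y : ℝ) ^ B) ^ d) * T.card := by rw [hK]; ring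
        _ ≤ _ := by
            apply mul_le_mul_of_nonneg_right _ hTc
            exact mul_le_mul_of_nonneg_left h2 hK0.le
    have h4 : (z : ℝ) ^ a = (z : ℝ) ^ (A + A₂ + 2) * (z * (z : ℝ) ^ (B * d)) := by
      rw [ha, ← pow_succ', ← pow_add]
      congr 1
      ring
    have hzB : 0 < (z : ℝ) * (z : ℝ) ^ (B * d) := by positivity
    have h5 : (((Bd z l).card : ℝ) * (z : ℝ) ^ (A + A₂ + 2)) * (z * (z : ℝ) ^ (B * d)) ≤ T.card * (z * (z : ℝ) ^ (B * d)) := by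
      calc (((Bd z l).card : ℝ) * (z : ℝ) ^ (A + A₂ + 2)) * (z * (z : ℝ) ^ (B * d)) = ((Bd z l).card : ℝ) * (z : ℝ) ^ a := by
            rw [h4]
            ring
        _ ≤ K * (z : ℝ) ^ (B * d) * T.card := h3
        _ ≤ z * (z : ℝ) ^ (B * d) * T.card := by gcongr
        _ = _ := by ring
    exact le_of_mul_le_mul_right h5 hzB
  -- the union
  have hcov : E ⊆ (Ioo (y - 1) (Z + 1)).biUnion (fun z => (D.Λ z).biUnion (fun l => Bd z l)) := by
    intro t ht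
    obtain ⟨n, hn, z, hyz, hzZ, hlaw⟩ := hE t ht
    unfold Pool.Agent.Q235.FD.Law at hlaw
    push Not at hlaw
    obtain ⟨l, hl, hlt⟩ := hlaw
    rw [mem_biUnion]
    refine ⟨z, mem_Ioo.2 ⟨by omega, by omega⟩, ?_⟩
    rw [mem_biUnion]
    refine ⟨l, hl, ?_⟩
    rw [hBd, mem_filter]
    exact ⟨ht, n, hn, hlt⟩
  have hyA : (0 : ℝ) < (y : ℝ) ^ A := by positivity
  have h1 : (E.card : ℝ) ≤ ∑ z ∈ Ioo (y - 1) (Z + 1), ((z : ℝ) ^ 2)⁻¹ * (T.card / (y : ℝ) ^ A) := by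
    have h2 := (card_le_card hcov).trans (card_biUnion_le.trans (sum_le_sum fun z _ => card_biUnion_le))
    have h3 : (E.card : ℝ) ≤ ∑ z ∈ Ioo (y - 1) (Z + 1), ∑ l ∈ D.Λ z, ((Bd z l).card : ℝ) := by
      exact_mod_cast h2
    refine h3.trans (sum_le_sum fun z hz => ?_)
    rw [mem_Ioo] at hz
    have hyz : y ≤ z := by omega
    have hz0 : (0 : ℝ) < z := by exact_mod_cast (by omega : 0 < z)
    have h4 : ∀ l ∈ D.Λ z, ((Bd z l).card : ℝ) ≤ T.card / (z : ℝ) ^ (A + A₂ + 2) := by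
      intro l hl
      rw [le_div_iff₀ (by positivity)]
      exact hone z hyz (by omega) l hl
    refine (sum_le_sum h4).trans ?_
    rw [sum_const, nsmul_eq_mul]
    have h5 : ((D.Λ z).card : ℝ) ≤ (z : ℝ) ^ A₂ := by exact_mod_cast D.card z (by omega)
    calc ((D.Λ z).card : ℝ) * (T.card / (z : ℝ) ^ (A + A₂ + 2)) ≤ (z : ℝ) ^ A₂ * (T.card / (z : ℝ) ^ (A + A₂ + 2)) :=
          mul_le_mul_of_nonneg_right h5 (div_nonneg hTc (by positivity))
      _ = ((z : ℝ) ^ 2)⁻¹ * (T.card / (z : ℝ) ^ A) := by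
          rw [show A + A₂ + 2 = A₂ + 2 + A by ring, pow_add, pow_add]
          field_simp
      _ ≤ _ := by
          apply mul_le_mul_of_nonneg_left _ (by positivity)
          apply div_le_div_of_nonneg_left hTc hyA
          apply pow_le_pow_left₀ (by positivity)
          exact_mod_cast hyz
  have h6 : ∑ z ∈ Ioo (y - 1) (Z + 1), ((z : ℝ) ^ 2)⁻¹ ≤ 1 := by
    have h7 := sum_Ioo_inv_sq_le (α := ℝ) (y - 1) (Z + 1)
    refine h7.trans ?_
    rw [div_le_one (by positivity)]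
    have : (1 : ℝ) ≤ ((y - 1 : ℕ) : ℝ) := by exact_mod_cast (by omega : 1 ≤ y - 1)
    linarith
  rw [← sum_mul] at h1
  have h8 : (E.card : ℝ) ≤ T.card / (y : ℝ) ^ A := by
    refine h1.trans ?_
    calc (∑ z ∈ Ioo (y - 1) (Z + 1), ((z : ℝ) ^ 2)⁻¹) * (T.card / (y : ℝ) ^ A) ≤ 1 * (T.card / (y : ℝ) ^ A) :=
          mul_le_mul_of_nonneg_right h6 (div_nonneg hTc hyA.le)
      _ = _ := one_mul _
  rwa [le_div_iff₀ hyA] at h8

end Pool.Agent.Q56.WL
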