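import Pool.Agent.Q56.WL.Top
import Pool.Agent.Q56.WL.Gen

set_option autoImplicit false

/-! Almost all families of integers near powers with non-integral exponents. -/

namespace Pool.Agent.Q56.WL
open Finset Filter
open Pool.Agent.TH894.ND (ee ee_add ee_norm ee_int ee_zero ee_sum)
open Pool.Agent.Q235.FD (Data Law)

open Classical in
/-- The number of the index vectors `i` in `{1, ..., x} ^ m` for which not all tuples `n` of nonnegative integers with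
`|n l - (β l + w l * i (μ l) ^ e l)| ≤ W` for all `l` have the property `P`. -/
noncomputable def exceptions {L : Type} [Fintype L] {m : ℕ} (x : ℕ) (e w β : L → ℝ) (μ : L → Fin m) (W : ℝ)
    (P : (L → ℕ) → Prop) : ℕ :=
  ((Fintype.piFinset (fun _ : Fin m => Icc 1 x)).filter
    (fun i => ∃ n : L → ℕ, (∀ l, |(n l : ℝ) - (β l + w l * (i (μ l) : ℝ) ^ e l)| ≤ W) ∧ ¬ P n)).card

/-- All exponents `e l` are greater than `1` and not integers, the coefficients `w l` are not zero, and the exponents of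
different coordinates which depend on the same index are different. -/
def Setting {L : Type} {m : ℕ} (e w : L → ℝ) (μ : L → Fin m) : Prop :=
  (∀ l, 1 < e l ∧ ∀ k : ℕ, e l ≠ k) ∧ (∀ l, w l ≠ 0) ∧ ∀ l l', μ l = μ l' → e l = e l' → l = l'

/-- The property `E θ z` holds, for all `z` in the range `y ≤ z ≤ x ^ c`, for ALL tuples of integers in the windows of
length `y ^ B` around the points `(β l + w l * i (μ l) ^ e l)_l`, for all index vectors `i ∈ {1, ..., x} ^ m` up to a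
proportion of at most `1 / y ^ A`. -/
def ForAlmostAll {L : Type} [Fintype L] {m : ℕ} (e w : L → ℝ) (μ : L → Fin m) (A B : ℕ) {Θ : Type}
    (E : Θ → ℕ → (L → ℕ) → Prop) : Prop :=
  ∃ c : ℝ, 0 < c ∧ ∃ y₀ : ℕ, ∀ (θ : Θ) (β : L → ℝ) (x y : ℕ), y₀ ≤ y →
    (exceptions x e w β μ ((y : ℝ) ^ B) (fun n => ∀ z : ℕ, y ≤ z → (z : ℝ) ≤ (x : ℝ) ^ c → E θ z n) : ℝ) ≤
      1 / (y : ℝ) ^ A * (x : ℝ) ^ m

variable {L : Type} [Fintype L] {m : ℕ}

lemma exceptions_mono {x : ℕ} {e w β : L → ℝ} {μ : L → Fin m} {W : ℝ} {E E' : (L → ℕ) → Prop} (h : ∀ n, E' n → E n) :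
    exceptions x e w β μ W E ≤ exceptions x e w β μ W E' := by
  classical
  unfold exceptions
  apply card_le_card
  intro i hi
  rw [mem_filter] at hi ⊢
  obtain ⟨h1, n, h2, h3⟩ := hi
  exact ⟨h1, n, h2, fun h' => h3 (h _ h')⟩

/-- the exponential sums -/
lemma ex_fam (e w : L → ℝ) (μ : L → Fin m) (hs : Setting e w μ) : ∃ η : ℝ, 0 < η ∧ ∃ x₀ : ℕ, ∀ x : ℕ, x₀ ≤ x →
    ∀ β : L → ℝ, Ex (Fintype.piFinset (fun _ : Fin m => Icc 1 x)) (fun i l => β l + w l * (i (μ l) : ℝ) ^ e l)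
      ((x : ℝ) ^ η) ((x : ℝ) ^ (-η)) := by
  classical
  obtain ⟨h1, h2, h3⟩ := hs
  have hsing := fun a : Fin m => single (univ.filter (fun l => μ l = a)) e w (fun l _ => h1 l) (fun l _ => h2 l)
    (fun l hl l' hl' h => h3 l l' (by rw [(mem_filter.1 hl).2, (mem_filter.1 hl').2]) h)
  choose η hη x₀ hx₀ using hsing
  obtain ⟨g, hg, hgl⟩ := gap (univ : Finset (Fin m)) η
  refine ⟨g, hg, ∑ a, x₀ a + 1, fun x hx β => ?_⟩
  have hx1 : (1 : ℝ) ≤ x := by exact_mod_cast (by omega : 1 ≤ x)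
  have hx0 : (0 : ℝ) < x := by linarith
  intro θ hθ hne
  obtain ⟨l1, hl1⟩ := hne
  have hxa : ∀ a, x₀ a ≤ x := by
    intro a
    have := single_le_sum (f := x₀) (fun _ _ => Nat.zero_le _) (mem_univ a)
    omega
  have hcard : ((Fintype.piFinset (fun _ : Fin m => Icc 1 x)).card : ℝ) = (x : ℝ) ^ m := by
    rw [Fintype.card_piFinset_const, Nat.card_Icc]
    simp
  have hprod : ∑ i ∈ Fintype.piFinset (fun _ : Fin m => Icc 1 x), ee (∑ l, θ l * (β l + w l * (i (μ l) : ℝ) ^ e l)) =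
      ∏ a : Fin m, ∑ i ∈ Icc 1 x, ee (∑ l ∈ univ.filter (fun l => μ l = a), θ l * (β l + w l * (i : ℝ) ^ e l)) := by
    rw [Finset.prod_univ_sum]
    refine sum_congr rfl fun i _ => ?_
    rw [← ee_sum]
    congr 1
    rw [← Finset.sum_fiberwise univ μ]
    refine sum_congr rfl fun a _ => sum_congr rfl fun l hl => ?_
    rw [(mem_filter.1 hl).2]
  rw [hprod, norm_prod, hcard, ← mul_prod_erase univ _ (mem_univ (μ l1))]
  have hfac : ∀ a : Fin m, ‖∑ i ∈ Icc 1 x, ee (∑ l ∈ univ.filter (fun l => μ l = a), θ l * (β l + w l * (i : ℝ) ^ e l))‖ ≤ x := by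
    intro a
    refine (norm_sum_le _ _).trans ?_
    simp only [ee_norm, sum_const, Nat.card_Icc, nsmul_eq_mul, mul_one]
    simp
  have hmain : ‖∑ i ∈ Icc 1 x, ee (∑ l ∈ univ.filter (fun l => μ l = μ l1), θ l * (β l + w l * (i : ℝ) ^ e l))‖ ≤
      (x : ℝ) ^ (-g) * x := by
    refine (hx₀ (μ l1) x (hxa _) θ β (fun l _ => ?_) ⟨l1, mem_filter.2 ⟨mem_univ _, rfl⟩, hl1⟩).trans ?_
    · rcases hθ l with h | h
      · exact Or.inl h
      · refine Or.inr ⟨le_trans ?_ h.1, h.2⟩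
        rw [one_div, ← Real.rpow_neg hx0.le]
        exact Real.rpow_le_rpow_of_exponent_le hx1 (neg_le_neg (hgl _ (mem_univ _) (hη _)))
    · rw [← Real.rpow_add_one hx0.ne']
      apply Real.rpow_le_rpow_of_exponent_le hx1
      have := hgl _ (mem_univ (μ l1)) (hη _)
      linarith
  have hrest : ∏ a ∈ univ.erase (μ l1), ‖∑ i ∈ Icc 1 x, ee (∑ l ∈ univ.filter (fun l => μ l = a),
      θ l * (β l + w l * (i : ℝ) ^ e l))‖ ≤ (x : ℝ) ^ (m - 1) := by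
    calc _ ≤ ∏ _a ∈ univ.erase (μ l1), (x : ℝ) := prod_le_prod (fun _ _ => norm_nonneg _) (fun a _ => hfac a)
      _ = (x : ℝ) ^ (m - 1) := by rw [prod_const, card_erase_of_mem (mem_univ _), card_univ, Fintype.card_fin]
  calc _ ≤ ((x : ℝ) ^ (-g) * x) * (x : ℝ) ^ (m - 1) :=
        mul_le_mul hmain hrest (prod_nonneg fun _ _ => norm_nonneg _) (by positivity)
    _ = (x : ℝ) ^ (-g) * (x : ℝ) ^ m := by
        rw [mul_assoc, ← pow_succ']
        congr 2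
        have : 0 < m := by
          have := (μ l1).isLt
          omega
        omega

/-- **the general theorem** -/
theorem forAlmostAll_of {e w : L → ℝ} {μ : L → Fin m} (hs : Setting e w μ) {δ : ℝ} (hδ : 0 < δ) (A B : ℕ) {A₂ : ℕ} {Θ : Type}
    (D : Θ → Data L A₂) {E : Θ → ℕ → (L → ℕ) → Prop} (y₁ : ℕ)
    (h : ∀ θ z n, y₁ ≤ z → Law δ (D θ) z n → E θ z n) : ForAlmostAll e w μ A B E := by
  classical
  obtain ⟨j, y₀, hgen⟩ := gen L δ hδ A B A₂
  obtain ⟨η, hη, x₀, hex⟩ := ex_fam e w μ hs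
  obtain ⟨M, hM⟩ : ∃ M : ℕ, M = 2 * j + 4 * j * Fintype.card L + 1 := ⟨_, rfl⟩
  have hM0 : (0 : ℝ) < M := by rw [hM]; positivity
  obtain ⟨c, hc⟩ : ∃ c : ℝ, c = min 1 (η / M) := ⟨_, rfl⟩
  have hc0 : 0 < c := by rw [hc]; exact lt_min one_pos (by positivity)
  have hc1 : c ≤ 1 := by rw [hc]; exact min_le_left _ _
  have hcM : c * M ≤ η := by
    rw [← le_div_iff₀ hM0, hc]
    exact min_le_right _ _
  refine ⟨c, hc0, y₀ + y₁ + x₀ + 2, fun θ β x y hy => ?_⟩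
  have hy1 : (1 : ℝ) ≤ y := by exact_mod_cast (by omega : 1 ≤ y)
  have hyA : (0 : ℝ) < (y : ℝ) ^ A := by positivity
  have hxm : (0 : ℝ) ≤ (x : ℝ) ^ m := by positivity
  obtain ⟨Bd, hBd⟩ : ∃ Bd : Finset (Fin m → ℕ), Bd = (Fintype.piFinset (fun _ : Fin m => Icc 1 x)).filter
    (fun i => ∃ n : L → ℕ, (∀ l, |(n l : ℝ) - (β l + w l * (i (μ l) : ℝ) ^ e l)| ≤ (y : ℝ) ^ B) ∧
      ¬ (∀ z : ℕ, y ≤ z → (z : ℝ) ≤ (x : ℝ) ^ c → E θ z n)) := ⟨_, rfl⟩
  have hexc : (exceptions x e w β μ ((y : ℝ) ^ B) (fun n => ∀ z : ℕ, y ≤ z → (z : ℝ) ≤ (x : ℝ) ^ c → E θ z n) : ℝ) = (Bd.card : ℝ) := by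
    rw [hBd]
    rfl
  rw [hexc]
  rcases Finset.eq_empty_or_nonempty Bd with h0 | h0
  · rw [h0, card_empty, Nat.cast_zero]
    positivity
  -- then x is large
  obtain ⟨i0, hi0⟩ := h0
  have hi0' := hi0
  rw [hBd, mem_filter] at hi0'
  obtain ⟨_, n0, _, hn0⟩ := hi0'
  push Not at hn0
  obtain ⟨z0, hyz0, hz0x, _⟩ := hn0
  have hx1 : 1 ≤ x := by
    by_contra hcon
    have hx00 : x = 0 := by omega
    rw [hx00, Nat.cast_zero, Real.zero_rpow hc0.ne'] at hz0x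
    have : (1 : ℝ) ≤ z0 := by exact_mod_cast (by omega : 1 ≤ z0)
    linarith
  have hx1r : (1 : ℝ) ≤ x := by exact_mod_cast hx1
  have hx0 : (0 : ℝ) < x := by linarith
  have hyx : y ≤ x := by
    have h1 : (z0 : ℝ) ≤ x := by
      refine hz0x.trans ?_
      calc (x : ℝ) ^ c ≤ (x : ℝ) ^ (1 : ℝ) := Real.rpow_le_rpow_of_exponent_le hx1r hc1
        _ = x := Real.rpow_one _
    have h2 : z0 ≤ x := by exact_mod_cast h1
    omega
  obtain ⟨Z, hZ⟩ : ∃ Z : ℕ, Z = ⌊(x : ℝ) ^ c⌋₊ := ⟨_, rfl⟩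
  have hZ1 : 1 ≤ Z := by
    rw [hZ]
    apply Nat.le_floor
    rw [Nat.cast_one]
    exact Real.one_le_rpow hx1r hc0.le
  have hZr : (Z : ℝ) ≤ (x : ℝ) ^ c := by rw [hZ]; exact Nat.floor_le (by positivity)
  have hZ1r : (1 : ℝ) ≤ Z := by exact_mod_cast hZ1
  have hpow : ∀ k : ℕ, k ≤ M → (Z : ℝ) ^ k ≤ (x : ℝ) ^ η := by
    intro k hk
    calc (Z : ℝ) ^ k ≤ (Z : ℝ) ^ M := pow_le_pow_right₀ hZ1r hk
      _ ≤ ((x : ℝ) ^ c) ^ M := pow_le_pow_left₀ (by linarith) hZr _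
      _ = (x : ℝ) ^ (c * M) := by rw [← Real.rpow_natCast, ← Real.rpow_mul hx0.le]
      _ ≤ _ := Real.rpow_le_rpow_of_exponent_le hx1r hcM
  have hEx := (hex x (by omega) β).mono (D' := (Z : ℝ) ^ (2 * j)) (ε' := 1 / (Z : ℝ) ^ (4 * j * Fintype.card L))
    (by positivity) (hpow _ (by omega)) (by
      rw [Real.rpow_neg hx0.le, ← one_div]
      apply one_div_le_one_div_of_le (by positivity)
      exact hpow _ (by omega))
  have hcard : ((Fintype.piFinset (fun _ : Fin m => Icc 1 x)).card : ℝ) = (x : ℝ) ^ m := by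
    rw [Fintype.card_piFinset_const, Nat.card_Icc]
    simp
  have hfin := hgen (D θ) (Fintype.piFinset (fun _ : Fin m => Icc 1 x)) (fun i l => β l + w l * (i (μ l) : ℝ) ^ e l) y Z (by omega)
    hEx Bd (by rw [hBd]; exact filter_subset _ _) (by
      intro i hi
      rw [hBd, mem_filter] at hi
      obtain ⟨_, n, hn1, hn2⟩ := hi
      refine ⟨n, hn1, ?_⟩
      push Not at hn2
      obtain ⟨z, hyz, hzx, hz⟩ := hn2
      refine ⟨z, hyz, ?_, fun hlaw => hz (h θ z n (by omega) hlaw)⟩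
      rw [hZ]
      exact Nat.le_floor hzx)
  rw [hcard] at hfin
  rw [div_mul_eq_mul_div, one_mul, le_div_iff₀ hyA]
  exact hfin

theorem ForAlmostAll.and {e w : L → ℝ} {μ : L → Fin m} {A B : ℕ} {Θ : Type} {E E' F : Θ → ℕ → (L → ℕ) → Prop}
    (h1 : ForAlmostAll e w μ (A + 1) B E) (h2 : ForAlmostAll e w μ (A + 1) B E')
    (h : ∀ θ x n, E θ x n → E' θ x n → F θ x n) : ForAlmostAll e w μ A B F := by
  classical
  obtain ⟨c, hc, y₀, H⟩ := h1
  obtain ⟨c', hc', y₀', H'⟩ := h2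
  refine ⟨min c c', lt_min hc hc', y₀ + y₀' + 2, fun θ β x y hy => ?_⟩
  have hy2 : (2 : ℝ) ≤ y := by exact_mod_cast (by omega : 2 ≤ y)
  have hy0 : (0 : ℝ) < y := by linarith
  have g1 := H θ β x y (by omega)
  have g2 := H' θ β x y (by omega)
  obtain ⟨C, hC⟩ : ∃ C : ℝ, C = (x : ℝ) ^ m := ⟨_, rfl⟩
  have hC0 : 0 ≤ C := by rw [hC]; positivity
  rw [← hC] at g1 g2 ⊢
  have g3 : (exceptions x e w β μ ((y : ℝ) ^ B) (fun n => ∀ z : ℕ, y ≤ z → (z : ℝ) ≤ (x : ℝ) ^ (min c c') → F θ z n) : ℝ) ≤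
      (exceptions x e w β μ ((y : ℝ) ^ B) (fun n => ∀ z : ℕ, y ≤ z → (z : ℝ) ≤ (x : ℝ) ^ c → E θ z n) : ℝ) +
      (exceptions x e w β μ ((y : ℝ) ^ B) (fun n => ∀ z : ℕ, y ≤ z → (z : ℝ) ≤ (x : ℝ) ^ c' → E' θ z n) : ℝ) := by
    rcases Nat.eq_zero_or_pos x with hx | hx
    · have hz : exceptions x e w β μ ((y : ℝ) ^ B) (fun n => ∀ z : ℕ, y ≤ z → (z : ℝ) ≤ (x : ℝ) ^ (min c c') → F θ z n) = 0 := by
        unfold exceptions
        rw [card_eq_zero, filter_eq_empty_iff]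
        intro i _ hcon
        obtain ⟨n, _, hn⟩ := hcon
        apply hn
        intro z hyz hzx
        rw [hx, Nat.cast_zero, Real.zero_rpow (lt_min hc hc').ne'] at hzx
        have : (1 : ℝ) ≤ z := by exact_mod_cast (by omega : 1 ≤ z)
        linarith
      rw [hz, Nat.cast_zero]
      positivity
    have hx1 : (1 : ℝ) ≤ x := by exact_mod_cast hx
    have : exceptions x e w β μ ((y : ℝ) ^ B) (fun n => ∀ z : ℕ, y ≤ z → (z : ℝ) ≤ (x : ℝ) ^ (min c c') → F θ z n) ≤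
      exceptions x e w β μ ((y : ℝ) ^ B) (fun n => ∀ z : ℕ, y ≤ z → (z : ℝ) ≤ (x : ℝ) ^ c → E θ z n) +
      exceptions x e w β μ ((y : ℝ) ^ B) (fun n => ∀ z : ℕ, y ≤ z → (z : ℝ) ≤ (x : ℝ) ^ c' → E' θ z n) := by
      unfold exceptions
      refine le_trans (card_le_card ?_) (card_union_le _ _)
      intro i hi
      rw [mem_filter] at hi
      obtain ⟨hi1, n, hn1, hn2⟩ := hi
      rw [mem_union, mem_filter, mem_filter]
      by_cases h3 : ∀ z : ℕ, y ≤ z → (z : ℝ) ≤ (x : ℝ) ^ c → E θ z n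
      · refine Or.inr ⟨hi1, n, hn1, fun h4 => hn2 fun z hyz hzx => ?_⟩
        refine h θ z n (h3 z hyz (hzx.trans ?_)) (h4 z hyz (hzx.trans ?_))
        · exact Real.rpow_le_rpow_of_exponent_le hx1 (min_le_left _ _)
        · exact Real.rpow_le_rpow_of_exponent_le hx1 (min_le_right _ _)
      · exact Or.inl ⟨hi1, n, hn1, h3⟩
    exact_mod_cast this
  refine g3.trans ((add_le_add g1 g2).trans ?_)
  have g4 : 1 / (y : ℝ) ^ (A + 1) + 1 / (y : ℝ) ^ (A + 1) ≤ 1 / (y : ℝ) ^ A := by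
    rw [← add_div, div_le_div_iff₀ (by positivity) (by positivity), pow_succ]
    nlinarith [pow_pos hy0 A]
  calc 1 / (y : ℝ) ^ (A + 1) * C + 1 / (y : ℝ) ^ (A + 1) * C = (1 / (y : ℝ) ^ (A + 1) + 1 / (y : ℝ) ^ (A + 1)) * C := by ring
    _ ≤ _ := mul_le_mul_of_nonneg_right g4 hC0

theorem ForAlmostAll.mono {e w : L → ℝ} {μ : L → Fin m} {A B : ℕ} {Θ : Type} {E F : Θ → ℕ → (L → ℕ) → Prop}
    (h1 : ForAlmostAll e w μ A B E) (y₁ : ℕ) (h : ∀ θ x n, y₁ ≤ x → E θ x n → F θ x n) : ForAlmostAll e w μ A B F := by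
  obtain ⟨c, hc, y₀, H⟩ := h1
  refine ⟨c, hc, y₀ + y₁, fun θ β x y hy => ?_⟩
  refine le_trans (Nat.cast_le.2 (exceptions_mono ?_)) (H θ β x y (by omega))
  exact fun n hn z hz hzx => h θ z n (by omega) (hn z hz hzx)

end Pool.Agent.Q56.WL
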