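import Pool.Agent.Q56.WL.Fam

set_option autoImplicit false

/-! The general law for sums of functions modulo pairwise coprime moduli, at the integer points near powers. -/

namespace Pool.Agent.Q56.WL
open Finset Filter
open Pool.Agent.TH894.NE (box mem_box card_box Per mean mean_mono mean_const mean_add mean_mul mean_abs_le)
open Pool.Agent.TH894.ND (ee ee_add ee_norm ee_int ee_zero ee_sum)
open Pool.Agent.Q235.FD (avg avg_equiv)

/-- The data of the general law: for every `x` a set `Λ x` of parameters, and for every parameter `l` a set `I x l` of indices,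
pairwise coprime moduli `q x l a ≤ x` for the indices `a`, and bounded functions `G x l a` of the tuples of residues. -/
structure GData (L : Type) [Fintype L] (A₂ : ℕ) where
  κ : Type
  Λ : ℕ → Finset κ
  card : ∀ x, 2 ≤ x → (Λ x).card ≤ x ^ A₂
  I : ℕ → κ → Finset ℕ
  q : ℕ → κ → ℕ → ℕ
  pos : ∀ x l a, a ∈ I x l → 1 ≤ q x l a ∧ q x l a ≤ x
  cop : ∀ x l a a', a ∈ I x l → a' ∈ I x l → a ≠ a' → Nat.Coprime (q x l a) (q x l a')
  G : ℕ → κ → ℕ → (L → ℕ) → ℝ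
  per : ∀ x l a n, a ∈ I x l → G x l a n = G x l a (fun i => n i % q x l a)
  bound : ∀ x l a n, a ∈ I x l → |G x l a n| ≤ 1

/-- the general law -/
def GLaw {L : Type} [Fintype L] {A₂ : ℕ} (δ : ℝ) (D : GData L A₂) (x : ℕ) (m : L → ℕ) : Prop :=
  ∀ l ∈ D.Λ x, |∑ p ∈ D.I x l, D.G x l p m - ∑ p ∈ D.I x l, avg (D.q x l p) (D.G x l p)| ≤
    Real.sqrt (max 1 (∑ p ∈ D.I x l, avg (D.q x l p) (fun n => D.G x l p n ^ 2))) * (x : ℝ) ^ δ

theorem ggen (L : Type) [Fintype L] (δ : ℝ) (hδ : 0 < δ) (A B A₂ : ℕ) : ∃ j : ℕ, ∃ y₀ : ℕ,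
    ∀ (D : GData L A₂) {τ : Type} (T : Finset τ) (R : τ → L → ℝ) (y Z : ℕ), y₀ ≤ y →
    Ex T R ((Z : ℝ) ^ (2 * j)) (1 / (Z : ℝ) ^ (4 * j * Fintype.card L)) → ∀ E : Finset τ, E ⊆ T →
    (∀ t ∈ E, ∃ n : L → ℕ, (∀ l, |(n l : ℝ) - R t l| ≤ (y : ℝ) ^ B) ∧ ∃ z : ℕ, y ≤ z ∧ z ≤ Z ∧ ¬ GLaw δ D z n) →
    (E.card : ℝ) * (y : ℝ) ^ A ≤ T.card := by
  classical
  obtain ⟨d, hd⟩ : ∃ d, d = Fintype.card L := ⟨_, rfl⟩
  obtain ⟨e⟩ : Nonempty (L ≃ Fin d) := by rw [hd]; exact ⟨Fintype.equivFin L⟩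
  obtain ⟨a, ha⟩ : ∃ a : ℕ, a = B * d + A + A₂ + 3 := ⟨_, rfl⟩
  obtain ⟨j, hj⟩ : ∃ j : ℕ, j = ⌈(a : ℝ) / δ⌉₊ := ⟨_, rfl⟩
  have hja : (a : ℝ) ≤ δ * (2 * j : ℕ) := by
    have h1 : (a : ℝ) / δ ≤ j := by rw [hj]; exact Nat.le_ceil _
    rw [div_le_iff₀ hδ] at h1
    have h2 : (0 : ℝ) ≤ δ * j := by positivity
    push_cast
    linarith
  obtain ⟨K, hK⟩ : ∃ K : ℝ, K = 48 ^ d * (12 * ((2 * j).factorial : ℝ)) * 2 ^ (2 * j) := ⟨_, rfl⟩
  have hK0 : 0 < K := by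
    rw [hK]
    have : (0 : ℝ) < ((2 * j).factorial : ℝ) := by exact_mod_cast Nat.factorial_pos _
    positivity
  obtain ⟨y₁, hy₁⟩ := exists_nat_ge K
  refine ⟨j, y₁ + 2, fun D τ T R y Z hy hexp E hET hE => ?_⟩
  have hy1 : (1 : ℝ) ≤ y := by exact_mod_cast (by omega : 1 ≤ y)
  have hTc : (0 : ℝ) ≤ T.card := Nat.cast_nonneg _
  rw [← hd] at hexp
  -- one parameter
  obtain ⟨Bd, hBd⟩ : ∃ Bd : (z : ℕ) → D.κ → Finset τ, Bd = fun z l => E.filter (fun t => ∃ n : L → ℕ,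
      (∀ l, |(n l : ℝ) - R t l| ≤ (y : ℝ) ^ B) ∧
      Real.sqrt (max 1 (∑ p ∈ D.I z l, avg (D.q z l p) (fun n => D.G z l p n ^ 2))) * (z : ℝ) ^ δ <
        |∑ p ∈ D.I z l, D.G z l p n - ∑ p ∈ D.I z l, avg (D.q z l p) (D.G z l p)|) := ⟨_, rfl⟩
  have hone : ∀ z : ℕ, y ≤ z → z ≤ Z → ∀ l ∈ D.Λ z, ((Bd z l).card : ℝ) * (z : ℝ) ^ (A + A₂ + 2) ≤ T.card := by
    intro z hyz hzZ l hl
    have hz2 : 2 ≤ z := by omega
    have hz1r : (1 : ℝ) ≤ z := by exact_mod_cast (by omega : 1 ≤ z)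
    have hz0 : (0 : ℝ) < z := by linarith
    have hzZr : (z : ℝ) ≤ Z := by exact_mod_cast hzZ
    have hch : ∀ t ∈ Bd z l, ∃ n : L → ℕ, (∀ l, |(n l : ℝ) - R t l| ≤ (y : ℝ) ^ B) ∧
      Real.sqrt (max 1 (∑ p ∈ D.I z l, avg (D.q z l p) (fun n => D.G z l p n ^ 2))) * (z : ℝ) ^ δ <
        |∑ p ∈ D.I z l, D.G z l p n - ∑ p ∈ D.I z l, avg (D.q z l p) (D.G z l p)| := by
      intro t ht
      rw [hBd, mem_filter] at ht
      exact ht.2
    choose! n hn1 hn2 using hch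
    obtain ⟨S, hS⟩ : ∃ S : Finset (τ × (Fin d → ℕ)), S = (Bd z l).image (fun t => (t, fun i => n t (e.symm i))) := ⟨_, rfl⟩
    have hcard : S.card = (Bd z l).card := by
      rw [hS]
      apply card_image_of_injOn
      intro t _ t' _ h
      exact (Prod.mk.inj h).1
    have hw1 : (1 : ℝ) ≤ (y : ℝ) ^ B := one_le_pow₀ hy1
    have hexp' : Ex T (fun t i => R t (e.symm i)) ((z : ℝ) ^ (2 * j)) (1 / (z : ℝ) ^ (4 * j * d)) := by
      refine (hexp.equiv e).mono (by positivity) ?_ ?_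
      · exact pow_le_pow_left₀ hz0.le hzZr _
      · exact one_div_le_one_div_of_le (by positivity) (pow_le_pow_left₀ hz0.le hzZr _)
    have hmain := bad_one j T (fun t i => R t (e.symm i)) ((y : ℝ) ^ B) hw1 z (by omega) hexp' (D.I z l) (D.q z l)
      (fun p hp => D.pos z l p hp)
      (fun p hp p' hp' hne => D.cop z l p p' hp hp' hne)
      (fun p n => D.G z l p (fun i => n (e i))) (fun p hp n => D.per z l p _ hp) (fun p hp n => D.bound z l p _ hp) S (by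
        intro s hs
        rw [hS, mem_image] at hs
        obtain ⟨t, ht, rfl⟩ := hs
        refine ⟨?_, fun i => hn1 t ht (e.symm i)⟩
        have ht' := ht
        rw [hBd, mem_filter] at ht'
        exact hET ht'.1) ((z : ℝ) ^ δ / 2) (by positivity) (by
        intro s hs
        rw [hS, mem_image] at hs
        obtain ⟨t, ht, rfl⟩ := hs
        have h1 := hn2 t ht
        have e1 : ∀ i : L, e.symm (e i) = i := fun i => e.symm_apply_apply i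
        have e2 : ∀ p, mean d (D.q z l p) (fun n => (D.G z l p (fun i => n (e i))) ^ 2) = avg (D.q z l p) (fun n => D.G z l p n ^ 2) :=
          fun p => avg_equiv e (D.q z l p) (fun n => D.G z l p n ^ 2)
        have e3 : ∀ p, mean d (D.q z l p) (fun n => D.G z l p (fun i => n (e i))) = avg (D.q z l p) (D.G z l p) :=
          fun p => avg_equiv e (D.q z l p) (D.G z l p)
        simp only [e1, e2, e3]
        rw [mul_div_cancel₀ _ (two_ne_zero)]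
        exact h1)
    rw [hcard] at hmain
    have h1 : (z : ℝ) ^ a ≤ ((z : ℝ) ^ δ) ^ (2 * j) := by
      rw [← Real.rpow_natCast ((z : ℝ) ^ δ), ← Real.rpow_mul hz0.le, ← Real.rpow_natCast (z : ℝ) a]
      exact Real.rpow_le_rpow_of_exponent_le hz1r hja
    have h2 : ((y : ℝ) ^ B) ^ d ≤ (z : ℝ) ^ (B * d) := by
      rw [← pow_mul]
      apply pow_le_pow_left₀ (by positivity)
      exact_mod_cast hyz
    have hKz : K ≤ z := by
      refine hy₁.trans ?_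
      exact_mod_cast (by omega : y₁ ≤ z)
    have hb0 : (0 : ℝ) ≤ ((Bd z l).card : ℝ) := Nat.cast_nonneg _
    have h3 : ((Bd z l).card : ℝ) * (z : ℝ) ^ a ≤ K * (z : ℝ) ^ (B * d) * T.card := by
      rw [div_pow, mul_pow] at hmain
      calc ((Bd z l).card : ℝ) * (z : ℝ) ^ a ≤ ((Bd z l).card : ℝ) * ((z : ℝ) ^ δ) ^ (2 * j) := mul_le_mul_of_nonneg_left h1 hb0
        _ = (((Bd z l).card : ℝ) * (((z : ℝ) ^ δ) ^ (2 * j) / 2 ^ (2 * j))) * 2 ^ (2 * j) := by field_simp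
        _ ≤ (48 ^ d * ((y : ℝ) ^ B) ^ d * (12 * ((2 * j).factorial : ℝ)) * T.card) * 2 ^ (2 * j) :=
            mul_le_mul_of_nonneg_right hmain (by positivity)
        _ = (K * ((y : ℝ) ^ B) ^ d) * T.card := by rw [hK]; ring
        _ ≤ _ := by
            apply mul_le_mul_of_nonneg_right _ hTc
            exact mul_le_mul_of_nonneg_left h2 hK0.le
    have h4 : (z : ℝ) ^ a = (z : ℝ) ^ (A + A₂ + 2) * (z * (z : ℝ) ^ (B * d)) := by
      rw [ha, ← pow_succ', ← pow_add]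
      congr 1
      ring
    have hzB : 0 < (z : ℝ) * (z : ℝ) ^ (B * d) := by positivity
    have h5 : (((Bd z l).card : ℝ) * (z : ℝ) ^ (A + A₂ + 2)) * (z * (z : ℝ) ^ (B * d)) ≤ T.card * (z * (z : ℝ) ^ (B * d)) := by
      calc (((Bd z l).card : ℝ) * (z : ℝ) ^ (A + A₂ + 2)) * (z * (z : ℝ) ^ (B * d)) = ((Bd z l).card : ℝ) * (z : ℝ) ^ a := by
            rw [h4]
            ring
        _ ≤ K * (z : ℝ) ^ (B * d) * T.card := h3
        _ ≤ z * (z : ℝ) ^ (B * d) * T.card := by gcongr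
        _ = _ := by ring
    exact le_of_mul_le_mul_right h5 hzB
  -- the union
  have hcov : E ⊆ (Ioo (y - 1) (Z + 1)).biUnion (fun z => (D.Λ z).biUnion (fun l => Bd z l)) := by
    intro t ht
    obtain ⟨n, hn, z, hyz, hzZ, hlaw⟩ := hE t ht
    unfold GLaw at hlaw
    push Not at hlaw
    obtain ⟨l, hl, hlt⟩ := hlaw
    rw [mem_biUnion]
    refine ⟨z, mem_Ioo.2 ⟨by omega, by omega⟩, ?_⟩
    rw [mem_biUnion]
    refine ⟨l, hl, ?_⟩
    rw [hBd, mem_filter]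
    exact ⟨ht, n, hn, hlt⟩
  have hyA : (0 : ℝ) < (y : ℝ) ^ A := by positivity
  have h1 : (E.card : ℝ) ≤ ∑ z ∈ Ioo (y - 1) (Z + 1), ((z : ℝ) ^ 2)⁻¹ * (T.card / (y : ℝ) ^ A) := by
    have h2 := (card_le_card hcov).trans (card_biUnion_le.trans (sum_le_sum fun z _ => card_biUnion_le))
    have h3 : (E.card : ℝ) ≤ ∑ z ∈ Ioo (y - 1) (Z + 1), ∑ l ∈ D.Λ z, ((Bd z l).card : ℝ) := by
      exact_mod_cast h2
    refine h3.trans (sum_le_sum fun z hz => ?_)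
    rw [mem_Ioo] at hz
    have hyz : y ≤ z := by omega
    have hz0 : (0 : ℝ) < z := by exact_mod_cast (by omega : 0 < z)
    have h4 : ∀ l ∈ D.Λ z, ((Bd z l).card : ℝ) ≤ T.card / (z : ℝ) ^ (A + A₂ + 2) := by
      intro l hl
      rw [le_div_iff₀ (by positivity)]
      exact hone z hyz (by omega) l hl
    refine (sum_le_sum h4).trans ?_
    rw [sum_const, nsmul_eq_mul]
    have h5 : ((D.Λ z).card : ℝ) ≤ (z : ℝ) ^ A₂ := by exact_mod_cast D.card z (by omega)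
    calc ((D.Λ z).card : ℝ) * (T.card / (z : ℝ) ^ (A + A₂ + 2)) ≤ (z : ℝ) ^ A₂ * (T.card / (z : ℝ) ^ (A + A₂ + 2)) :=
          mul_le_mul_of_nonneg_right h5 (div_nonneg hTc (by positivity))
      _ = ((z : ℝ) ^ 2)⁻¹ * (T.card / (z : ℝ) ^ A) := by
          rw [show A + A₂ + 2 = A₂ + 2 + A by ring, pow_add, pow_add]
          field_simp
      _ ≤ _ := by
          apply mul_le_mul_of_nonneg_left _ (by positivity)
          apply div_le_div_of_nonneg_left hTc hyA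
          apply pow_le_pow_left₀ (by positivity)
          exact_mod_cast hyz
  have h6 : ∑ z ∈ Ioo (y - 1) (Z + 1), ((z : ℝ) ^ 2)⁻¹ ≤ 1 := by
    have h7 := sum_Ioo_inv_sq_le (α := ℝ) (y - 1) (Z + 1)
    refine h7.trans ?_
    rw [div_le_one (by positivity)]
    have : (1 : ℝ) ≤ ((y - 1 : ℕ) : ℝ) := by exact_mod_cast (by omega : 1 ≤ y - 1)
    linarith
  rw [← sum_mul] at h1
  have h8 : (E.card : ℝ) ≤ T.card / (y : ℝ) ^ A := by
    refine h1.trans ?_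
    calc (∑ z ∈ Ioo (y - 1) (Z + 1), ((z : ℝ) ^ 2)⁻¹) * (T.card / (y : ℝ) ^ A) ≤ 1 * (T.card / (y : ℝ) ^ A) :=
          mul_le_mul_of_nonneg_right h6 (div_nonneg hTc hyA.le)
      _ = _ := one_mul _
  rwa [le_div_iff₀ hyA] at h8

variable {L : Type} [Fintype L] {m : ℕ}

/-- **the general theorem** -/
theorem gforAlmostAll_of {e w : L → ℝ} {μ : L → Fin m} (hs : Setting e w μ) {δ : ℝ} (hδ : 0 < δ) (A B : ℕ) {A₂ : ℕ} {Θ : Type}
    (D : Θ → GData L A₂) {E : Θ → ℕ → (L → ℕ) → Prop} (y₁ : ℕ)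
    (h : ∀ θ z n, y₁ ≤ z → GLaw δ (D θ) z n → E θ z n) : ForAlmostAll e w μ A B E := by
  classical
  obtain ⟨j, y₀, hgen⟩ := ggen L δ hδ A B A₂
  obtain ⟨η, hη, x₀, hex⟩ := ex_fam e w μ hs
  obtain ⟨M, hM⟩ : ∃ M : ℕ, M = 2 * j + 4 * j * Fintype.card L + 1 := ⟨_, rfl⟩
  have hM0 : (0 : ℝ) < M := by rw [hM]; positivity
  obtain ⟨c, hc⟩ : ∃ c : ℝ, c = min 1 (η / M) := ⟨_, rfl⟩
  have hc0 : 0 < c := by rw [hc]; exact lt_min one_pos (by positivity)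
  have hc1 : c ≤ 1 := by rw [hc]; exact min_le_left _ _
  have hcM : c * M ≤ η := by
    rw [← le_div_iff₀ hM0, hc]
    exact min_le_right _ _
  refine ⟨c, hc0, y₀ + y₁ + x₀ + 2, fun θ β x y hy => ?_⟩
  have hy1 : (1 : ℝ) ≤ y := by exact_mod_cast (by omega : 1 ≤ y)
  have hyA : (0 : ℝ) < (y : ℝ) ^ A := by positivity
  have hxm : (0 : ℝ) ≤ (x : ℝ) ^ m := by positivity
  obtain ⟨Bd, hBd⟩ : ∃ Bd : Finset (Fin m → ℕ), Bd = (Fintype.piFinset (fun _ : Fin m => Icc 1 x)).filter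
    (fun i => ∃ n : L → ℕ, (∀ l, |(n l : ℝ) - (β l + w l * (i (μ l) : ℝ) ^ e l)| ≤ (y : ℝ) ^ B) ∧
      ¬ (∀ z : ℕ, y ≤ z → (z : ℝ) ≤ (x : ℝ) ^ c → E θ z n)) := ⟨_, rfl⟩
  have hexc : (exceptions x e w β μ ((y : ℝ) ^ B) (fun n => ∀ z : ℕ, y ≤ z → (z : ℝ) ≤ (x : ℝ) ^ c → E θ z n) : ℝ) = (Bd.card : ℝ) := by
    rw [hBd]
    rfl
  rw [hexc]
  rcases Finset.eq_empty_or_nonempty Bd with h0 | h0
  · rw [h0, card_empty, Nat.cast_zero]
    positivity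
  -- then x is large
  obtain ⟨i0, hi0⟩ := h0
  have hi0' := hi0
  rw [hBd, mem_filter] at hi0'
  obtain ⟨_, n0, _, hn0⟩ := hi0'
  push Not at hn0
  obtain ⟨z0, hyz0, hz0x, _⟩ := hn0
  have hx1 : 1 ≤ x := by
    by_contra hcon
    have hx00 : x = 0 := by omega
    rw [hx00, Nat.cast_zero, Real.zero_rpow hc0.ne'] at hz0x
    have : (1 : ℝ) ≤ z0 := by exact_mod_cast (by omega : 1 ≤ z0)
    linarith
  have hx1r : (1 : ℝ) ≤ x := by exact_mod_cast hx1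
  have hx0 : (0 : ℝ) < x := by linarith
  have hyx : y ≤ x := by
    have h1 : (z0 : ℝ) ≤ x := by
      refine hz0x.trans ?_
      calc (x : ℝ) ^ c ≤ (x : ℝ) ^ (1 : ℝ) := Real.rpow_le_rpow_of_exponent_le hx1r hc1
        _ = x := Real.rpow_one _
    have h2 : z0 ≤ x := by exact_mod_cast h1
    omega
  obtain ⟨Z, hZ⟩ : ∃ Z : ℕ, Z = ⌊(x : ℝ) ^ c⌋₊ := ⟨_, rfl⟩
  have hZ1 : 1 ≤ Z := by
    rw [hZ]
    apply Nat.le_floor
    rw [Nat.cast_one]
    exact Real.one_le_rpow hx1r hc0.le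
  have hZr : (Z : ℝ) ≤ (x : ℝ) ^ c := by rw [hZ]; exact Nat.floor_le (by positivity)
  have hZ1r : (1 : ℝ) ≤ Z := by exact_mod_cast hZ1
  have hpow : ∀ k : ℕ, k ≤ M → (Z : ℝ) ^ k ≤ (x : ℝ) ^ η := by
    intro k hk
    calc (Z : ℝ) ^ k ≤ (Z : ℝ) ^ M := pow_le_pow_right₀ hZ1r hk
      _ ≤ ((x : ℝ) ^ c) ^ M := pow_le_pow_left₀ (by linarith) hZr _
      _ = (x : ℝ) ^ (c * M) := by rw [← Real.rpow_natCast, ← Real.rpow_mul hx0.le]
      _ ≤ _ := Real.rpow_le_rpow_of_exponent_le hx1r hcM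
  have hEx := (hex x (by omega) β).mono (D' := (Z : ℝ) ^ (2 * j)) (ε' := 1 / (Z : ℝ) ^ (4 * j * Fintype.card L))
    (by positivity) (hpow _ (by omega)) (by
      rw [Real.rpow_neg hx0.le, ← one_div]
      apply one_div_le_one_div_of_le (by positivity)
      exact hpow _ (by omega))
  have hcard : ((Fintype.piFinset (fun _ : Fin m => Icc 1 x)).card : ℝ) = (x : ℝ) ^ m := by
    rw [Fintype.card_piFinset_const, Nat.card_Icc]
    simp
  have hfin := hgen (D θ) (Fintype.piFinset (fun _ : Fin m => Icc 1 x)) (fun i l => β l + w l * (i (μ l) : ℝ) ^ e l) y Z (by omega)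
    hEx Bd (by rw [hBd]; exact filter_subset _ _) (by
      intro i hi
      rw [hBd, mem_filter] at hi
      obtain ⟨_, n, hn1, hn2⟩ := hi
      refine ⟨n, hn1, ?_⟩
      push Not at hn2
      obtain ⟨z, hyz, hzx, hz⟩ := hn2
      refine ⟨z, hyz, ?_, fun hlaw => hz (h θ z n (by omega) hlaw)⟩
      rw [hZ]
      exact Nat.le_floor hzx)
  rw [hcard] at hfin
  rw [div_mul_eq_mul_div, one_mul, le_div_iff₀ hyA]
  exact hfin

/-- properties at `z` from properties at `z ^ k` -/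
theorem ForAlmostAll.pow {e w : L → ℝ} {μ : L → Fin m} {A B : ℕ} {Θ : Type} {E F : Θ → ℕ → (L → ℕ) → Prop} (k : ℕ) (hk : 1 ≤ k)
    (h1 : ForAlmostAll e w μ A B F) (y₁ : ℕ) (h : ∀ θ z n, y₁ ≤ z → F θ (z ^ k) n → E θ z n) : ForAlmostAll e w μ A B E := by
  obtain ⟨c, hc, y₀, H⟩ := h1
  have hk0 : (0 : ℝ) < k := by exact_mod_cast hk
  refine ⟨c / k, by positivity, y₀ + y₁ + 1, fun θ β x y hy => ?_⟩
  refine le_trans (Nat.cast_le.2 (exceptions_mono ?_)) (H θ β x y (by omega))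
  intro n hn z hz hzx
  refine h θ z n (by omega) (hn (z ^ k) (hz.trans (Nat.le_self_pow (by omega) z)) ?_)
  have hx0 : (0 : ℝ) ≤ x := Nat.cast_nonneg x
  push_cast
  calc (z : ℝ) ^ k ≤ ((x : ℝ) ^ (c / k)) ^ k := pow_le_pow_left₀ (Nat.cast_nonneg z) hzx k
    _ = (x : ℝ) ^ c := by
      rw [← Real.rpow_natCast, ← Real.rpow_mul hx0]
      congr 1
      field_simp

end Pool.Agent.Q56.WL
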