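import Pool.Agent.Q56.WL.Cen2
import Pool.Agent.Q93.KM.Jac

/-! Joint moments of products, near powers. -/

set_option autoImplicit false

namespace Pool.Agent.Q56.WL

open Finset Filter
open Pool.Agent.Q235.FD
open Pool.Agent.Q93.KM hiding joint_law

theorem kjoint_near {ι : Type} [Fintype ι] [DecidableEq ι] [Nonempty ι] {κ : ι → Type} [∀ j, Fintype (κ j)] [∀ j, Nonempty (κ j)]
    {T : ι → Type} [∀ j, Fintype (T j)] (f : ∀ j, T j → ℕ → (κ j → ℕ) → ℝ) (c : ∀ j, T j → ℝ) (t₀ : ∀ j, T j)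
    (hc : ∀ j, c j (t₀ j) = 1) (hper : ∀ j t p n, p.Prime → f j t p n = f j t p (fun i => n i % p)) {M : ℝ} (hM : 1 ≤ M)
    (hbd : ∀ j t p n, p.Prime → |f j t p n| ≤ M) (hcb : ∀ j t, |c j t| ≤ M)
    (hav : ∀ j t p, p.Prime → |avg p (f j t p) - c j t| ≤ M / Real.sqrt p)
    {dm : ℕ} {ex ω : (Σ j, κ j) → ℝ} {μ : (Σ j, κ j) → Fin dm} (hset : Setting ex ω μ) {δ : ℝ} (hδ : 0 < δ) (A V B : ℕ) :
    ForAlmostAll ex ω μ A V (fun (θ : Sets B) x m => ∀ P ∈ θ.S x, ∀ t : ∀ j, T j,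
      |∑ p ∈ P, (∏ j, f j (t j) p (fun i => m ⟨j, i⟩) - (∏ j, c j (t j)) * ∏ j, f j (t₀ j) p (fun i => m ⟨j, i⟩))| ≤
        Real.sqrt (max 1 P.card) * (x : ℝ) ^ δ ∧
      |∑ p ∈ P, (1 - ∏ j, f j (t₀ j) p (fun i => m ⟨j, i⟩))| ≤ Real.sqrt (max 1 P.card) * (x : ℝ) ^ δ) := by
  classical
  obtain ⟨q, hq⟩ : ∃ q : ℕ, q = Fintype.card ι := ⟨_, rfl⟩
  have hM0 : 0 < M := by linarith
  obtain ⟨u, hu⟩ : ∃ u : ℕ, u = Fintype.card (∀ j, T j) := ⟨_, rfl⟩
  have havb : ∀ j t p, p.Prime → |avg p (f j t p)| ≤ M := by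
    intro j t p hp
    refine (abs_avg_le _).trans ?_
    have : avg p (fun n => |f j t p n|) ≤ avg (L := κ j) p (fun _ => M) := avg_mono fun n => hbd j t p n hp
    rwa [avg_const hp.one_lt.le] at this
  have key : ∀ (t : ∀ j, T j) (p : ℕ), p.Prime → |∏ j, avg p (f j (t j) p) - ∏ j, c j (t j)| ≤ q * M ^ q * (M / Real.sqrt p) := by
    intro t p hp
    have := prod_diff (univ : Finset ι) (fun j => avg p (f j (t j) p)) (fun j => c j (t j)) hM (by positivity : 0 ≤ M / Real.sqrt p)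
      (fun j _ => havb j _ p hp) (fun j _ => hcb j _) (fun j _ => hav j _ p hp)
    rwa [card_univ, ← hq] at this
  have hcp : ∀ t : ∀ j, T j, |∏ j, c j (t j)| ≤ M ^ q := by
    intro t
    have := abs_prod_le_pow (univ : Finset ι) (x := fun j => c j (t j)) (fun j _ => hcb j _)
    rwa [card_univ, ← hq] at this
  have hfp : ∀ (t : ∀ j, T j) (p : ℕ) (n : (Σ j, κ j) → ℕ), p.Prime → |∏ j, f j (t j) p (fun i => n ⟨j, i⟩)| ≤ M ^ q := by
    intro t p n hp
    have := abs_prod_le_pow (univ : Finset ι) (x := fun j => f j (t j) p (fun i => n ⟨j, i⟩)) (fun j _ => hbd j _ p _ hp)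
    rwa [card_univ, ← hq] at this
  have hMq : 1 ≤ M ^ q := one_le_pow₀ hM
  obtain ⟨C, hC⟩ : ∃ C : ℝ, C = q * M ^ q * M * (1 + M ^ q) + M ^ q * (1 + M ^ q) + 1 := ⟨_, rfl⟩
  have hC1 : 1 ≤ C := by
    rw [hC]
    have : 0 ≤ q * M ^ q * M * (1 + M ^ q) + M ^ q * (1 + M ^ q) := by positivity
    linarith
  have hN : Nonempty (Σ j, κ j) := by
    obtain ⟨j⟩ := (inferInstance : Nonempty ι)
    obtain ⟨i⟩ := (inferInstance : Nonempty (κ j))
    exact ⟨⟨j, i⟩⟩
  have h1 := centered2_near (L := Σ j, κ j) hset hδ (A + 1) V B u (fun _ => (univ : Finset (∀ j, T j))) (by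
    intro x hx
    rw [card_univ, ← hu]
    exact Nat.lt_two_pow_self.le.trans (Nat.pow_le_pow_left hx _))
    (fun t p m => ∏ j, f j (t j) p (fun i => m ⟨j, i⟩) - (∏ j, c j (t j)) * ∏ j, f j (t₀ j) p (fun i => m ⟨j, i⟩))
    (by
      intro t p n hp
      beta_reduce
      congr 1
      · exact prod_congr rfl fun j _ => hper _ _ _ _ hp
      · congr 1
        exact prod_congr rfl fun j _ => hper _ _ _ _ hp)
    (C := C) hC1 (by
      intro t p n hp
      refine (abs_sub _ _).trans ?_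
      rw [abs_mul]
      have g1 := hfp t p n hp
      have g2 := mul_le_mul (hcp t) (hfp t₀ p n hp) (abs_nonneg _) (by positivity)
      have g3 : 0 ≤ q * M ^ q * M * (1 + M ^ q) := by positivity
      rw [hC]
      linarith) (by
      intro t p hp
      rw [avg_sub, avg_mul, avg_prod p (fun j => f j (t j) p), avg_prod p (fun j => f j (t₀ j) p)]
      have e : ∏ j, avg p (f j (t j) p) - (∏ j, c j (t j)) * ∏ j, avg p (f j (t₀ j) p) =
        (∏ j, avg p (f j (t j) p) - ∏ j, c j (t j)) - (∏ j, c j (t j)) * (∏ j, avg p (f j (t₀ j) p) - ∏ j, c j (t₀ j)) := by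
        have : ∏ j, c j (t₀ j) = 1 := prod_eq_one fun j _ => hc j
        rw [this]
        ring
      rw [e]
      refine (abs_sub _ _).trans ?_
      rw [abs_mul]
      have g1 := key t p hp
      have g2 := mul_le_mul (hcp t) (key t₀ p hp) (abs_nonneg _) (by positivity)
      have g4 : 0 ≤ (M ^ q * (1 + M ^ q) + 1) / Real.sqrt p := by positivity
      calc _ ≤ q * M ^ q * (M / Real.sqrt p) + M ^ q * (q * M ^ q * (M / Real.sqrt p)) := add_le_add g1 g2
        _ ≤ q * M ^ q * (M / Real.sqrt p) + M ^ q * (q * M ^ q * (M / Real.sqrt p)) + (M ^ q * (1 + M ^ q) + 1) / Real.sqrt p := by linarith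
        _ = C / Real.sqrt p := by rw [hC]; ring)
  have h2 := centered2_near (L := Σ j, κ j) hset hδ (A + 1) V B 1 (fun _ => (univ : Finset Unit)) (by
    intro x hx
    rw [card_univ, Fintype.card_unit, pow_one]
    omega)
    (fun _ p m => 1 - ∏ j, f j (t₀ j) p (fun i => m ⟨j, i⟩))
    (by
      intro _ p n hp
      beta_reduce
      congr 1
      exact prod_congr rfl fun j _ => hper _ _ _ _ hp)
    (C := C) hC1 (by
      intro _ p n hp
      refine (abs_sub _ _).trans ?_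
      rw [abs_one]
      have g1 := hfp t₀ p n hp
      have g3 : 0 ≤ q * M ^ q * M * (1 + M ^ q) := by positivity
      rw [hC]
      nlinarith) (by
      intro _ p hp
      rw [avg_sub, avg_const hp.one_lt.le, avg_prod p (fun j => f j (t₀ j) p), abs_sub_comm]
      have e : (1 : ℝ) = ∏ j, c j (t₀ j) := (prod_eq_one fun j _ => hc j).symm
      have g1 := key t₀ p hp
      rw [← e] at g1
      have g4 : 0 ≤ (M ^ q * (1 + M ^ q) + 1 + q * M ^ q * M * M ^ q) / Real.sqrt p := by positivity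
      calc _ ≤ q * M ^ q * (M / Real.sqrt p) := g1
        _ ≤ q * M ^ q * (M / Real.sqrt p) + (M ^ q * (1 + M ^ q) + 1 + q * M ^ q * M * M ^ q) / Real.sqrt p := by linarith
        _ = C / Real.sqrt p := by rw [hC]; ring)
  refine ForAlmostAll.and h1 h2 ?_
  intro θ x m g1 g2 P hP t
  exact ⟨g1 P hP t (mem_univ _), g2 P hP () (mem_univ _)⟩

/-- the law for the joint moments -/
theorem jac_near (s : ℕ) (hs : 1 ≤ s) (D : Fin s → ℕ) (hD : ∀ j, Odd (D j)) {dm : ℕ} {ex ω : (Σ j : Fin s, Fin (D j)) → ℝ} {μ : (Σ j : Fin s, Fin (D j)) → Fin dm} (hset : Setting ex ω μ) {δ : ℝ} (hδ : 0 < δ) (A V B : ℕ) :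
    ForAlmostAll ex ω μ A V (fun (θ : Sets B) x m => ∀ P ∈ θ.S x,
      |∑ p ∈ P, (1 - ∏ j, fpow 0 p (fun i => m ⟨j, i⟩))| ≤ Real.sqrt (max 1 P.card) * (x : ℝ) ^ δ ∧
      ∀ k : Fin s → ℕ, (∀ j, k j ≤ D j) →
      |∑ p ∈ P, (∏ j, fpow (k j) p (fun i => m ⟨j, i⟩) - (∏ j, gmom (k j)) * ∏ j, fpow 0 p (fun i => m ⟨j, i⟩))| ≤
        Real.sqrt (max 1 P.card) * (x : ℝ) ^ δ) := by
  classical
  have hN : Nonempty (Fin s) := ⟨⟨0, hs⟩⟩
  have hN2 : ∀ j, Nonempty (Fin (D j)) := fun j => ⟨⟨0, (hD j).pos⟩⟩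
  choose M hM1 hM using fun j : Fin s => fpow_facts (D j) (hD j)
  have hle : ∀ j, M j ≤ ∑ j, M j := fun j => single_le_sum (f := M) (fun j _ => by linarith [hM1 j]) (mem_univ j)
  have hM' : 1 ≤ ∑ j, M j := (hM1 ⟨0, hs⟩).trans (hle _)
  have h := kjoint_near (ι := Fin s) (κ := fun j => Fin (D j)) (T := fun j => Fin (D j + 1))
    (fun j t p n => fpow (t : ℕ) p n) (fun j t => gmom (t : ℕ)) (fun j => ⟨0, by omega⟩)
    (fun j => by unfold gmom; simp) (fun j t p n _ => fpow_mod _ p n) (M := ∑ j, M j) hM'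
    (fun j t p n hp => ((((hM j) t.1 (by omega)).2 p hp).1 n).trans (hle j))
    (fun j t => by
      rw [abs_of_nonneg (gmom_nonneg _)]
      exact ((hM j) t.1 (by omega)).1.trans (hle j))
    (fun j t p hp => ((((hM j) t.1 (by omega)).2 p hp).2).trans (div_le_div_of_nonneg_right (hle j) (Real.sqrt_nonneg _)))
    hset hδ A V B
  refine h.mono 0 ?_
  intro θ x m _ g P hP
  refine ⟨(g P hP (fun j => ⟨0, by omega⟩)).2, fun k hk => ?_⟩
  exact (g P hP (fun j => ⟨k j, by have := hk j; omega⟩)).1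

end Pool.Agent.Q56.WL
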