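import Pool.Agent.Q56.WL.Cen
import Pool.Agent.Q235.FD.Joint

/-! Joint moments, near powers. -/

set_option autoImplicit false

namespace Pool.Agent.Q56.WL

open Finset Filter
open Pool.Agent.Q235.FD

variable {s : ℕ} {D : Fin s → ℕ}

/-- **The law for the joint moments.** -/
theorem joint_near (hs : 1 ≤ s) (hD : ∀ i, Odd (D i)) {dm : ℕ} {ex ω : (Σ i, Fin (D i)) → ℝ} {μ : (Σ i, Fin (D i)) → Fin dm} (hset : Setting ex ω μ) {δ : ℝ} (hδ : 0 < δ) (A V B : ℕ) :
    ForAlmostAll ex ω μ A V (fun (θ : Sets B) x m => ∀ P ∈ θ.S x,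
      |∑ p ∈ P, jbad p m| ≤ Real.sqrt (max 1 P.card) * (x : ℝ) ^ δ ∧
      ∀ k : Fin s → ℕ, (∀ i, k i ≤ D i) → |∑ p ∈ P, jpow k p m| ≤ Real.sqrt (max 1 P.card) * (x : ℝ) ^ δ) := by
  classical
  have : Nonempty (Σ i, Fin (D i)) := ⟨⟨⟨0, hs⟩, ⟨0, (hD _).pos⟩⟩⟩
  obtain ⟨Q, hQ⟩ : ∃ Q : Finset (Fin s → ℕ), Q = Fintype.piFinset (fun i => range (D i + 1)) := ⟨_, rfl⟩
  have hQ' : ∀ k, k ∈ Q ↔ ∀ i, k i ≤ D i := by
    intro k
    rw [hQ, Fintype.mem_piFinset]
    exact forall_congr' fun i => by rw [mem_range]; omega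
  have hex : ∀ k : {k // k ∈ Q}, ∃ C : ℝ, 0 ≤ C ∧ ∀ p : ℕ, p.Prime → |avg p (jpow (D := D) k.1 p)| ≤ C / p :=
    fun k => avg_jpow hD ((hQ' k.1).1 k.2)
  choose C hC0 hC using hex
  have hS : 0 ≤ ∑ k, C k := sum_nonneg fun k _ => hC0 k
  have h0 := CJ_one (D := D)
  have h0' : 1 ≤ CJ D ^ s := one_le_pow₀ h0
  have h1 := centered_near (L := Σ i, Fin (D i)) hset hδ (A + 1) V B Q.card (fun _ => (univ : Finset {k // k ∈ Q})) (by
    intro x hx
    rw [card_univ, Fintype.card_coe]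
    calc Q.card ≤ 2 ^ Q.card := Nat.lt_two_pow_self.le
      _ ≤ x ^ Q.card := Nat.pow_le_pow_left hx _) (fun k p m => jpow k.1 p m) (fun k p n _ => jpow_mod k.1 p n)
    (C := 2 * CJ D ^ s + ∑ k, C k) (by linarith) (fun k p n hp => (jpow_bound hD ((hQ' k.1).1 k.2) hp n).trans (by linarith)) (fun k p hp => by
      have hpp : (0 : ℝ) < p := by exact_mod_cast hp.pos
      refine (hC k p hp).trans (div_le_div_of_nonneg_right ?_ hpp.le)
      have := single_le_sum (f := C) (fun k _ => hC0 k) (mem_univ k)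
      linarith)
  have hDs : 0 ≤ ∑ i, ((D i : ℝ) + 2) := sum_nonneg fun i _ => by positivity
  have h2 := centered_near (L := Σ i, Fin (D i)) hset hδ (A + 1) V B 1 (fun _ => (univ : Finset Unit)) (by
    intro x hx
    rw [card_univ, Fintype.card_unit, pow_one]
    omega) (fun _ p m => jbad p m) (fun _ p n _ => jbad_mod p n)
    (C := 1 + ∑ i, ((D i : ℝ) + 2)) (by linarith) (fun _ p n hp => by
      unfold jbad
      split_ifs
      · rw [abs_zero]; linarith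
      · rw [abs_one]; linarith) (fun _ p hp => (avg_jbad hD p hp).trans (by
        have hpp : (0 : ℝ) < p := by exact_mod_cast hp.pos
        exact div_le_div_of_nonneg_right (by linarith) hpp.le))
  refine ForAlmostAll.and h1 h2 ?_
  intro θ x m g1 g2 P hP
  exact ⟨g2 P hP () (mem_univ _), fun k hk => g1 P hP ⟨k, (hQ' k).2 hk⟩ (mem_univ _)⟩

end Pool.Agent.Q56.WL
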