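import Pool.Agent.TH894.NE2

set_option autoImplicit false

/-! Sums of nonnegative periodic functions over the integer points near real vectors. -/

namespace Pool.Agent.Q56.WL
open Finset
open Pool.Agent.TH894.NE (box mem_box card_box Per cfd ch' ch'_norm)
open Pool.Agent.TH894.ND (ee ee_add ee_norm ee_int ee_zero ee_sum Fr Fr_card)

/-- the geometric sum is large near the integers -/
lemma geo_low (M : ℕ) (u : ℝ) (hu : M * |u| ≤ 1 / 6) : (M : ℝ) / 2 ≤ ‖∑ j ∈ range M, ee ((j : ℝ) * u)‖ := by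
  have h1 : ∀ j ∈ range M, (1 / 2 : ℝ) ≤ (ee ((j : ℝ) * u)).re := by
    intro j hj
    rw [mem_range] at hj
    have hre : (ee ((j : ℝ) * u)).re = Real.cos (2 * Real.pi * (j * u)) := by
      unfold ee
      rw [Complex.exp_ofReal_mul_I_re]
    rw [hre, ← Real.cos_abs]
    have h2 : |2 * Real.pi * (j * u)| ≤ Real.pi / 3 := by
      rw [abs_mul, abs_of_pos (by positivity : 0 < 2 * Real.pi), abs_mul, abs_of_nonneg (Nat.cast_nonneg j)]
      have h3 : (j : ℝ) * |u| ≤ 1 / 6 := by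
        refine le_trans ?_ hu
        have : (j : ℝ) ≤ M := by exact_mod_cast hj.le
        exact mul_le_mul_of_nonneg_right this (abs_nonneg _)
      nlinarith [Real.pi_pos]
    rw [← Real.cos_pi_div_three]
    exact Real.cos_le_cos_of_nonneg_of_le_pi (abs_nonneg _) (by linarith [Real.pi_pos]) h2
  calc (M : ℝ) / 2 = ∑ _j ∈ range M, (1 / 2 : ℝ) := by
        rw [sum_const, card_range, nsmul_eq_mul]
        ring
    _ ≤ ∑ j ∈ range M, (ee ((j : ℝ) * u)).re := sum_le_sum h1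
    _ = (∑ j ∈ range M, ee ((j : ℝ) * u)).re := (Complex.re_sum _ _).symm
    _ ≤ _ := (le_abs_self _).trans (Complex.abs_re_le_norm _)

/-- the kernel in several variables -/
noncomputable def K {d : ℕ} (M : ℕ) (u : Fin d → ℝ) : ℂ := ∑ j ∈ box d M, ee (∑ l, (j l : ℝ) * u l)

lemma K_prod {d : ℕ} (M : ℕ) (u : Fin d → ℝ) : K M u = ∏ l, ∑ j ∈ range M, ee ((j : ℝ) * u l) := by
  unfold K Pool.Agent.TH894.NE.box
  rw [Finset.prod_univ_sum]
  refine sum_congr rfl fun j _ => ?_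
  rw [ee_sum]

lemma K_low {d : ℕ} (M : ℕ) (u : Fin d → ℝ) (hu : ∀ l, M * |u l| ≤ 1 / 6) : ((M : ℝ) / 2) ^ d ≤ ‖K M u‖ := by
  rw [K_prod, norm_prod]
  calc ((M : ℝ) / 2) ^ d = ∏ _l : Fin d, (M : ℝ) / 2 := by
        rw [prod_const, card_univ, Fintype.card_fin]
    _ ≤ _ := prod_le_prod (fun _ _ => by positivity) (fun l _ => geo_low M (u l) (hu l))

lemma K_congr {d : ℕ} (M : ℕ) (u v : Fin d → ℝ) (c : Fin d → ℤ) (h : ∀ l, u l = v l + c l) : K M u = K M v := by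
  unfold K
  refine sum_congr rfl fun j _ => ?_
  have h1 : ∑ l, (j l : ℝ) * u l = ∑ l, (j l : ℝ) * v l + ((∑ l, (j l : ℤ) * c l : ℤ) : ℝ) := by
    push_cast
    rw [← sum_add_distrib]
    refine sum_congr rfl fun l _ => ?_
    rw [h l]
    ring
  rw [h1, ee_add, ee_int, mul_one]

lemma conj_ee (x : ℝ) : (starRingEnd ℂ) (ee x) = ee (-x) := by
  unfold ee
  rw [← Complex.exp_conj]
  congr 1
  rw [map_mul, Complex.conj_I, Complex.conj_ofReal]
  push_cast
  ring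

lemma K_sq {d : ℕ} (M : ℕ) (u : Fin d → ℝ) : ((‖K M u‖ ^ 2 : ℝ) : ℂ) =
    ∑ j ∈ box d M, ∑ j' ∈ box d M, ee (∑ l, ((j l : ℝ) - j' l) * u l) := by
  have h1 : ((‖K M u‖ ^ 2 : ℝ) : ℂ) = K M u * (starRingEnd ℂ) (K M u) := by
    rw [Complex.mul_conj, Complex.normSq_eq_norm_sq]
  rw [h1]
  unfold K
  rw [map_sum, sum_mul_sum]
  refine sum_congr rfl fun j _ => sum_congr rfl fun j' _ => ?_
  rw [conj_ee, ← ee_add]
  congr 1
  rw [← sub_eq_add_neg, ← sum_sub_distrib]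
  exact sum_congr rfl fun l _ => by ring

/-- the residue of a difference -/
def kk {d : ℕ} (Q : ℕ) (j j' : Fin d → ℕ) : Fin d → ℕ := fun l => (j l + (Q - j' l)) % Q

lemma kk_int {d : ℕ} {Q : ℕ} {j j' : Fin d → ℕ} (l : Fin d) (h : j' l ≤ Q) :
    ∃ v : ℤ, ((kk Q j j' l : ℕ) : ℤ) = (j l : ℤ) - j' l + Q * v := by
  refine ⟨1 - ((j l + (Q - j' l)) / Q : ℕ), ?_⟩
  unfold kk
  have h1 := Nat.mod_add_div (j l + (Q - j' l)) Q
  have h2 : (((j l + (Q - j' l)) % Q : ℕ) : ℤ) + Q * (((j l + (Q - j' l)) / Q : ℕ) : ℤ) = (j l : ℤ) + ((Q : ℤ) - j' l) := by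
    have : (((j l + (Q - j' l)) % Q + Q * ((j l + (Q - j' l)) / Q) : ℕ) : ℤ) = ((j l + (Q - j' l) : ℕ) : ℤ) := by rw [h1]
    rw [Nat.cast_add, Nat.cast_mul, Nat.cast_add, Nat.cast_sub h] at this
    exact this
  linear_combination h2

theorem ker {d : ℕ} {τ : Type*} (T : Finset τ) (R : τ → Fin d → ℝ) (w : ℝ) (hw : 1 ≤ w) (Q : ℕ)
    (hQ : 6 * w ≤ Q) (H : (Fin d → ℕ) → ℝ) (hH : Per Q H) (hH0 : ∀ n, 0 ≤ H n) (D : ℕ)
    (hcf : ∀ k ∈ box d Q, (∃ i, k i ∉ Fr Q D) → cfd Q H k = 0) (ε : ℝ) (hε : 0 ≤ ε)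
    (hexp : ∀ θ : Fin d → ℝ, (∀ l, θ l = 0 ∨ (1 / (D : ℝ) ≤ |θ l| ∧ |θ l| ≤ 1)) → (∃ l, θ l ≠ 0) →
      ‖∑ t ∈ T, ee (∑ l, θ l * R t l)‖ ≤ ε * T.card)
    (S : Finset (τ × (Fin d → ℕ))) (hS : ∀ s ∈ S, s.1 ∈ T ∧ ∀ l, |(s.2 l : ℝ) - R s.1 l| ≤ w) :
    ∑ s ∈ S, H s.2 ≤ (48 * w) ^ d *
      ((1 / (Q : ℝ) ^ d * ∑ n ∈ box d Q, H n) * (T.card * (1 + ((Fr Q D).card : ℝ) ^ d * ε))) := by
  classical
  have hw0 : 0 < w := by linarith
  have hQr : (6 : ℝ) ≤ Q := by linarith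
  have hQ0 : (0 : ℝ) < Q := by linarith
  have hQ1 : 1 ≤ Q := by exact_mod_cast (by linarith : (1 : ℝ) ≤ Q)
  obtain ⟨c0, hc0⟩ : ∃ c0 : ℝ, c0 = 1 / (Q : ℝ) ^ d * ∑ n ∈ box d Q, H n := ⟨_, rfl⟩
  have hc00 : 0 ≤ c0 := by rw [hc0]; exact mul_nonneg (by positivity) (sum_nonneg fun n _ => hH0 n)
  have hsumH : ∑ n ∈ box d Q, H n = (Q : ℝ) ^ d * c0 := by
    rw [hc0]
    field_simp
  rw [← hc0]
  obtain ⟨M, hM⟩ : ∃ M : ℕ, M = ⌊(Q : ℝ) / (6 * w)⌋₊ := ⟨_, rfl⟩
  have hQw : 1 ≤ (Q : ℝ) / (6 * w) := by rw [le_div_iff₀ (by positivity)]; linarith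
  have hM1 : 1 ≤ M := by rw [hM]; exact (Nat.one_le_floor_iff _).2 hQw
  have hMr : (1 : ℝ) ≤ M := by exact_mod_cast hM1
  have hMle : (M : ℝ) ≤ Q / (6 * w) := by rw [hM]; exact Nat.floor_le (by positivity)
  have hMge : (Q : ℝ) / (12 * w) ≤ M := by
    have h1 : (Q : ℝ) / (6 * w) < M + 1 := by rw [hM]; exact Nat.lt_floor_add_one _
    have h2 : (Q : ℝ) / (12 * w) = (Q / (6 * w)) / 2 := by
      field_simp
      ring
    rw [h2]
    linarith
  have hMQ6 : (M : ℝ) ≤ Q / 6 := by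
    refine hMle.trans ?_
    apply div_le_div_of_nonneg_left hQ0.le (by norm_num)
    linarith
  have hMQ : M ≤ Q := by
    have : (M : ℝ) ≤ Q := by linarith
    exact_mod_cast this
  -- step 1
  obtain ⟨X, hX⟩ : ∃ X : ℝ, X = ∑ t ∈ T, ∑ m ∈ box d Q, H m * ‖K M (fun l => (R t l - m l) / Q)‖ ^ 2 := ⟨_, rfl⟩
  have step1 : (∑ s ∈ S, H s.2) * (((M : ℝ) / 2) ^ d) ^ 2 ≤ X := by
    obtain ⟨φ, hφ⟩ : ∃ φ : τ × (Fin d → ℕ) → τ × (Fin d → ℕ), φ = fun s => (s.1, fun l => s.2 l % Q) := ⟨_, rfl⟩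
    obtain ⟨G, hG⟩ : ∃ G : τ × (Fin d → ℕ) → ℝ, G = fun s => H s.2 * ‖K M (fun l => (R s.1 l - s.2 l) / Q)‖ ^ 2 := ⟨_, rfl⟩
    have hinj : Set.InjOn φ (S : Set (τ × (Fin d → ℕ))) := by
      intro s hs s' hs' h
      rw [mem_coe] at hs hs'
      rw [hφ] at h
      have h' : ((s.1, fun l => s.2 l % Q) : τ × (Fin d → ℕ)) = (s'.1, fun l => s'.2 l % Q) := h
      obtain ⟨h1, h2⟩ := Prod.mk.inj h'
      refine Prod.ext h1 ?_
      funext l
      have h3 : s.2 l ≡ s'.2 l [MOD Q] := congrFun h2 l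
      have h4 := (hS s hs).2 l
      have h5 := (hS s' hs').2 l
      rw [← h1] at h5
      have h6 : |((s.2 l : ℤ) : ℝ) - ((s'.2 l : ℤ) : ℝ)| < Q := by
        push_cast
        have h7 : |(s.2 l : ℝ) - s'.2 l| ≤ w + w := by
          calc |(s.2 l : ℝ) - s'.2 l| = |((s.2 l : ℝ) - R s.1 l) - ((s'.2 l : ℝ) - R s.1 l)| := by congr 1; ring
            _ ≤ |(s.2 l : ℝ) - R s.1 l| + |(s'.2 l : ℝ) - R s.1 l| := abs_sub _ _
            _ ≤ w + w := add_le_add h4 h5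
        linarith
      rw [← Int.cast_sub, ← Int.cast_abs] at h6
      have h8 : |((s.2 l : ℤ) - (s'.2 l : ℤ))| < Q := by exact_mod_cast h6
      have h9 : (Q : ℤ) ∣ (s.2 l : ℤ) - (s'.2 l : ℤ) := (Nat.modEq_iff_dvd.1 h3.symm)
      have h10 := Int.eq_zero_of_abs_lt_dvd h9 h8
      omega
    have h1 : ∀ s ∈ S, H s.2 * (((M : ℝ) / 2) ^ d) ^ 2 ≤ G (φ s) := by
      intro s hs
      rw [hG, hφ]
      show _ ≤ H (fun l => s.2 l % Q) * ‖K M (fun l => (R s.1 l - (s.2 l % Q : ℕ)) / Q)‖ ^ 2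
      rw [← hH s.2]
      apply mul_le_mul_of_nonneg_left _ (hH0 _)
      have h2 : K M (fun l => (R s.1 l - (s.2 l % Q : ℕ)) / Q) = K M (fun l => (R s.1 l - s.2 l) / Q) := by
        apply K_congr M _ _ (fun l => ((s.2 l / Q : ℕ) : ℤ))
        intro l
        have h3 : (s.2 l : ℝ) = ((s.2 l % Q : ℕ) : ℝ) + Q * ((s.2 l / Q : ℕ) : ℝ) := by
          exact_mod_cast (Nat.mod_add_div (s.2 l) Q).symm
        rw [h3, Int.cast_natCast]
        field_simp
        ring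
      rw [h2]
      apply pow_le_pow_left₀ (by positivity)
      apply K_low
      intro l
      have h3 := (hS s hs).2 l
      rw [abs_sub_comm] at h3
      rw [abs_div, abs_of_pos hQ0]
      calc (M : ℝ) * (|R s.1 l - s.2 l| / Q) ≤ (Q / (6 * w)) * (w / Q) := by gcongr
        _ = 1 / 6 := by field_simp
    rw [sum_mul]
    refine (sum_le_sum h1).trans ?_
    rw [← sum_image hinj, hX, ← sum_product']
    have h2 : ∑ x ∈ T ×ˢ box d Q, H x.2 * ‖K M (fun l => (R x.1 l - x.2 l) / Q)‖ ^ 2 = ∑ x ∈ T ×ˢ box d Q, G x := by rw [hG]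
    rw [h2]
    apply sum_le_sum_of_subset_of_nonneg
    · intro y hy
      rw [mem_image] at hy
      obtain ⟨s, hs, rfl⟩ := hy
      rw [hφ, mem_product, mem_box]
      exact ⟨(hS s hs).1, fun l => Nat.mod_lt _ (by omega)⟩
    · intro y _ _
      rw [hG]
      exact mul_nonneg (hH0 _) (by positivity)
  -- step 2
  obtain ⟨A, hA⟩ : ∃ A : (Fin d → ℕ) → (Fin d → ℕ) → ℂ, A = fun j j' =>
      ∑ m ∈ box d Q, (H m : ℂ) * ee (-∑ l, ((j l : ℝ) - j' l) * m l / Q) := ⟨_, rfl⟩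
  obtain ⟨B, hB⟩ : ∃ B : (Fin d → ℕ) → (Fin d → ℕ) → ℂ, B = fun j j' =>
      ∑ t ∈ T, ee (∑ l, (((j l : ℝ) - j' l) / Q) * R t l) := ⟨_, rfl⟩
  have step2 : (X : ℂ) = ∑ j ∈ box d M, ∑ j' ∈ box d M, A j j' * B j j' := by
    have h1 : (X : ℂ) = ∑ t ∈ T, ∑ m ∈ box d Q, ∑ j ∈ box d M, ∑ j' ∈ box d M,
        ((H m : ℂ) * ee (-∑ l, ((j l : ℝ) - j' l) * m l / Q)) * ee (∑ l, (((j l : ℝ) - j' l) / Q) * R t l) := by
      rw [hX, Complex.ofReal_sum]
      refine sum_congr rfl fun t _ => ?_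
      rw [Complex.ofReal_sum]
      refine sum_congr rfl fun m _ => ?_
      rw [Complex.ofReal_mul, K_sq, mul_sum]
      refine sum_congr rfl fun j _ => ?_
      rw [mul_sum]
      refine sum_congr rfl fun j' _ => ?_
      rw [mul_assoc, ← ee_add]
      congr 2
      rw [← sum_neg_distrib, ← sum_add_distrib]
      refine sum_congr rfl fun l _ => ?_
      ring
    rw [h1, hA, hB]
    calc ∑ t ∈ T, ∑ m ∈ box d Q, ∑ j ∈ box d M, ∑ j' ∈ box d M,
        ((H m : ℂ) * ee (-∑ l, ((j l : ℝ) - j' l) * m l / Q)) * ee (∑ l, (((j l : ℝ) - j' l) / Q) * R t l)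
        = ∑ t ∈ T, ∑ j ∈ box d M, ∑ j' ∈ box d M, (∑ m ∈ box d Q,
          ((H m : ℂ) * ee (-∑ l, ((j l : ℝ) - j' l) * m l / Q))) * ee (∑ l, (((j l : ℝ) - j' l) / Q) * R t l) := by
          refine sum_congr rfl fun t _ => ?_
          rw [sum_comm]
          refine sum_congr rfl fun j _ => ?_
          rw [sum_comm]
          refine sum_congr rfl fun j' _ => ?_
          rw [sum_mul]
      _ = _ := by
          rw [sum_comm]
          refine sum_congr rfl fun j _ => ?_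
          rw [sum_comm]
          refine sum_congr rfl fun j' _ => ?_
          rw [mul_sum]
  -- the bounds for A
  have hAn : ∀ j j', ‖A j j'‖ ≤ (Q : ℝ) ^ d * c0 := by
    intro j j'
    rw [hA, ← hsumH]
    refine (norm_sum_le _ _).trans (sum_le_sum fun m _ => ?_)
    rw [norm_mul, ee_norm, mul_one, Complex.norm_real, Real.norm_eq_abs, abs_of_nonneg (hH0 m)]
  have hA0 : ∀ j ∈ box d M, ∀ j' ∈ box d M, (∃ l, kk Q j j' l ∉ Fr Q D) → A j j' = 0 := by
    intro j hj j' hj' hl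
    rw [mem_box] at hj hj'
    have hkb : kk Q j j' ∈ box d Q := by
      rw [mem_box]
      intro l
      unfold kk
      exact Nat.mod_lt _ (by omega)
    have h1 := hcf (kk Q j j') hkb hl
    unfold cfd at h1
    have hQc : (Q : ℂ) ≠ 0 := by exact_mod_cast (by omega : Q ≠ 0)
    have h2 : (1 : ℂ) / (Q : ℂ) ^ d ≠ 0 := div_ne_zero one_ne_zero (pow_ne_zero _ hQc)
    rcases mul_eq_zero.1 h1 with h3 | h3
    · exact absurd h3 h2
    rw [hA]
    show ∑ m ∈ box d Q, (H m : ℂ) * ee (-∑ l, ((j l : ℝ) - j' l) * m l / Q) = 0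
    rw [← h3]
    refine sum_congr rfl fun m _ => ?_
    congr 1
    unfold ch'
    rw [← sum_neg_distrib, ee_sum]
    refine prod_congr rfl fun l _ => ?_
    obtain ⟨v, hv⟩ := kk_int (Q := Q) (j := j) (j' := j') l (by have := hj' l; omega)
    have hvr : (kk Q j j' l : ℝ) = (j l : ℝ) - j' l + Q * v := by exact_mod_cast hv
    rw [hvr]
    have h4 : -(((j l : ℝ) - j' l + Q * v) * m l / Q) = -(((j l : ℝ) - j' l) * m l / Q) + ((-(v * m l) : ℤ) : ℝ) := by
      push_cast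
      field_simp
      ring
    rw [h4, ee_add, ee_int, mul_one]
  -- the bounds for B
  have hBn : ∀ j j', ‖B j j'‖ ≤ T.card := by
    intro j j'
    rw [hB]
    refine (norm_sum_le _ _).trans ?_
    simp only [ee_norm, sum_const, nsmul_eq_mul, mul_one]
    exact le_rfl
  have hBε : ∀ j ∈ box d M, ∀ j' ∈ box d M, j ≠ j' → (∀ l, kk Q j j' l ∈ Fr Q D) → ‖B j j'‖ ≤ ε * T.card := by
    intro j hj j' hj' hne hk
    rw [mem_box] at hj hj'
    rw [hB]
    apply hexp (fun l => ((j l : ℝ) - j' l) / Q)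
    · intro l
      by_cases h : j l = j' l
      · left
        rw [h, sub_self, zero_div]
      · right
        rw [abs_div, abs_of_pos hQ0]
        have hz : ((j l : ℤ) - j' l) ≠ 0 := by omega
        constructor
        · have h1 := hk l
          unfold Fr at h1
          rw [mem_filter] at h1
          obtain ⟨_, M', hM'1, hM'2, hM'3⟩ := h1
          obtain ⟨v, hv⟩ := kk_int (Q := Q) (j := j) (j' := j') l (by have := hj' l; omega)
          have h2 : (Q : ℤ) ∣ ((j l : ℤ) - j' l) * M' := by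
            have h3 : (Q : ℤ) ∣ ((kk Q j j' l * M' : ℕ) : ℤ) := Int.natCast_dvd_natCast.2 hM'3
            push_cast at h3
            rw [hv] at h3
            have h4 : ((j l : ℤ) - j' l + Q * v) * M' = ((j l : ℤ) - j' l) * M' + Q * (v * M') := by ring
            rw [h4] at h3
            exact (Int.dvd_add_left (Dvd.intro _ rfl)).1 h3
          have h5 : ((j l : ℤ) - j' l) * M' ≠ 0 := mul_ne_zero hz (by omega)
          have h6 : (Q : ℤ) ≤ |((j l : ℤ) - j' l) * M'| := Int.le_of_dvd (abs_pos.2 h5) ((dvd_abs _ _).2 h2)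
          have h7 : (Q : ℝ) ≤ |(j l : ℝ) - j' l| * M' := by
            have : ((Q : ℤ) : ℝ) ≤ ((|((j l : ℤ) - j' l) * M'| : ℤ) : ℝ) := by exact_mod_cast h6
            rw [Int.cast_abs] at this
            push_cast at this
            rwa [abs_mul, abs_of_nonneg (Nat.cast_nonneg M' : (0 : ℝ) ≤ M')] at this
          have hM'r : (0 : ℝ) < M' := by exact_mod_cast hM'1
          have hDr : (M' : ℝ) ≤ D := by exact_mod_cast hM'2
          calc 1 / (D : ℝ) ≤ 1 / M' := one_div_le_one_div_of_le hM'r hDr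
            _ ≤ |(j l : ℝ) - j' l| / Q := by
                rw [div_le_div_iff₀ hM'r hQ0]
                linarith
        · rw [div_le_one hQ0]
          have h1 : |(j l : ℝ) - j' l| ≤ M := by
            rw [abs_le]
            have h2 : (j l : ℝ) ≤ M := by exact_mod_cast (hj l).le
            have h3 : (j' l : ℝ) ≤ M := by exact_mod_cast (hj' l).le
            have h4 : (0 : ℝ) ≤ j l := Nat.cast_nonneg _
            have h5 : (0 : ℝ) ≤ j' l := Nat.cast_nonneg _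
            constructor <;> linarith
          have : (M : ℝ) ≤ Q := by exact_mod_cast hMQ
          linarith
    · by_contra hcon
      push Not at hcon
      apply hne
      funext l
      have h1 := hcon l
      rw [div_eq_zero_iff] at h1
      rcases h1 with h1 | h1
      · have : (j l : ℝ) = j' l := by linarith
        exact_mod_cast this
      · exact absurd h1 hQ0.ne'
  -- the number of the pairs
  obtain ⟨F, hF⟩ : ∃ F : ℝ, F = ((Fr Q D).card : ℝ) ^ d := ⟨_, rfl⟩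
  rw [← hF]
  have hF0 : 0 ≤ F := by rw [hF]; exact pow_nonneg (Nat.cast_nonneg _) _
  have hcount : ((((box d M) ×ˢ (box d M)).filter (fun p => ∀ l, kk Q p.1 p.2 l ∈ Fr Q D)).card : ℝ) ≤ (M : ℝ) ^ d * F := by
    have h1 : (((box d M) ×ˢ (box d M)).filter (fun p => ∀ l, kk Q p.1 p.2 l ∈ Fr Q D)).card ≤
        ((box d M) ×ˢ (Fintype.piFinset (fun _ : Fin d => Fr Q D))).card := by
      apply card_le_card_of_injOn (fun p => (p.2, kk Q p.1 p.2))
      · intro p hp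
        rw [mem_coe, mem_filter, mem_product] at hp
        rw [mem_coe, mem_product, Fintype.mem_piFinset]
        exact ⟨hp.1.2, hp.2⟩
      · intro p hp p' hp' h
        rw [mem_coe, mem_filter, mem_product, mem_box, mem_box] at hp hp'
        have h1 : p.2 = p'.2 := congrArg Prod.fst h
        have h2 : kk Q p.1 p.2 = kk Q p'.1 p'.2 := congrArg Prod.snd h
        refine Prod.ext ?_ h1
        funext l
        have h3 := congrFun h2 l
        rw [← h1] at h3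
        unfold kk at h3
        have h4 : p.1 l ≡ p'.1 l [MOD Q] := Nat.ModEq.add_right_cancel' _ h3
        exact Nat.ModEq.eq_of_lt_of_lt h4 (by have := hp.1.1 l; omega) (by have := hp'.1.1 l; omega)
    rw [card_product, card_box, Fintype.card_piFinset_const] at h1
    rw [hF]
    exact_mod_cast h1
  have step3 : X ≤ ((Q : ℝ) ^ d * c0) * T.card * ((M : ℝ) ^ d * (1 + F * ε)) := by
    have hTc : (0 : ℝ) ≤ T.card := Nat.cast_nonneg _
    have hXn : X ≤ ‖(X : ℂ)‖ := by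
      rw [Complex.norm_real]
      exact le_abs_self _
    refine hXn.trans ?_
    rw [step2, ← sum_product']
    refine (norm_sum_le _ _).trans ?_
    have h1 : ∀ p ∈ (box d M) ×ˢ (box d M), ‖A p.1 p.2 * B p.1 p.2‖ ≤ ((Q : ℝ) ^ d * c0) * T.card *
        ((if p.1 = p.2 then (1 : ℝ) else 0) + (if ∀ l, kk Q p.1 p.2 l ∈ Fr Q D then ε else 0)) := by
      intro p hp
      rw [mem_product] at hp
      rw [norm_mul]
      have hAn' := hAn p.1 p.2
      have hBn' := hBn p.1 p.2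
      have hQc0 : 0 ≤ (Q : ℝ) ^ d * c0 := by positivity
      have hc2 : 0 ≤ (Q : ℝ) ^ d * c0 * T.card := mul_nonneg hQc0 hTc
      by_cases hfr : ∀ l, kk Q p.1 p.2 l ∈ Fr Q D
      · rw [if_pos hfr]
        by_cases heq : p.1 = p.2
        · rw [if_pos heq]
          have h2 : ‖A p.1 p.2‖ * ‖B p.1 p.2‖ ≤ ((Q : ℝ) ^ d * c0) * T.card := mul_le_mul hAn' hBn' (norm_nonneg _) hQc0
          have h3 : 0 ≤ (Q : ℝ) ^ d * c0 * T.card * ε := mul_nonneg hc2 hε
          nlinarith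
        · rw [if_neg heq, zero_add]
          have h2 := hBε p.1 hp.1 p.2 hp.2 heq hfr
          calc ‖A p.1 p.2‖ * ‖B p.1 p.2‖ ≤ ((Q : ℝ) ^ d * c0) * (ε * T.card) := mul_le_mul hAn' h2 (norm_nonneg _) hQc0
            _ = _ := by ring
      · have h2 := hA0 p.1 hp.1 p.2 hp.2 (by push Not at hfr; exact hfr)
        rw [h2, norm_zero, zero_mul]
        apply mul_nonneg hc2
        apply add_nonneg
        · split_ifs <;> norm_num
        · rw [if_neg hfr]
    refine (sum_le_sum h1).trans ?_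
    rw [← mul_sum, sum_add_distrib]
    apply mul_le_mul_of_nonneg_left _ (mul_nonneg (mul_nonneg (pow_nonneg hQ0.le _) hc00) hTc)
    have e1 : ∑ p ∈ (box d M) ×ˢ (box d M), (if p.1 = p.2 then (1 : ℝ) else 0) = (M : ℝ) ^ d := by
      rw [sum_product]
      have : ∀ j ∈ box d M, ∑ j' ∈ box d M, (if j = j' then (1 : ℝ) else 0) = 1 := by
        intro j hj
        rw [sum_ite_eq, if_pos hj]
      rw [sum_congr rfl this, sum_const, card_box, nsmul_eq_mul, mul_one]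
      push_cast
      rfl
    have e2 : ∑ p ∈ (box d M) ×ˢ (box d M), (if ∀ l, kk Q p.1 p.2 l ∈ Fr Q D then ε else 0) ≤ (M : ℝ) ^ d * F * ε := by
      rw [← sum_filter, sum_const, nsmul_eq_mul]
      exact mul_le_mul_of_nonneg_right hcount hε
    rw [e1]
    calc (M : ℝ) ^ d + ∑ p ∈ (box d M) ×ˢ (box d M), (if ∀ l, kk Q p.1 p.2 l ∈ Fr Q D then ε else 0) ≤
        (M : ℝ) ^ d + (M : ℝ) ^ d * F * ε := by linarith
      _ = _ := by ring
  -- conclusion
  have h1 := step1.trans step3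
  obtain ⟨Y, hY⟩ : ∃ Y : ℝ, Y = ∑ s ∈ S, H s.2 := ⟨_, rfl⟩
  rw [← hY] at h1 ⊢
  obtain ⟨G, hG⟩ : ∃ G : ℝ, G = c0 * (T.card * (1 + F * ε)) := ⟨_, rfl⟩
  have hG0 : 0 ≤ G := by
    rw [hG]
    exact mul_nonneg hc00 (mul_nonneg (Nat.cast_nonneg _) (add_nonneg zero_le_one (mul_nonneg hF0 hε)))
  rw [← hG]
  have h2 : Y * (((M : ℝ) / 2) ^ d) ^ 2 ≤ G * ((Q : ℝ) ^ d * (M : ℝ) ^ d) := by
    refine h1.trans (le_of_eq ?_)
    rw [hG]
    ring
  have h3 : (((M : ℝ) / 2) ^ d) ^ 2 = ((M : ℝ) ^ 2 / 4) ^ d := by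
    rw [← pow_mul, mul_comm d 2, pow_mul, div_pow]
    norm_num
  have h4 : (Q : ℝ) ^ d * (M : ℝ) ^ d ≤ (48 * w) ^ d * ((M : ℝ) ^ 2 / 4) ^ d := by
    rw [← mul_pow, ← mul_pow]
    apply pow_le_pow_left₀ (by positivity)
    have h5 : (Q : ℝ) ≤ 12 * w * M := by
      rw [div_le_iff₀ (by positivity)] at hMge
      linarith
    nlinarith
  have h5 : 0 < ((M : ℝ) ^ 2 / 4) ^ d := by positivity
  rw [h3] at h2
  have h6 : Y * ((M : ℝ) ^ 2 / 4) ^ d ≤ ((48 * w) ^ d * G) * ((M : ℝ) ^ 2 / 4) ^ d := by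
    refine h2.trans ?_
    calc G * ((Q : ℝ) ^ d * (M : ℝ) ^ d) ≤ G * ((48 * w) ^ d * ((M : ℝ) ^ 2 / 4) ^ d) := mul_le_mul_of_nonneg_left h4 hG0
      _ = _ := by ring
  exact le_of_mul_le_mul_right h6 h5

end Pool.Agent.Q56.WL
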