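import Pool.Agent.Q56.WL.Cen2
import Pool.Agent.Q93.KM.Avg

/-! Joint moments of Kloosterman sums at arguments near powers. -/

set_option autoImplicit false

namespace Pool.Agent.Q56.WL

open Finset
open Pool.Agent.Q235.FD (Sets)
open Pool.Agent.Q93.KM (dv jt jt_mod jt_bound avg_jt dv_mod avg_dv)

theorem kloosterman_near (s : ℕ) {m : ℕ} {e w : Fin s → ℝ} {μ : Fin s → Fin m} (hs : Setting e w μ) {δ : ℝ}
    (hδ : 0 < δ) (A W B : ℕ) :
    ForAlmostAll e w μ A W (fun (θ : Sets B) x m => ∀ P ∈ θ.S x,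
      |∑ p ∈ P, dv p m| ≤ Real.sqrt (max 1 P.card) * (x : ℝ) ^ δ ∧
      ∀ k : Fin s → ℕ, (∀ j, k j ≤ 4) → |∑ p ∈ P, jt k p m| ≤ Real.sqrt (max 1 P.card) * (x : ℝ) ^ δ) := by
  classical
  obtain ⟨u, hu⟩ : ∃ u : ℕ, u = Fintype.card (Fin s → Fin 5) := ⟨_, rfl⟩
  have h1 := centered2_near (L := Fin s) hs hδ (A + 1) W B u (fun _ => (univ : Finset (Fin s → Fin 5))) (by
    intro x hx
    rw [card_univ, ← hu]
    exact Nat.lt_two_pow_self.le.trans (Nat.pow_le_pow_left hx _)) (fun k p m => jt (fun j => (k j : ℕ)) p m)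
    (fun k p n _ => jt_mod _ p n)
    (C := s * 12 ^ s * 10 * (1 + 2 ^ s) + 16 ^ s + 2 ^ s) (by
      have : (1 : ℝ) ≤ 16 ^ s := one_le_pow₀ (by norm_num)
      have h2 : (0 : ℝ) ≤ s * 12 ^ s * 10 * (1 + 2 ^ s) := by positivity
      have h3 : (0 : ℝ) ≤ 2 ^ s := by positivity
      linarith) (fun k p n hp => by
      haveI : Fact p.Prime := ⟨hp⟩
      have h2 : (0 : ℝ) ≤ s * 12 ^ s * 10 * (1 + 2 ^ s) := by positivity
      have := jt_bound (p := p) (k := fun j => (k j : ℕ)) (fun j => by have := (k j).isLt; omega) n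
      linarith) (fun k p hp => by
      haveI : Fact p.Prime := ⟨hp⟩
      refine (avg_jt (p := p) (k := fun j => (k j : ℕ)) (fun j => by have := (k j).isLt; omega)).trans ?_
      refine div_le_div_of_nonneg_right ?_ (Real.sqrt_nonneg _)
      have h3 : (0 : ℝ) ≤ 16 ^ s := by positivity
      have h4 : (0 : ℝ) ≤ 2 ^ s := by positivity
      linarith)
  have h2 := centered2_near (L := Fin s) hs hδ (A + 1) W B 1 (fun _ => (univ : Finset Unit)) (by
    intro x hx
    rw [card_univ, Fintype.card_unit, pow_one]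
    omega) (fun _ p m => dv p m) (fun _ p n _ => dv_mod p n)
    (C := s * 12 ^ s * 10 + 1) (by
      have h2 : (0 : ℝ) ≤ s * 12 ^ s * 10 := by positivity
      linarith) (fun _ p n _ => by
      have h2 : (0 : ℝ) ≤ s * 12 ^ s * 10 := by positivity
      unfold dv
      split_ifs
      · rw [abs_one]; linarith
      · rw [abs_zero]; linarith) (fun _ p hp => by
      haveI : Fact p.Prime := ⟨hp⟩
      refine (avg_dv (p := p) (s := s)).trans ?_
      refine div_le_div_of_nonneg_right ?_ (Real.sqrt_nonneg _)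
      linarith)
  refine ForAlmostAll.and h1 h2 ?_
  intro θ x m g1 g2 P hP
  refine ⟨g2 P hP () (mem_univ _), fun k hk => ?_⟩
  exact g1 P hP (fun j => ⟨k j, by have := hk j; omega⟩) (mem_univ _)

end Pool.Agent.Q56.WL
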