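import Pool.Agent.Q56.WL.Ker

set_option autoImplicit false

/-! The number of the integer points near real vectors at which a sum of local functions is large. -/

namespace Pool.Agent.Q56.WL
open Finset
open Pool.Agent.TH894.NE (box mem_box card_box Per cfd ch' ch'_norm mean momentd cfd_zero Per.of_dvd)
open Pool.Agent.TH894.ND (ee ee_add ee_norm ee_int ee_zero ee_sum Fr Fr_card)

/-- the hypothesis on the exponential sums -/
def Ex {L : Type*} [Fintype L] {τ : Type*} (T : Finset τ) (R : τ → L → ℝ) (D ε : ℝ) : Prop :=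
  ∀ θ : L → ℝ, (∀ l, θ l = 0 ∨ (1 / D ≤ |θ l| ∧ |θ l| ≤ 1)) → (∃ l, θ l ≠ 0) →
    ‖∑ t ∈ T, ee (∑ l, θ l * R t l)‖ ≤ ε * T.card

lemma Ex.mono {L : Type*} [Fintype L] {τ : Type*} {T : Finset τ} {R : τ → L → ℝ} {D ε D' ε' : ℝ} (h : Ex T R D ε) (hD' : 0 < D')
    (hD : D' ≤ D) (hε : ε ≤ ε') : Ex T R D' ε' := by
  intro θ hθ hne
  refine (h θ (fun l => ?_) hne).trans (mul_le_mul_of_nonneg_right hε (Nat.cast_nonneg _))
  rcases hθ l with h1 | h1
  · exact Or.inl h1
  · exact Or.inr ⟨(one_div_le_one_div_of_le hD' hD).trans h1.1, h1.2⟩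

theorem bad_pairs {d : ℕ} (j : ℕ) {τ : Type*} (T : Finset τ) (R : τ → Fin d → ℝ) (w : ℝ)
    (hw : 1 ≤ w) (z : ℕ) (hz : 1 ≤ z)
    (hexp : Ex T R ((z : ℝ) ^ (2 * j)) (1 / (z : ℝ) ^ (4 * j * d)))
    {ι : Type*} [DecidableEq ι] (I : Finset ι) (q : ι → ℕ) (hq : ∀ a ∈ I, 1 ≤ q a ∧ q a ≤ z)
    (hcop : ∀ a ∈ I, ∀ a' ∈ I, a ≠ a' → Nat.Coprime (q a) (q a')) (F : ι → (Fin d → ℕ) → ℝ)
    (hF : ∀ a ∈ I, Per (q a) (F a) ∧ (∀ n, |F a n| ≤ 1) ∧ mean d (q a) (F a) = 0) (V : ℝ) (hV1 : 1 ≤ V)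
    (hV : ∑ a ∈ I, mean d (q a) (fun n => F a n ^ 2) ≤ V)
    (S : Finset (τ × (Fin d → ℕ))) (hS : ∀ s ∈ S, s.1 ∈ T ∧ ∀ l, |(s.2 l : ℝ) - R s.1 l| ≤ w) (c : ℝ) (hc : 0 ≤ c)
    (hbad : ∀ s ∈ S, Real.sqrt V * c < |∑ a ∈ I, F a s.2|) :
    (S.card : ℝ) * c ^ (2 * j) ≤ (48 * w) ^ d * (12 * ((2 * j).factorial : ℝ)) * T.card := by
  classical
  obtain ⟨W, hW⟩ := exists_nat_ge (6 * w)
  obtain ⟨P0, hP0, hP⟩ := Nat.exists_infinite_primes (max W (z + 1))
  have hP0W : W ≤ P0 := (le_max_left _ _).trans hP0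
  have hP0z : z + 1 ≤ P0 := (le_max_right _ _).trans hP0
  have hP01 : 1 ≤ P0 := by omega
  obtain ⟨Q, hQ⟩ : ∃ Q, Q = P0 * ∏ a ∈ I, q a := ⟨_, rfl⟩
  have hprod1 : 1 ≤ ∏ a ∈ I, q a :=
    Nat.one_le_iff_ne_zero.2 (prod_ne_zero_iff.2 fun a ha => by have := (hq a ha).1; omega)
  have hQP : P0 ≤ Q := by rw [hQ]; exact Nat.le_mul_of_pos_right _ (by omega)
  have hQ1 : 1 ≤ Q := by omega
  have hQw : 6 * w ≤ Q := by
    refine hW.trans ?_
    exact_mod_cast hP0W.trans hQP
  obtain ⟨H, hH⟩ : ∃ H : (Fin d → ℕ) → ℝ, H = fun n => (∑ a ∈ I, F a n) ^ (2 * j) := ⟨_, rfl⟩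
  have hdvd : ∀ a ∈ I, q a ∣ Q := by
    intro a ha
    rw [hQ]
    exact Dvd.dvd.mul_left (dvd_prod_of_mem q ha) _
  have hHQ : Per Q H := by
    intro m
    rw [hH]
    show (∑ a ∈ I, F a m) ^ (2 * j) = (∑ a ∈ I, F a (fun i => m i % Q)) ^ (2 * j)
    congr 1
    refine sum_congr rfl fun a ha => ?_
    exact ((hF a ha).1.of_dvd (hdvd a ha)) m
  have hH0 : ∀ n, 0 ≤ H n := by
    intro m
    rw [hH]
    exact (even_two_mul j).pow_nonneg _
  -- the moment
  have hmom := momentd (d := d) (insertNone I) (fun o => o.elim P0 q) (by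
      intro o ho
      cases o with
      | none => exact hP01
      | some a => exact (hq a (some_mem_insertNone.1 ho)).1) (by
      intro o ho o' ho' hne
      cases o with
      | none =>
        cases o' with
        | none => exact absurd rfl hne
        | some a =>
          show Nat.Coprime P0 (q a)
          rw [Nat.Prime.coprime_iff_not_dvd hP]
          intro hdv
          have h1 := (hq a (some_mem_insertNone.1 ho'))
          have := Nat.le_of_dvd (by omega) hdv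
          omega
      | some a =>
        cases o' with
        | none =>
          show Nat.Coprime (q a) P0
          rw [Nat.coprime_comm, Nat.Prime.coprime_iff_not_dvd hP]
          intro hdv
          have h1 := (hq a (some_mem_insertNone.1 ho))
          have := Nat.le_of_dvd (by omega) hdv
          omega
        | some a' =>
          exact hcop a (some_mem_insertNone.1 ho) a' (some_mem_insertNone.1 ho') (fun h => hne (by rw [h])))
    (fun o => o.elim (fun _ => 0) F) (by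
      intro o ho
      cases o with
      | none => intro n; rfl
      | some a => exact (hF a (some_mem_insertNone.1 ho)).1) (by
      intro o ho n
      cases o with
      | none => simp
      | some a => exact (hF a (some_mem_insertNone.1 ho)).2.1 n) (by
      intro o ho
      cases o with
      | none =>
        show mean d P0 (fun _ => 0) = 0
        unfold Pool.Agent.TH894.NE.mean
        simp
      | some a => exact (hF a (some_mem_insertNone.1 ho)).2.2) V hV1 (by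
      rw [sum_insertNone]
      have h0 : mean d P0 (fun _ => (0 : ℝ) ^ 2) = 0 := by
        unfold Pool.Agent.TH894.NE.mean
        simp
      show mean d P0 (fun _ => (0 : ℝ) ^ 2) + ∑ a ∈ I, mean d (q a) (fun n => F a n ^ 2) ≤ V
      rw [h0, zero_add]
      exact hV) j
  have hQ' : ∏ o ∈ insertNone I, (fun o : Option ι => o.elim P0 q) o = Q := by
    rw [prod_insertNone, hQ]
    rfl
  rw [hQ'] at hmom
  have hfun : (fun n : Fin d → ℕ => (∑ o ∈ insertNone I, (fun o : Option ι => o.elim (fun _ => (0 : ℝ)) F) o n) ^ (2 * j)) = H := by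
    rw [hH]
    funext n
    rw [sum_insertNone]
    show ((0 : ℝ) + ∑ a ∈ I, F a n) ^ (2 * j) = _
    rw [zero_add]
  have hmom2 : mean d Q H ≤ 6 * (2 * j).factorial * V ^ j := by
    rw [← hfun]
    exact hmom
  -- the kernel inequality
  have hD : ((z ^ (2 * j) : ℕ) : ℝ) = (z : ℝ) ^ (2 * j) := by push_cast; rfl
  have hz1 : (1 : ℝ) ≤ z := by exact_mod_cast hz
  have hε0 : (0 : ℝ) ≤ 1 / (z : ℝ) ^ (4 * j * d) := by positivity
  have hker := ker T R w hw Q hQw H hHQ hH0 (z ^ (2 * j)) (by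
      intro k hk hkF
      obtain ⟨i₀, hi₀⟩ := hkF
      rw [hH]
      exact cfd_zero I q F Q (2 * j) z hQ1 (fun a ha => ⟨(hq a ha).1, (hq a ha).2, hdvd a ha⟩)
        (fun a ha => (hF a ha).1) k hk i₀ hi₀) (1 / (z : ℝ) ^ (4 * j * d)) hε0 (by
      rw [hD]
      exact hexp) S hS
  have hFr : ((Fr Q (z ^ (2 * j))).card : ℝ) ^ d * (1 / (z : ℝ) ^ (4 * j * d)) ≤ 1 := by
    have h2 : ((Fr Q (z ^ (2 * j))).card : ℝ) ≤ (z : ℝ) ^ (4 * j) := by
      have h3 := Fr_card Q (z ^ (2 * j)) hQ1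
      have h4 : z ^ (2 * j) * z ^ (2 * j) = z ^ (4 * j) := by
        rw [← pow_add]
        congr 1
        ring
      rw [h4] at h3
      exact_mod_cast h3
    rw [mul_one_div, div_le_one (by positivity)]
    calc ((Fr Q (z ^ (2 * j))).card : ℝ) ^ d ≤ ((z : ℝ) ^ (4 * j)) ^ d := pow_le_pow_left₀ (Nat.cast_nonneg _) h2 _
      _ = _ := by rw [← pow_mul]
  have hTc : (0 : ℝ) ≤ T.card := Nat.cast_nonneg _
  have hfac : (0 : ℝ) < (2 * j).factorial := by exact_mod_cast Nat.factorial_pos _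
  have hVj : 0 < V ^ j := by positivity
  have htot : ∑ s ∈ S, H s.2 ≤ (48 * w) ^ d * ((6 * (2 * j).factorial * V ^ j) * (T.card * 2)) := by
    refine hker.trans ?_
    have h1 : 1 / (Q : ℝ) ^ d * ∑ n ∈ box d Q, H n = mean d Q H := rfl
    rw [h1]
    apply mul_le_mul_of_nonneg_left _ (by positivity)
    apply mul_le_mul hmom2 _ _ (by positivity)
    · apply mul_le_mul_of_nonneg_left _ hTc
      linarith
    · apply mul_nonneg hTc
      apply add_nonneg zero_le_one
      exact mul_nonneg (pow_nonneg (Nat.cast_nonneg _) _) hε0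
  have hcheb : (S.card : ℝ) * (V ^ j * c ^ (2 * j)) ≤ ∑ s ∈ S, H s.2 := by
    calc (S.card : ℝ) * (V ^ j * c ^ (2 * j)) = ∑ _s ∈ S, (V ^ j * c ^ (2 * j)) := by rw [sum_const, nsmul_eq_mul]
      _ ≤ ∑ s ∈ S, H s.2 := by
          refine sum_le_sum fun s hs => ?_
          rw [hH]
          show _ ≤ (∑ a ∈ I, F a s.2) ^ (2 * j)
          have h1 : V ^ j = (Real.sqrt V) ^ (2 * j) := by
            rw [pow_mul, Real.sq_sqrt (by linarith)]
          rw [h1, ← mul_pow, ← (even_two_mul j).pow_abs (∑ a ∈ I, F a s.2)]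
          exact pow_le_pow_left₀ (mul_nonneg (Real.sqrt_nonneg _) hc) (hbad s hs).le _
  have h5 := hcheb.trans htot
  have h6 : ((S.card : ℝ) * c ^ (2 * j)) * V ^ j ≤ ((48 * w) ^ d * (12 * ((2 * j).factorial : ℝ)) * T.card) * V ^ j := by
    calc ((S.card : ℝ) * c ^ (2 * j)) * V ^ j = (S.card : ℝ) * (V ^ j * c ^ (2 * j)) := by ring
      _ ≤ _ := h5
      _ = _ := by ring
  exact le_of_mul_le_mul_right h6 hVj

end Pool.Agent.Q56.WL
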