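import Pool.Agent.Q56.WL.Fam

/-! One-dimensional families: integers near `β + w * i ^ e`. -/

set_option autoImplicit false

namespace Pool.Agent.Q56.WL

open Finset

open Classical in
/-- The number of the indices `i` in `{1, ..., x}` for which not all nonnegative integers `m` with
`|m - (β + w * i ^ e)| ≤ W` have the property `P`. -/
noncomputable def badIndices (x : ℕ) (e w β W : ℝ) (P : ℕ → Prop) : ℕ :=
  ((Icc 1 x).filter (fun i : ℕ => ∃ m : ℕ, |(m : ℝ) - (β + w * (i : ℝ) ^ e)| ≤ W ∧ ¬ P m)).card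

lemma badIndices_mono {x : ℕ} {e w β W : ℝ} {P P' : ℕ → Prop} (h : ∀ m, P' m → P m) :
    badIndices x e w β W P ≤ badIndices x e w β W P' := by
  classical
  unfold badIndices
  apply card_le_card
  intro i hi
  rw [mem_filter] at hi ⊢
  obtain ⟨h1, m, h2, h3⟩ := hi
  exact ⟨h1, m, h2, fun h' => h3 (h _ h')⟩

lemma badIndices_eq (x : ℕ) (e w β W : ℝ) (P : ℕ → Prop) :
    badIndices x e w β W P = exceptions x (fun _ : Unit => e) (fun _ => w) (fun _ => β) (fun _ => (0 : Fin 1)) W (fun n => P (n ())) := by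
  classical
  unfold badIndices exceptions
  refine card_bij (fun i _ => fun _ => i) ?_ ?_ ?_
  · intro i hi
    rw [mem_filter] at hi ⊢
    obtain ⟨h1, m, h2, h3⟩ := hi
    refine ⟨?_, fun _ => m, fun _ => h2, h3⟩
    rw [Fintype.mem_piFinset]
    exact fun _ => h1
  · intro i _ i' _ h
    exact congrFun h 0
  · intro v hv
    rw [mem_filter, Fintype.mem_piFinset] at hv
    obtain ⟨h1, n, h2, h3⟩ := hv
    refine ⟨v 0, ?_, ?_⟩
    · rw [mem_filter]
      exact ⟨h1 0, n (), h2 (), h3⟩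
    · funext a
      rw [Subsingleton.elim a 0]

lemma setting_one {e w : ℝ} (he : 1 < e) (hk : ∀ k : ℕ, e ≠ k) (hw : w ≠ 0) :
    Setting (fun _ : Unit => e) (fun _ => w) (fun _ => (0 : Fin 1)) :=
  ⟨fun _ => ⟨he, hk⟩, fun _ => hw, fun _ _ _ _ => rfl⟩

/-- one-dimensional families -/
theorem one_dim {e w : ℝ} {A B : ℕ} {Θ : Type} {E : Θ → ℕ → (Unit → ℕ) → Prop}
    (h : ForAlmostAll (fun _ : Unit => e) (fun _ => w) (fun _ => (0 : Fin 1)) A B E) :
    ∃ c : ℝ, 0 < c ∧ ∃ y₀ : ℕ, ∀ (θ : Θ) (β : ℝ) (x y : ℕ), y₀ ≤ y →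
      (badIndices x e w β ((y : ℝ) ^ B) (fun m => ∀ z : ℕ, y ≤ z → (z : ℝ) ≤ (x : ℝ) ^ c → E θ z (fun _ => m)) : ℝ) ≤
        1 / (y : ℝ) ^ A * x := by
  obtain ⟨c, hc, y₀, H⟩ := h
  refine ⟨c, hc, y₀, fun θ β x y hy => ?_⟩
  have h1 := H θ (fun _ => β) x y hy
  rw [pow_one] at h1
  refine le_trans (le_of_eq ?_) h1
  rw [badIndices_eq]

end Pool.Agent.Q56.WL
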