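import Pool.Agent.Q56.WL.WJoint
import Pool.Agent.Q235.FD.PairSum

/-! Pairs of curves, near powers. -/

set_option autoImplicit false

namespace Pool.Agent.Q56.WL

open Finset Filter
open Pool.Agent.Q235.FD

/-- The property `E θ y z` holds, for all `z` in the range `y ≤ z ≤ x ^ c`, for ALL tuples of integers in the windows, for
almost all index vectors: as `ForAlmostAll`, for a property which depends also on `y`. -/
def ForAlmostAllFrom {L : Type} [Fintype L] {m : ℕ} (e w : L → ℝ) (μ : L → Fin m) (A B : ℕ) {Θ : Type}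
    (E : Θ → ℕ → ℕ → (L → ℕ) → Prop) : Prop :=
  ∃ c : ℝ, 0 < c ∧ ∃ y₀ : ℕ, ∀ (θ : Θ) (β : L → ℝ) (x y : ℕ), y₀ ≤ y →
    (exceptions x e w β μ ((y : ℝ) ^ B) (fun n => ∀ z : ℕ, y ≤ z → (z : ℝ) ≤ (x : ℝ) ^ c → E θ y z n) : ℝ) ≤
      1 / (y : ℝ) ^ A * (x : ℝ) ^ m

theorem ForAlmostAll.from' {L : Type} [Fintype L] {m : ℕ} {e w : L → ℝ} {μ : L → Fin m} {A B : ℕ} {Θ : Type}
    {F : Θ → ℕ → (L → ℕ) → Prop} {E : Θ → ℕ → ℕ → (L → ℕ) → Prop} (h1 : ForAlmostAll e w μ A B F) (y₁ : ℕ)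
    (h : ∀ θ y, y₁ ≤ y → ∃ θ', ∀ x m, y ≤ x → (∀ t, y ≤ t → t ≤ x → F θ' t m) → E θ y x m) :
    ForAlmostAllFrom e w μ A B E := by
  obtain ⟨c, hc, y₀, H⟩ := h1
  refine ⟨c, hc, y₀ + y₁, fun θ β x y hy => ?_⟩
  obtain ⟨θ', h'⟩ := h θ y (by omega)
  refine le_trans (Nat.cast_le.2 (exceptions_mono ?_)) (H θ' β x y (by omega))
  intro n hn z hz hzx
  exact h' z n hz fun t ht htz => hn t ht (le_trans (by exact_mod_cast htz) hzx)

theorem ForAlmostAllFrom.mono {L : Type} [Fintype L] {m : ℕ} {e w : L → ℝ} {μ : L → Fin m} {A B : ℕ} {Θ : Type}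
    {E F : Θ → ℕ → ℕ → (L → ℕ) → Prop} (h1 : ForAlmostAllFrom e w μ A B E)
    (h : ∀ θ y x n, y ≤ x → E θ y x n → F θ y x n) : ForAlmostAllFrom e w μ A B F := by
  obtain ⟨c, hc, y₀, H⟩ := h1
  refine ⟨c, hc, y₀, fun θ β x y hy => ?_⟩
  refine le_trans (Nat.cast_le.2 (exceptions_mono ?_)) (H θ β x y hy)
  exact fun n hn z hz hzx => h θ y z n hz (hn z hz hzx)

variable {s : ℕ} {D : Fin s → ℕ}

open scoped Classical in
/-- **The Dirichlet series of the products of two traces.** -/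
theorem pair_series_near (hs : 1 ≤ s) (hD : ∀ i, Odd (D i)) (hD' : ∀ i, 2 ≤ D i) {dm : ℕ} {ex ω : (Σ i, Fin (D i)) → ℝ} {μ : (Σ i, Fin (D i)) → Fin dm} (hset : Setting ex ω μ) {δ : ℝ} (hδ : 0 < δ) (A V B : ℕ) :
    ForAlmostAllFrom ex ω μ A V (fun (θ : Weights B) y x m => ∀ w ∈ θ.W y, ∀ z : ℂ, 1 / 2 + δ ≤ z.re →
      ‖primeSum y x (fun p => ((w p * Real.log p * jbad p m : ℝ) : ℂ) * (p : ℂ) ^ (-z))‖ ≤ (1 + ‖z‖) * (y : ℝ) ^ (-(δ / 4)) ∧
      ∀ i j : Fin s, ‖primeSum y x (fun p => ((w p * Real.log p * (if AllGood p m then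
          ntrace p (fun l => m ⟨i, l⟩) * ntrace p (fun l => m ⟨j, l⟩) - (if i = j then 1 else 0) else 0) : ℝ) : ℂ) *
          (p : ℂ) ^ (-z))‖ ≤ (1 + ‖z‖) * (y : ℝ) ^ (-(δ / 4))) := by
  obtain ⟨y₁, hy₁⟩ := half_plane hδ
  refine (wjoint_near (D := D) hs hD hset (show 0 < δ / 2 by positivity) A V B).from' y₁ ?_
  intro θ y hy
  refine ⟨constWeights θ y, fun x m hx h w hw z hz => ?_⟩
  have hw' : ∀ t, y ≤ t → w ∈ (constWeights θ y).W t := by
    intro t ht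
    show w ∈ if y ≤ t then θ.W y else ∅
    rw [if_pos ht]
    exact hw
  refine ⟨?_, fun i j => ?_⟩
  · exact hy₁ y x hy hx (fun p => w p * Real.log p * jbad p m) (fun t ht htx => (h t ht htx w (hw' t ht)).1) z hz
  · have hk : ∀ l, (Pi.single i 1 + Pi.single j 1 : Fin s → ℕ) l ≤ D l := by
      intro l
      rw [Pi.add_apply]
      have h1 : (Pi.single i 1 : Fin s → ℕ) l ≤ 1 := by
        by_cases h : l = i
        · rw [h, Pi.single_eq_same]
        · rw [Pi.single_eq_of_ne h]; omega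
      have h2 : (Pi.single j 1 : Fin s → ℕ) l ≤ 1 := by
        by_cases h : l = j
        · rw [h, Pi.single_eq_same]
        · rw [Pi.single_eq_of_ne h]; omega
      have := hD' l
      omega
    have e : ∀ p, (if AllGood p m then ntrace p (fun l => m ⟨i, l⟩) * ntrace p (fun l => m ⟨j, l⟩) - (if i = j then 1 else 0) else 0) =
        jpow (Pi.single i 1 + Pi.single j 1) p m := fun p => (jpow_pair i j p m).symm
    simp only [e]
    generalize (Pi.single i 1 + Pi.single j 1 : Fin s → ℕ) = k at hk ⊢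
    exact hy₁ y x hy hx (fun p => w p * Real.log p * jpow k p m) (fun t ht htx => (h t ht htx w (hw' t ht)).2 k hk) z hz

end Pool.Agent.Q56.WL
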