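import Pool.Agent.Q56.WL.Rough
import Pool.Agent.Q235.FD.Pencil

/-! Pencils with sections, near powers. -/

set_option autoImplicit false

namespace Pool.Agent.Q56.WL

open Finset Filter
open Pool.Agent.Q235.FD
open Polynomial

/-- **Nagao's sums for linear systems of hyperelliptic curves with sections.** -/
theorem pencils_near {s q m E : ℕ} {f : ℤ[X]} {c : Fin s → ℤ} (hodd : Odd (s + q)) (hq : 2 ≤ q) (hm : 1 ≤ m) (hE : 1 ≤ E)
    (hf : 2 * f.natDegree < s + q) (hc : Function.Injective c) (hfc : ∀ i, f.eval (c i) ≠ 0)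
    {dm : ℕ} {ex ω : Fin q × (Fin m → Fin (E + 1)) → ℝ} {μ : Fin q × (Fin m → Fin (E + 1)) → Fin dm} (hset : Setting ex ω μ) {δ : ℝ} (hδ : 0 < δ) (A V B : ℕ) :
    ForAlmostAll ex ω μ A V (fun (θ : Weights B) x n => ∀ w ∈ θ.W x,
      |∑ p ∈ primesTo x, w p * Real.log p * (fibreAverage f c p n + s)| ≤ (x : ℝ) ^ (1 / 2 + δ)) := by
  classical
  have : Nonempty (Fin q × (Fin m → Fin (E + 1))) := ⟨(⟨0, by omega⟩, fun _ => 0)⟩
  obtain ⟨ct, hct⟩ : ∃ ct : ℕ → ℝ, ct = fun p => avg p (fun n : Fin q × (Fin m → Fin (E + 1)) → ℕ => fibreAverage f c p n) := ⟨_, rfl⟩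
  have hct2 : ct 2 = 0 := by
    rw [hct]
    beta_reduce
    have e : (fun n : Fin q × (Fin m → Fin (E + 1)) → ℕ => fibreAverage f c 2 n) = fun _ => 0 := funext fun n => fibreAverage_two n
    rw [e, avg_const]
    norm_num
  have hq1 : (2 : ℝ) ≤ q := by exact_mod_cast hq
  have key := rough_near (L := Fin q × (Fin m → Fin (E + 1))) hset (show 0 < δ / 2 by positivity) A V B 0 (τ := Unit) (fun _ => {()}) (fun x _ => by simp)
    (fun _ p n => fibreAverage f c p n - ct p)
    (fun _ p n hp => by rw [fibreAverage_mod]) (C := (s : ℝ) + q + s) (by linarith [(Nat.cast_nonneg s : (0 : ℝ) ≤ s)]) (by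
      intro _ p n hp
      have : Fact p.Prime := ⟨hp⟩
      by_cases h2 : p = 2
      · subst h2
        rw [fibreAverage_two, hct2, sub_zero, abs_zero]
        positivity
      · rw [hct]
        beta_reduce
        rw [avg_fibre h2 hq hE, fibreAverage_eq h2]
        have := outside_bound (c := c) h2 hodd hf (fun l => (n l : ZMod p))
        rw [sub_neg_eq_add, abs_le] at *
        constructor <;> linarith [this.1, this.2]) (by
      intro _ p hp
      beta_reduce
      rw [avg_sub, avg_const hp.one_lt.le, hct]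
      beta_reduce
      rw [sub_self]) (by
      intro _ p hp
      have : Fact p.Prime := ⟨hp⟩
      have hp0 : (0 : ℝ) < p := by exact_mod_cast hp.pos
      have hp1 : (1 : ℝ) ≤ p := by exact_mod_cast hp.one_lt.le
      beta_reduce
      by_cases h2 : p = 2
      · subst h2
        have e : (fun n : Fin q × (Fin m → Fin (E + 1)) → ℕ => (fibreAverage f c 2 n - ct 2) ^ 2) = fun _ => 0 := funext fun n => by
          rw [fibreAverage_two, hct2]; norm_num
        rw [e, avg_const]
        · positivity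
        all_goals norm_num
      · have e : (fun n : Fin q × (Fin m → Fin (E + 1)) → ℕ => (fibreAverage f c p n - ct p) ^ 2) =
            fun n => (outside f c (fun l => (n l : ZMod p)) / (p : ℝ) ^ m) ^ 2 :=
          funext fun n => by
            rw [hct]
            beta_reduce
            rw [avg_fibre h2 hq hE, fibreAverage_eq h2]
            ring
        rw [e, avg_zmod (fun v => (outside f c v / (p : ℝ) ^ m) ^ 2)]
        simp only [div_pow]
        rw [← sum_div, div_div, div_le_iff₀ (by positivity)]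
        refine (outside_moments h2 hq hE).2.trans ?_
        have h3 : (p : ℝ) * (p : ℝ) ^ m ≤ (s + q + s) * ((p : ℝ) ^ m) ^ 2 := by
          have h4 : (p : ℝ) ≤ (p : ℝ) ^ m := le_self_pow₀ hp1 (by omega)
          have h5 : (0 : ℝ) < (p : ℝ) ^ m := by positivity
          have h6 : (1 : ℝ) ≤ (s : ℝ) + q + s := by linarith [(Nat.cast_nonneg s : (0 : ℝ) ≤ s)]
          calc (p : ℝ) * (p : ℝ) ^ m ≤ (p : ℝ) ^ m * (p : ℝ) ^ m := mul_le_mul_of_nonneg_right h4 h5.le
            _ = 1 * ((p : ℝ) ^ m) ^ 2 := by ring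
            _ ≤ _ := mul_le_mul_of_nonneg_right h6 (by positivity)
        calc (p * (p : ℝ) ^ m) * (p : ℝ) ^ Fintype.card (Fin q × (Fin m → Fin (E + 1))) ≤
              (s + q + s) * ((p : ℝ) ^ m) ^ 2 * (p : ℝ) ^ Fintype.card (Fin q × (Fin m → Fin (E + 1))) :=
              mul_le_mul_of_nonneg_right h3 (by positivity)
          _ = _ := by ring)
  -- the small primes
  obtain ⟨P₀, hP₀⟩ : ∃ P₀ : ℕ, P₀ = 2 + ∑ i, ∑ j, (c i - c j).natAbs + ∑ i, (f.eval (c i)).natAbs := ⟨_, rfl⟩
  have hbig : ∀ p : ℕ, p.Prime → P₀ < p → ct p = -(s : ℝ) := by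
    intro p hp hlt
    have : Fact p.Prime := ⟨hp⟩
    rw [hct]
    beta_reduce
    rw [avg_fibre (by omega) hq hE, rankMod_eq hc hfc]
    · intro i j
      have h1 : (c i - c j).natAbs ≤ ∑ j, (c i - c j).natAbs := single_le_sum (f := fun j => (c i - c j).natAbs) (fun _ _ => Nat.zero_le _) (mem_univ j)
      have h2 : ∑ j, (c i - c j).natAbs ≤ ∑ i, ∑ j, (c i - c j).natAbs :=
        single_le_sum (f := fun i => ∑ j, (c i - c j).natAbs) (fun _ _ => Nat.zero_le _) (mem_univ i)
      omega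
    · intro i
      have h1 : (f.eval (c i)).natAbs ≤ ∑ i, (f.eval (c i)).natAbs := single_le_sum (f := fun i => (f.eval (c i)).natAbs) (fun _ _ => Nat.zero_le _) (mem_univ i)
      omega
  have hsmall : ∀ p : ℕ, p.Prime → |ct p + s| ≤ s := by
    intro p hp
    have : Fact p.Prime := ⟨hp⟩
    by_cases h2 : p = 2
    · subst h2
      rw [hct2, zero_add, abs_of_nonneg (Nat.cast_nonneg _)]
    · rw [hct]
      beta_reduce
      rw [avg_fibre h2 hq hE, abs_le]
      have h3 := rankMod_le (p := p) (f := f) (c := c)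
      have h4 : (0 : ℝ) ≤ rankMod f c p := Nat.cast_nonneg _
      constructor <;> linarith
  obtain ⟨K₀, hK₀⟩ : ∃ K₀ : ℝ, K₀ = ∑ p ∈ primesTo P₀, Real.log p * s := ⟨_, rfl⟩
  have hlog : ∀ p : ℕ, p.Prime → 0 < Real.log p := fun p hp => Real.log_pos (by exact_mod_cast hp.one_lt)
  have hK0 : 0 ≤ K₀ := by
    rw [hK₀]
    exact sum_nonneg fun p hp => mul_nonneg (hlog p (mem_primesTo.1 hp).1).le (Nat.cast_nonneg _)
  obtain ⟨x₁, hx₁⟩ := eventually_le (δ := δ / 2) (by positivity) (K₀ + 2) (by positivity)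
  refine ForAlmostAll.mono key (x₁ + 1) ?_
  intro θ x n hx h w hw
  have h1 := h w hw () (mem_singleton_self _)
  have hx0 : (0 : ℝ) < x := by exact_mod_cast (by omega : 0 < x)
  have hx1 : (1 : ℝ) ≤ x := by exact_mod_cast (by omega : 1 ≤ x)
  have h2 : ∑ p ∈ primesTo x, w p * Real.log p * (fibreAverage f c p n + s) =
      ∑ p ∈ primesTo x, w p * Real.log p * (fibreAverage f c p n - ct p) + ∑ p ∈ primesTo x, w p * Real.log p * (ct p + s) := by
    rw [← sum_add_distrib]
    exact sum_congr rfl fun p _ => by ring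
  have h3 : |∑ p ∈ primesTo x, w p * Real.log p * (ct p + s)| ≤ K₀ := by
    have h4 : ∀ p ∈ primesTo x, |w p * Real.log p * (ct p + s)| ≤ if p ≤ P₀ then Real.log p * s else 0 := by
      intro p hp
      have hpp := (mem_primesTo.1 hp).1
      split_ifs with h5
      · rw [abs_mul, abs_mul, abs_of_pos (hlog p hpp)]
        have h6 := θ.bound x w hw p
        calc |w p| * Real.log p * |ct p + s| ≤ 1 * Real.log p * s :=
              mul_le_mul (mul_le_mul_of_nonneg_right h6 (hlog p hpp).le) (hsmall p hpp) (abs_nonneg _) (by rw [one_mul]; exact (hlog p hpp).le)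
          _ = _ := by ring
      · rw [hbig p hpp (by omega)]
        simp
    refine (abs_sum_le_sum_abs _ _).trans ((sum_le_sum h4).trans ?_)
    rw [← sum_filter, hK₀]
    apply sum_le_sum_of_subset_of_nonneg
    · intro p hp
      rw [mem_filter] at hp
      exact mem_primesTo.2 ⟨(mem_primesTo.1 hp.1).1, hp.2⟩
    · intro p hp _
      exact mul_nonneg (hlog p (mem_primesTo.1 hp).1).le (Nat.cast_nonneg _)
  rw [h2]
  refine (abs_add_le _ _).trans ((add_le_add h1 h3).trans ?_)
  have h7 := hx₁ x (by omega)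
  have h8 : 0 ≤ Real.log x := Real.log_nonneg hx1
  have h9 : (1 : ℝ) ≤ (x : ℝ) ^ (δ / 2 / 2) := Real.one_le_rpow hx1 (by positivity)
  have h10 : K₀ + 1 ≤ (x : ℝ) ^ (δ / 2) - 1 := by nlinarith
  have h11 : (1 : ℝ) ≤ (x : ℝ) ^ (1 / 2 + δ / 2) := Real.one_le_rpow hx1 (by positivity)
  have h12 : (x : ℝ) ^ (1 / 2 + δ) = (x : ℝ) ^ (1 / 2 + δ / 2) * (x : ℝ) ^ (δ / 2) := by
    rw [← Real.rpow_add hx0]
    congr 1
    ring
  rw [h12]
  nlinarith

end Pool.Agent.Q56.WL
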