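import Pool.Agent.Q56.WL.Rough
import Pool.Agent.Q235.FD.Plane

/-! Double planes, near powers. -/

set_option autoImplicit false

namespace Pool.Agent.Q56.WL

open Finset Filter
open Pool.Agent.Q235.FD

/-- **Tauberian Tate for double planes.** -/
theorem planes_near {d : ℕ} (hd : 2 ≤ d) {dm : ℕ} {ex ω : Mon d → ℝ} {μ : Mon d → Fin dm} (hset : Setting ex ω μ) {δ : ℝ} (hδ : 0 < δ) (A V B : ℕ) :
    ForAlmostAll ex ω μ A V (fun (θ : Weights B) x m => ∀ w ∈ θ.W x,
      |∑ p ∈ primesTo x, w p * Real.log p * (planeTrace d p m / p - 1)| ≤ (x : ℝ) ^ (1 / 2 + δ)) := by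
  classical
  have hd0 : (2 : ℝ) ≤ d := by exact_mod_cast hd
  have : Nonempty (Mon d) := ⟨monOf d (2 * d) 0 (by omega) (by omega)⟩
  have key := rough_near (L := Mon d) hset hδ A V B 0 (τ := Unit) (fun _ => {()}) (fun x _ => by simp) (fun _ p n => planeDev d p n)
    (fun _ p n hp => by
      unfold planeDev planeTrace
      rw [planePoints_mod]) (C := 2 * d) (by linarith) (by
      intro _ p n hp
      have : Fact p.Prime := ⟨hp⟩
      have hp0 : (0 : ℝ) < p := by exact_mod_cast hp.pos
      by_cases h2 : p = 2
      · subst h2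
        rw [planeDev_two, abs_zero]
        positivity
      · rw [planeDev_eq h2, abs_div, abs_of_pos hp0, div_le_iff₀ hp0, mul_assoc]
        exact planeSum_bound hd h2 _) (by
      intro _ p hp
      have : Fact p.Prime := ⟨hp⟩
      by_cases h2 : p = 2
      · subst h2
        have e : (fun n : Mon d → ℕ => planeDev d 2 n) = fun _ => 0 := funext fun n => planeDev_two n
        beta_reduce
        rw [e, avg_const]
        norm_num
      · have e : (fun n : Mon d → ℕ => planeDev d p n) = fun n => planeSum d p (fun l => (n l : ZMod p)) / p :=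
          funext fun n => planeDev_eq h2 n
        beta_reduce
        rw [e, avg_zmod (fun v => planeSum d p v / p), ← sum_div, (planeSum_moments hd h2).1]
        simp) (by
      intro _ p hp
      have : Fact p.Prime := ⟨hp⟩
      have hp0 : (0 : ℝ) < p := by exact_mod_cast hp.pos
      have hp1 : (1 : ℝ) ≤ p := by exact_mod_cast hp.one_lt.le
      by_cases h2 : p = 2
      · subst h2
        have e : (fun n : Mon d → ℕ => planeDev d 2 n ^ 2) = fun _ => 0 := funext fun n => by
          rw [planeDev_two]; norm_num
        beta_reduce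
        rw [e, avg_const]
        · positivity
        all_goals norm_num
      · have e : (fun n : Mon d → ℕ => planeDev d p n ^ 2) = fun n => (planeSum d p (fun l => (n l : ZMod p)) / p) ^ 2 :=
          funext fun n => by rw [planeDev_eq h2 n]
        beta_reduce
        rw [e, avg_zmod (fun v => (planeSum d p v / p) ^ 2)]
        simp only [div_pow]
        rw [← sum_div, div_div, div_le_iff₀ (by positivity)]
        refine (planeSum_moments hd h2).2.trans ?_
        have h3 : (p : ℝ) ^ 2 + p ≤ 2 * d * (p : ℝ) ^ 2 := by nlinarith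
        calc ((p : ℝ) ^ 2 + p) * (p : ℝ) ^ Fintype.card (Mon d) ≤ 2 * d * (p : ℝ) ^ 2 * (p : ℝ) ^ Fintype.card (Mon d) :=
              mul_le_mul_of_nonneg_right h3 (by positivity)
          _ = _ := by ring)
  refine ForAlmostAll.mono key 0 ?_
  intro θ x m _ h w hw
  exact h w hw () (mem_singleton_self _)

end Pool.Agent.Q56.WL
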