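import Pool.Agent.Q56.WL.One
import Pool.Agent.Q235.FD.Hyp
import Pool.Agent.TH894.NG3

/-! Quadratic residues, near powers. -/

set_option autoImplicit false

namespace Pool.Agent.Q56.WL

open Finset Filter
open Pool.Agent.Q235.FD (Sets number propData law_prop proportion avg avg_ind avg_zmod)
open Pool.Agent.TH894.ND (mu mu_nonneg mu_le_one sum_inv card_zmod)
open Pool.Agent.TH894.NG (Tq cq mu_q dvd_count)

lemma proportion_unit {p : ℕ} (hp : p.Prime) (T : ZMod p → Prop) :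
    proportion (L := Unit) p (fun n => T ((n () : ℕ) : ZMod p)) = mu p T := by
  classical
  haveI : Fact p.Prime := ⟨hp⟩
  rw [← avg_ind, avg_zmod (fun v : Unit → ZMod p => if T (v ()) then (1 : ℝ) else 0)]
  unfold mu
  rw [Fintype.card_unit, pow_one, card_zmod p T]
  congr 1
  rw [card_filter]
  push_cast
  refine (Equiv.sum_comp (Equiv.funUnique Unit (ZMod p)).symm (fun v : Unit → ZMod p => if T (v ()) then (1 : ℝ) else 0)).symm.trans ?_
  refine sum_congr rfl fun z _ => ?_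
  simp only [Equiv.funUnique_symm_apply, uniqueElim_const]

theorem quad_near {e w : ℝ} (he : 1 < e) (hk : ∀ k : ℕ, e ≠ k) (hw : w ≠ 0) {δ : ℝ} (hδ : 0 < δ) (A V B A' : ℕ) :
    ForAlmostAll (fun _ : Unit => e) (fun _ => w) (fun _ => (0 : Fin 1)) A V
      (fun (θ : Sets B) x n => ∀ P ∈ θ.S x, ∀ i : ℤ × Bool, i.1 ≠ 0 → |i.1| ≤ (x : ℤ) ^ A' →
        |(cq P i (n ()) : ℝ) - (P.card : ℝ) / 2| ≤ Real.sqrt P.card * (x : ℝ) ^ δ) := by
  classical
  have hl2 : 0 < Real.log 2 := Real.log_pos (by norm_num)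
  have hev : ∀ᶠ x : ℕ in atTop, (A' / Real.log 2 + 1) * Real.log x + 2 ≤ (x : ℝ) ^ (δ / 2) * ((x : ℝ) ^ (δ / 2) - 1) := by
    have h1 : Tendsto (fun x : ℕ => (x : ℝ) ^ (δ / 2)) atTop atTop := (tendsto_rpow_atTop (by positivity)).comp tendsto_natCast_atTop_atTop
    have h2 : ∀ᶠ x : ℝ in atTop, Real.log x ≤ x ^ (δ / 2) := by
      have h3 := (isLittleO_log_rpow_atTop (by positivity : 0 < δ / 2)).bound (by norm_num : (0 : ℝ) < 1)
      filter_upwards [h3, eventually_gt_atTop 1] with x hx hx1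
      rw [Real.norm_of_nonneg (Real.log_nonneg hx1.le), Real.norm_of_nonneg (by positivity), one_mul] at hx
      exact hx
    have h3 := tendsto_natCast_atTop_atTop.eventually h2
    filter_upwards [h1.eventually (eventually_ge_atTop ((A' / Real.log 2 + 1) + 3)), h3] with x hx1 hx2
    obtain ⟨t, ht⟩ : ∃ t : ℝ, t = (x : ℝ) ^ (δ / 2) := ⟨_, rfl⟩
    rw [← ht] at hx1 hx2 ⊢
    have h4 : 0 ≤ A' / Real.log 2 := by positivity
    have h5 : (A' / Real.log 2 + 1) * Real.log x ≤ (A' / Real.log 2 + 1) * t := mul_le_mul_of_nonneg_left hx2 (by linarith)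
    nlinarith
  obtain ⟨x₁, hx₁⟩ := eventually_atTop.1 hev
  obtain ⟨U, hU⟩ : ∃ U : ℕ → Finset (ℤ × Bool), U = fun (x : ℕ) => if x < 5 then ∅ else (Icc (-((x : ℤ) ^ A')) ((x : ℤ) ^ A')) ×ˢ univ := ⟨_, rfl⟩
  have hUc : ∀ x, 2 ≤ x → (U x).card ≤ x ^ (A' + 3) := by
    intro x _
    rw [hU]
    show (if x < 5 then ∅ else (Icc (-((x : ℤ) ^ A')) ((x : ℤ) ^ A')) ×ˢ (univ : Finset Bool)).card ≤ _
    split_ifs with hx
    · rw [card_empty]
      exact Nat.zero_le _
    · rw [card_product, Int.card_Icc, card_univ, Fintype.card_bool]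
      have e1 : ((x : ℤ) ^ A' + 1 - -((x : ℤ) ^ A')).toNat = 2 * x ^ A' + 1 := by
        have : (x : ℤ) ^ A' + 1 - -((x : ℤ) ^ A') = ((2 * x ^ A' + 1 : ℕ) : ℤ) := by push_cast; ring
        rw [this, Int.toNat_natCast]
      rw [e1, pow_add]
      have h1 : 1 ≤ x ^ A' := Nat.one_le_pow _ _ (by omega)
      have h2 : 5 ^ 3 ≤ x ^ 3 := Nat.pow_le_pow_left (by omega) 3
      nlinarith
  refine forAlmostAll_of (setting_one he hk hw) (show 0 < δ / 2 by positivity) A V
    (fun θ : Sets B => propData θ U hUc (fun (i : ℤ × Bool) p (n : Unit → ℕ) => Tq i p ((n () : ℕ) : ZMod p)) (fun i p n => by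
      rw [ZMod.natCast_mod])) (x₁ + 5) ?_
  intro θ x n hx h P hP i hi0 hi
  have hPr := θ.prime x P hP
  have h1 := law_prop θ U hUc _ _ h P hP i (by
    rw [hU]
    show i ∈ (if x < 5 then ∅ else (Icc (-((x : ℤ) ^ A')) ((x : ℤ) ^ A')) ×ˢ univ)
    rw [if_neg (by omega), mem_product, mem_Icc]
    rw [abs_le] at hi
    exact ⟨hi, mem_univ _⟩)
  have hpr : ∑ p ∈ P, proportion (L := Unit) p (fun n => Tq i p ((n () : ℕ) : ZMod p)) = ∑ p ∈ P, mu p (Tq i p) :=
    sum_congr rfl fun p hp => proportion_unit (hPr p hp).1 (Tq i p)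
  have hnum : number P (fun p => Tq i p ((n () : ℕ) : ZMod p)) = cq P i (n ()) := by
    unfold number cq
    refine congrArg card ?_
    ext p
    simp only [mem_filter]
  rw [hpr, hnum] at h1
  have hxr1 : (1 : ℝ) ≤ x := by exact_mod_cast (by omega : 1 ≤ x)
  rcases P.eq_empty_or_nonempty with h0 | h0
  · subst h0
    unfold Pool.Agent.TH894.NG.cq
    simp
  have hcard : 0 < P.card := h0.card_pos
  -- the main term
  have hmain : |∑ p ∈ P, mu p (Tq i p) - (P.card : ℝ) / 2| ≤ (A' / Real.log 2 + 1) * Real.log x + 2 := by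
    have h1 : ∑ p ∈ P, mu p (Tq i p) - (P.card : ℝ) / 2 = ∑ p ∈ P, (mu p (Tq i p) - 1 / 2) := by
      rw [sum_sub_distrib, sum_const, nsmul_eq_mul]
      ring
    rw [h1]
    refine (abs_sum_le_sum_abs _ _).trans ?_
    have h2 : ∀ p ∈ P, |mu p (Tq i p) - 1 / 2| ≤ (if (p : ℤ) ∣ i.1 then 1 else 0) + 1 / p + (if p = 2 then 1 else 0) := by
      intro p hp
      haveI : Fact p.Prime := ⟨(hPr p hp).1⟩
      exact mu_q i p
    refine (sum_le_sum h2).trans ?_
    rw [sum_add_distrib, sum_add_distrib]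
    have h3 : ∑ p ∈ P, (if (p : ℤ) ∣ i.1 then (1 : ℝ) else 0) ≤ A' / Real.log 2 * Real.log x := by
      rw [← sum_filter, sum_const, nsmul_eq_mul, mul_one]
      have h4 := dvd_count P (fun p hp => (hPr p hp).1) i.1 hi0
      have h5 : Real.log |(i.1 : ℝ)| ≤ A' * Real.log x := by
        rw [← Real.log_pow]
        apply Real.log_le_log
        · exact abs_pos.2 (by exact_mod_cast hi0)
        · have : ((|i.1| : ℤ) : ℝ) ≤ (((x : ℤ) ^ A' : ℤ) : ℝ) := by exact_mod_cast hi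
          push_cast at this
          exact this
      have h6 := h4.trans h5
      rw [div_mul_eq_mul_div, le_div_iff₀ hl2]
      exact h6
    have h4 := sum_inv x (by omega) P hPr
    have h5 : ∑ p ∈ P, (if p = 2 then (1 : ℝ) else 0) ≤ 1 := by
      rw [sum_ite_eq']
      split_ifs <;> norm_num
    linarith
  have hP1 : (1 : ℝ) ≤ P.card := by exact_mod_cast hcard
  have hs1 : 1 ≤ Real.sqrt P.card := by
    rw [Real.one_le_sqrt]
    exact hP1
  have hmu : ∑ p ∈ P, mu p (Tq i p) ≤ P.card := by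
    calc ∑ p ∈ P, mu p (Tq i p) ≤ ∑ p ∈ P, (1 : ℝ) := sum_le_sum fun p _ => mu_le_one p (Tq i p)
      _ = P.card := by simp
  have hsq : Real.sqrt (max 1 (∑ p ∈ P, mu p (Tq i p))) ≤ Real.sqrt P.card := Real.sqrt_le_sqrt (max_le hP1 hmu)
  have h6 := hx₁ x (by omega)
  obtain ⟨t, ht⟩ : ∃ t : ℝ, t = (x : ℝ) ^ (δ / 2) := ⟨_, rfl⟩
  have ht2 : (x : ℝ) ^ δ = t * t := by
    rw [ht, ← Real.rpow_add (by linarith)]
    congr 1
    ring
  have ht1 : 1 ≤ t := by rw [ht]; exact Real.one_le_rpow hxr1 (by positivity)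
  rw [← ht] at h6 h1
  rw [ht2]
  have h7 : Real.sqrt P.card * (t * t) - Real.sqrt P.card * t ≥ t * (t - 1) := by
    have : Real.sqrt P.card * (t * t) - Real.sqrt P.card * t = Real.sqrt P.card * (t * (t - 1)) := by ring
    rw [this]
    have h8 : 0 ≤ t * (t - 1) := mul_nonneg (by linarith) (by linarith)
    nlinarith
  have h10 : Real.sqrt (max 1 (∑ p ∈ P, mu p (Tq i p))) * t ≤ Real.sqrt P.card * t :=
    mul_le_mul_of_nonneg_right hsq (by linarith)
  have h9 := abs_sub_le (cq P i (n ()) : ℝ) (∑ p ∈ P, mu p (Tq i p)) (P.card / 2)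
  linarith

end Pool.Agent.Q56.WL
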