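import Pool.Agent.Q56.WL.Fam
import Pool.Agent.Q93.LT.Many

/-! Many primes modulo which a polynomial is separable and has a root, near powers. -/

set_option autoImplicit false

namespace Pool.Agent.Q56.WL

open Finset Filter Polynomial Topology
open Pool.Agent.Q235.FD (Sets number propData law_prop proportion)
open Pool.Agent.Q93.LT (PX mem_PX theta proportion_le_one pi_lower card_PX card_PX_le big Rt Rt_mod prop_lower)

/-- many primes -/
theorem many_roots_near (n : ℕ) (hn : 2 ≤ n) {dm : ℕ} {ex ω : Fin n → ℝ} {μ : Fin n → Fin dm} (hset : Setting ex ω μ) (A V : ℕ) :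
    ForAlmostAll ex ω μ A V (fun (_ : Unit) x m => (x : ℝ) / (16 * Real.log x) ≤ number (PX n x) (fun p => Rt p m)) := by
  classical
  obtain ⟨y₁, hy₁⟩ := eventually_atTop.1 (pi_lower.and (big n))
  refine forAlmostAll_of hset (show (0 : ℝ) < 1 / 4 by norm_num) A V (A₂ := 0 + 0) (fun _ : Unit => propData (theta n) (fun _ => (univ : Finset Unit))
    (by intro x hx; simp) (fun _ p m => Rt p m) (fun _ p m => Rt_mod p m)) (y₁ + 2) ?_
  intro _ x m hx h
  obtain ⟨h1, h2⟩ := hy₁ x (by omega)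
  have h3 := law_prop (theta n) _ _ _ _ h (PX n x) (by show PX n x ∈ ({PX n x} : Finset (Finset ℕ)); exact mem_singleton_self _) () (mem_univ _)
  have hx2 : (2 : ℝ) ≤ x := by exact_mod_cast (by omega : 2 ≤ x)
  have hx0 : (0 : ℝ) < x := by linarith
  obtain ⟨Sg, hSg⟩ : ∃ Sg, Sg = ∑ p ∈ PX n x, proportion p (Rt (n := n) p) := ⟨_, rfl⟩
  rw [← hSg] at h3
  have h4 : ((PX n x).card : ℝ) / 4 ≤ Sg := by
    rw [hSg]
    have : ∀ p ∈ PX n x, (1 : ℝ) / 4 ≤ proportion p (Rt (n := n) p) := by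
      intro p hp
      rw [mem_PX] at hp
      refine le_trans ?_ (prop_lower hn hp.1)
      have hp0 : (0 : ℝ) < p := by exact_mod_cast hp.1.pos
      have h5 : (n : ℝ) / p ≤ 1 / 4 := by
        rw [div_le_div_iff₀ hp0 (by norm_num)]
        have : ((4 * n : ℕ) : ℝ) ≤ p := by exact_mod_cast hp.2.2
        push_cast at this
        linarith
      linarith
    have h6 := sum_le_sum this
    rw [sum_const, nsmul_eq_mul] at h6
    linarith
  have h5 : Sg ≤ x := by
    rw [hSg]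
    have : ∀ p ∈ PX n x, proportion p (Rt (n := n) p) ≤ (1 : ℝ) := fun p hp => proportion_le_one (mem_PX.1 hp).1 _
    have h6 := sum_le_sum this
    rw [sum_const, nsmul_eq_mul, mul_one] at h6
    exact h6.trans (card_PX_le n x)
  have h6 : Real.sqrt (max 1 Sg) * (x : ℝ) ^ (1 / 4 : ℝ) ≤ (x : ℝ) ^ (3 / 4 : ℝ) := by
    have h7 : Real.sqrt (max 1 Sg) ≤ (x : ℝ) ^ (1 / 2 : ℝ) := by
      rw [← Real.sqrt_eq_rpow]
      exact Real.sqrt_le_sqrt (max_le (by linarith) h5)
    calc Real.sqrt (max 1 Sg) * (x : ℝ) ^ (1 / 4 : ℝ) ≤ (x : ℝ) ^ (1 / 2 : ℝ) * (x : ℝ) ^ (1 / 4 : ℝ) :=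
          mul_le_mul_of_nonneg_right h7 (by positivity)
      _ = (x : ℝ) ^ (3 / 4 : ℝ) := by rw [← Real.rpow_add hx0]; norm_num
  have h7 := (abs_le.1 h3).1
  have h8 := card_PX n x
  have h9 : (x : ℝ) / (2 * Real.log x) = 8 * (x / (16 * Real.log x)) := by
    have hlog : 0 < Real.log x := Real.log_pos (by linarith)
    field_simp
    norm_num
  rw [h9] at h1
  have h10 : (number (PX n x) (fun p => Rt p m) : ℝ) ≥ Sg - (x : ℝ) ^ (3 / 4 : ℝ) := by linarith
  linarith

end Pool.Agent.Q56.WL
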