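import Pool.Agent.Q56.WL.Cen
import Pool.Agent.Q235.FD.WJoint

/-! Functions of the size `p ^ (1 / 2)`, near powers. -/

set_option autoImplicit false

namespace Pool.Agent.Q56.WL

open Finset Filter
open Pool.Agent.Q235.FD

variable {L : Type} [Fintype L]

/-- functions of the size `p ^ (1 / 2)` with the average zero and bounded mean square -/
theorem rough_near {dm : ℕ} {ex ω : L → ℝ} {μ : L → Fin dm} (hset : Setting ex ω μ) {δ : ℝ} (hδ : 0 < δ) (A V B A₃ : ℕ) {τ : Type} (U : ℕ → Finset τ)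
    (hU : ∀ x, 2 ≤ x → (U x).card ≤ x ^ A₃) (G : τ → ℕ → (L → ℕ) → ℝ)
    (hper : ∀ t p n, p.Prime → G t p n = G t p (fun i => n i % p)) {C : ℝ} (hC : 1 ≤ C)
    (hbd : ∀ t p n, p.Prime → |G t p n| ≤ C * Real.sqrt p) (hav : ∀ t p, p.Prime → avg p (G t p) = 0)
    (hsq : ∀ t p, p.Prime → avg p (fun n => G t p n ^ 2) ≤ C) :
    ForAlmostAll ex ω μ A V (fun (θ : Weights B) x m => ∀ w ∈ θ.W x, ∀ t ∈ U x,
      |∑ p ∈ primesTo x, w p * Real.log p * G t p m| ≤ (x : ℝ) ^ (1 / 2 + δ)) := by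
  have hC0 : 0 < C := by linarith
  have h1 : Tendsto (fun x : ℝ => x ^ (δ / 2)) atTop atTop := tendsto_rpow_atTop (by positivity)
  have hev := (h1.comp tendsto_natCast_atTop_atTop).eventually (eventually_ge_atTop (C * (4 / δ)))
  obtain ⟨x₁, hx₁⟩ := eventually_atTop.1 hev
  refine forAlmostAll_of hset (show 0 < δ / 4 by positivity) A V (fun θ : Weights B => roughData θ U hU G hper hC hbd) (x₁ + 3) ?_
  intro θ x m hx h w hw t ht
  have hx3 : (3 : ℝ) ≤ x := by exact_mod_cast (by omega : 3 ≤ x)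
  have hx0 : (0 : ℝ) < x := by linarith
  have hlx : 0 < Real.log x := Real.log_pos (by linarith)
  have hsx : 0 < Real.sqrt x := Real.sqrt_pos.2 hx0
  have h2 := h (w, t) (mem_product.2 ⟨hw, ht⟩)
  have hP : (roughData θ U hU G hper hC hbd).P x (w, t) = primesTo x := rfl
  have hG : ∀ p n, (roughData θ U hU G hper hC hbd).G x (w, t) p n = (w p * (Real.log p / Real.log x) / (C * Real.sqrt x)) * G t p n := by
    intro p n
    show (if |w p| ≤ 1 then w p * (Real.log p / Real.log x) * (G t p n / (C * Real.sqrt x)) else 0) = _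
    rw [if_pos (θ.bound x w hw p)]
    ring
  have hG' : ∀ p, (roughData θ U hU G hper hC hbd).G x (w, t) p = fun n => (w p * (Real.log p / Real.log x) / (C * Real.sqrt x)) * G t p n :=
    fun p => funext fun n => hG p n
  rw [hP] at h2
  have h3 : ∑ p ∈ primesTo x, avg p ((roughData θ U hU G hper hC hbd).G x (w, t) p) = 0 := by
    apply sum_eq_zero
    intro p hp
    rw [hG' p, avg_mul, hav t p (mem_primesTo.1 hp).1, mul_zero]
  have h4 : ∑ p ∈ primesTo x, avg p (fun n => (roughData θ U hU G hper hC hbd).G x (w, t) p n ^ 2) ≤ 1 := by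
    have h5 : ∀ p ∈ primesTo x, avg p (fun n => (roughData θ U hU G hper hC hbd).G x (w, t) p n ^ 2) ≤ 1 / x := by
      intro p hp
      have hpp := (mem_primesTo.1 hp).1
      have hp1 : (1 : ℝ) < p := by exact_mod_cast hpp.one_lt
      have hpx : (p : ℝ) ≤ x := by exact_mod_cast (mem_primesTo.1 hp).2
      have hlp : 0 < Real.log p := Real.log_pos hp1
      have e1 : (fun n => (roughData θ U hU G hper hC hbd).G x (w, t) p n ^ 2) =
          fun n => (w p * (Real.log p / Real.log x) / (C * Real.sqrt x)) ^ 2 * G t p n ^ 2 := by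
        funext n
        rw [hG, mul_pow]
      rw [e1, avg_mul]
      have h6 : |w p * (Real.log p / Real.log x)| ≤ 1 := by
        rw [abs_mul]
        have h7 : |Real.log p / Real.log x| ≤ 1 := by
          rw [abs_of_nonneg (div_nonneg hlp.le hlx.le), div_le_one hlx]
          exact Real.log_le_log (by linarith) hpx
        calc |w p| * |Real.log p / Real.log x| ≤ 1 * 1 := mul_le_mul (θ.bound x w hw p) h7 (abs_nonneg _) (by norm_num)
          _ = 1 := by norm_num
      have h8 : (w p * (Real.log p / Real.log x) / (C * Real.sqrt x)) ^ 2 ≤ 1 / (C ^ 2 * x) := by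
        rw [div_pow, mul_pow C, Real.sq_sqrt hx0.le]
        apply div_le_div_of_nonneg_right _ (by positivity)
        rw [← sq_abs]
        exact pow_le_one₀ (abs_nonneg _) h6
      have h9 := avg_nonneg (p := p) (F := fun n => G t p n ^ 2) (fun n => sq_nonneg _)
      calc (w p * (Real.log p / Real.log x) / (C * Real.sqrt x)) ^ 2 * avg p (fun n => G t p n ^ 2) ≤ 1 / (C ^ 2 * x) * C :=
            mul_le_mul h8 (hsq t p hpp) h9 (by positivity)
        _ = 1 / (C * x) := by field_simp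
        _ ≤ 1 / x := by
            apply one_div_le_one_div_of_le hx0
            nlinarith
    refine (sum_le_sum h5).trans ?_
    rw [sum_const, nsmul_eq_mul, mul_one_div, div_le_one hx0]
    exact card_primesTo x
  rw [h3, sub_zero, max_eq_left h4, Real.sqrt_one, one_mul] at h2
  have h10 : ∑ p ∈ primesTo x, (roughData θ U hU G hper hC hbd).G x (w, t) p m =
      (∑ p ∈ primesTo x, w p * Real.log p * G t p m) / (Real.log x * (C * Real.sqrt x)) := by
    rw [sum_div]
    refine sum_congr rfl fun p _ => ?_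
    rw [hG]
    field_simp
  have hden : 0 < Real.log x * (C * Real.sqrt x) := by positivity
  rw [h10, abs_div, abs_of_pos hden, div_le_iff₀ hden] at h2
  refine h2.trans ?_
  have hlog : Real.log x ≤ (x : ℝ) ^ (δ / 4) / (δ / 4) := Real.log_le_rpow_div hx0.le (by positivity)
  have h11 := hx₁ x (by omega)
  have h11' : C * (4 / δ) ≤ (x : ℝ) ^ (δ / 2) := h11
  obtain ⟨u, hu⟩ : ∃ u, u = (x : ℝ) ^ (δ / 4) := ⟨_, rfl⟩
  have hu0 : 0 < u := by rw [hu]; positivity
  have e2 : (x : ℝ) ^ (δ / 2) = u * u := by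
    rw [hu, ← Real.rpow_add hx0]; congr 1; ring
  have e3 : (x : ℝ) ^ (1 / 2 + δ) = Real.sqrt x * (u * u) * (u * u) := by
    rw [Real.sqrt_eq_rpow, hu, ← Real.rpow_add hx0, ← Real.rpow_add hx0, ← Real.rpow_add hx0]
    congr 1
    ring
  rw [e2] at h11'
  rw [← hu] at hlog ⊢
  rw [e3]
  have h12 : Real.log x ≤ 4 / δ * u := by
    calc Real.log x ≤ u / (δ / 4) := hlog
      _ = 4 / δ * u := by field_simp
  calc u * (Real.log x * (C * Real.sqrt x)) ≤ u * (4 / δ * u * (C * Real.sqrt x)) := by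
        apply mul_le_mul_of_nonneg_left _ hu0.le
        exact mul_le_mul_of_nonneg_right h12 (by positivity)
    _ = Real.sqrt x * (C * (4 / δ)) * (u * u) := by ring
    _ ≤ Real.sqrt x * (u * u) * (u * u) := by
        apply mul_le_mul_of_nonneg_right _ (by positivity)
        exact mul_le_mul_of_nonneg_left h11' hsx.le

/-- as `rough`, with small averages -/
theorem rough_near' {dm : ℕ} {ex ω : L → ℝ} {μ : L → Fin dm} (hset : Setting ex ω μ) {δ : ℝ} (hδ : 0 < δ) (A V B A₃ : ℕ) {τ : Type} (U : ℕ → Finset τ)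
    (hU : ∀ x, 2 ≤ x → (U x).card ≤ x ^ A₃) (G : τ → ℕ → (L → ℕ) → ℝ)
    (hper : ∀ t p n, p.Prime → G t p n = G t p (fun i => n i % p)) {C : ℝ} (hC : 1 ≤ C)
    (hbd : ∀ t p n, p.Prime → |G t p n| ≤ C * Real.sqrt p) (hav : ∀ t p, p.Prime → |avg p (G t p)| ≤ C / Real.sqrt p)
    (hsq : ∀ t p, p.Prime → avg p (fun n => G t p n ^ 2) ≤ C) :
    ForAlmostAll ex ω μ A V (fun (θ : Weights B) x m => ∀ w ∈ θ.W x, ∀ t ∈ U x,
      |∑ p ∈ primesTo x, w p * Real.log p * G t p m| ≤ (x : ℝ) ^ (1 / 2 + δ)) := by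
  have hC0 : 0 < C := by linarith
  have key := rough_near (L := L) hset (show 0 < δ / 2 by positivity) A V B A₃ U hU (fun t p n => G t p n - avg p (G t p))
    (fun t p n hp => by rw [hper t p n hp]) (C := 2 * C) (by linarith) (by
      intro t p n hp
      have hs : 0 < Real.sqrt p := Real.sqrt_pos.2 (by exact_mod_cast hp.pos)
      have h1 := hbd t p n hp
      have h2 := hav t p hp
      have h3 : C / Real.sqrt p ≤ C * Real.sqrt p := by
        rw [div_le_iff₀ hs, mul_assoc, ← sq, Real.sq_sqrt (Nat.cast_nonneg p)]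
        have : (1 : ℝ) ≤ p := by exact_mod_cast hp.one_lt.le
        nlinarith
      have h4 := abs_sub (G t p n) (avg p (G t p))
      linarith) (by
      intro t p hp
      rw [avg_sub, avg_const hp.one_lt.le, sub_self]) (by
      intro t p hp
      have e : (fun n => (G t p n - avg p (G t p)) ^ 2) = fun n => G t p n ^ 2 - ((2 * avg p (G t p)) * G t p n - avg p (G t p) ^ 2) := by
        funext n; ring
      rw [e, avg_sub, avg_sub, avg_mul, avg_const hp.one_lt.le]
      have := hsq t p hp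
      nlinarith [sq_nonneg (avg p (G t p))])
  obtain ⟨x₁, hx₁⟩ := eventually_le (δ := δ / 2) (by positivity) (2 * C + 1) (by positivity)
  refine ForAlmostAll.mono key (x₁ + 2) ?_
  intro θ x m hx h w hw t ht
  have h1 := h w hw t ht
  have hx1 : (1 : ℝ) ≤ x := by exact_mod_cast (by omega : 1 ≤ x)
  have hx0 : (0 : ℝ) < x := by linarith
  have e : ∑ p ∈ primesTo x, w p * Real.log p * G t p m = ∑ p ∈ primesTo x, w p * Real.log p * (G t p m - avg p (G t p)) +
      ∑ p ∈ primesTo x, w p * Real.log p * avg p (G t p) := by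
    rw [← sum_add_distrib]
    exact sum_congr rfl fun p _ => by ring
  have h2 : |∑ p ∈ primesTo x, w p * Real.log p * avg p (G t p)| ≤ C * (2 * Real.sqrt x * Real.log x) := by
    refine (abs_sum_le_sum_abs _ _).trans (le_trans (sum_le_sum (g := fun p : ℕ => C * (Real.log p * (1 / Real.sqrt p))) fun p hp => ?_) ?_)
    · have hp' := mem_primesTo.1 hp
      have hlp : 0 < Real.log p := Real.log_pos (by exact_mod_cast hp'.1.one_lt)
      rw [abs_mul, abs_mul, abs_of_pos hlp]
      calc |w p| * Real.log p * |avg p (G t p)| ≤ 1 * Real.log p * (C / Real.sqrt p) :=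
            mul_le_mul (mul_le_mul_of_nonneg_right (θ.bound x w hw p) hlp.le) (hav t p hp'.1) (abs_nonneg _) (by rw [one_mul]; exact hlp.le)
        _ = _ := by ring
    · rw [← mul_sum]
      exact mul_le_mul_of_nonneg_left (sum_log_sqrt x) hC0.le
  rw [e]
  refine (abs_add_le _ _).trans ((add_le_add h1 h2).trans ?_)
  have h3 := hx₁ x (by omega)
  have h8 : 0 ≤ Real.log x := Real.log_nonneg hx1
  have hs : 0 < Real.sqrt x := Real.sqrt_pos.2 hx0
  have h12 : (x : ℝ) ^ (1 / 2 + δ / 2) = Real.sqrt x * (x : ℝ) ^ (δ / 2) := by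
    rw [Real.rpow_add hx0, Real.sqrt_eq_rpow]
  have h13 : (x : ℝ) ^ (1 / 2 + δ) = Real.sqrt x * ((x : ℝ) ^ (δ / 2) * (x : ℝ) ^ (δ / 2)) := by
    rw [Real.sqrt_eq_rpow, ← Real.rpow_add hx0, ← Real.rpow_add hx0]
    congr 1
    ring
  have h14 : (x : ℝ) ^ (δ / 2) = (x : ℝ) ^ (δ / 2 / 2) * (x : ℝ) ^ (δ / 2 / 2) := by
    rw [← Real.rpow_add hx0]
    congr 1
    ring
  have h15 : (1 : ℝ) ≤ (x : ℝ) ^ (δ / 2 / 2) := Real.one_le_rpow hx1 (by positivity)
  have h16 : 2 * C * Real.log x + 2 ≤ (x : ℝ) ^ (δ / 2) := by nlinarith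
  rw [h12, h13]
  have h17 : (x : ℝ) ^ (δ / 2) + C * (2 * Real.log x) ≤ (x : ℝ) ^ (δ / 2) * (x : ℝ) ^ (δ / 2) := by nlinarith
  calc Real.sqrt x * (x : ℝ) ^ (δ / 2) + C * (2 * Real.sqrt x * Real.log x) = Real.sqrt x * ((x : ℝ) ^ (δ / 2) + C * (2 * Real.log x)) := by ring
    _ ≤ _ := mul_le_mul_of_nonneg_left h17 hs.le

end Pool.Agent.Q56.WL
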