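import Pool.Agent.Q56.WL.Quad

/-! The primes below the threshold in imaginary quadratic fields, near powers. -/

set_option autoImplicit false

namespace Pool.Agent.Q56.WL

open Finset Filter
open Pool.Agent.Q235.FD (Sets)
open Pool.Agent.TH894.NG (Tq cq NFD Sp In SF kernel split_of PX mem_PX PX_ev large_disc thr)

lemma badIndices_mono' {x : ℕ} {e w β W W' : ℝ} {P : ℕ → Prop} (h : W ≤ W') :
    badIndices x e w β W P ≤ badIndices x e w β W' P := by
  classical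
  unfold badIndices
  apply card_le_card
  intro i hi
  rw [mem_filter] at hi ⊢
  obtain ⟨h1, m, h2, h3⟩ := hi
  exact ⟨h1, m, h2.trans h, h3⟩

/-- the sets of all primes up to `x` -/
def allPrimes : Sets 0 where
  S := fun x => {PX x}
  card := fun x => by simp
  prime := by
    intro x P hP p hp
    rw [mem_singleton] at hP
    subst hP
    exact mem_PX.1 hp

open Classical in
/-- the error at one length -/
lemma count_of (δ : ℝ) (hδ : 0 < δ) : ∃ δ' : ℝ, 0 < δ' ∧ δ' ≤ 1 / 8 ∧ ∃ z₀ : ℕ, ∀ z : ℕ, z₀ ≤ z → ∀ (d : ℤ) (m : ℕ), NFD d → SF d m →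
    (∀ β : Bool, |(cq (PX z) (-1, β) m : ℝ) - (PX z).card / 2| ≤ Real.sqrt (PX z).card * (z : ℝ) ^ δ') →
    |2 * (((PX z).filter (fun p => Sp d p)).card : ℝ) - (PX z).card| ≤ ((PX z).card : ℝ) ^ (1 / 2 + δ) := by
  obtain ⟨δ₁, hδ₁⟩ : ∃ δ₁, δ₁ = min δ 1 := ⟨_, rfl⟩
  have hδ₁0 : 0 < δ₁ := by rw [hδ₁]; exact lt_min hδ one_pos
  have hδ₁1 : δ₁ ≤ 1 := by rw [hδ₁]; exact min_le_right _ _
  have hδ₁δ : δ₁ ≤ δ := by rw [hδ₁]; exact min_le_left _ _
  obtain ⟨x₁, h1⟩ := PX_ev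
  have hev1 : ∀ᶠ x : ℕ in atTop, (8 : ℝ) ≤ (x : ℝ) ^ (δ₁ * (11 / 40)) := by
    have h1 : Tendsto (fun x : ℝ => x ^ (δ₁ * (11 / 40))) atTop atTop := tendsto_rpow_atTop (by positivity)
    exact (h1.comp tendsto_natCast_atTop_atTop).eventually (eventually_ge_atTop _)
  obtain ⟨x₂, h2⟩ := eventually_atTop.1 hev1
  refine ⟨δ₁ / 8, by positivity, by linarith, x₁ + x₂ + 1, fun x hx d m hd hs hE => ?_⟩
  have hx0 : (0 : ℝ) < x := by exact_mod_cast (by omega : 0 < x)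
  have hx1 : (1 : ℝ) ≤ x := by exact_mod_cast (by omega : 1 ≤ x)
  obtain ⟨Y, hY⟩ : ∃ Y : ℝ, Y = (PX x).card := ⟨_, rfl⟩
  have h5 := split_of hd hs (PX x) (fun p hp => (mem_PX.1 hp).1) _ hE true
  simp only [if_true] at h5
  rw [← hY] at h5 ⊢
  have h6 := h1 x (by omega)
  rw [← hY] at h6
  have h7 := h2 x (by omega)
  have hY1 : 1 ≤ Y := (Real.one_le_rpow hx1 (by norm_num)).trans h6
  have hY0 : 0 < Y := by linarith
  obtain ⟨t, ht⟩ : ∃ t : ℝ, t = (x : ℝ) ^ (δ₁ / 8) := ⟨_, rfl⟩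
  rw [← ht] at h5
  have ht1' : 1 ≤ t := by rw [ht]; exact Real.one_le_rpow hx1 (by positivity)
  have hsY : 1 ≤ Real.sqrt Y := Real.one_le_sqrt.2 hY1
  have h8 : |2 * (((PX x).filter (fun p => Sp d p)).card : ℝ) - Y| ≤ 8 * (Real.sqrt Y * t) := by
    have h9 : 2 * (((PX x).filter (fun p => Sp d p)).card : ℝ) - Y = 2 * ((((PX x).filter (fun p => Sp d p)).card : ℝ) - Y / 2) := by ring
    rw [h9, abs_mul, abs_two]
    nlinarith
  refine h8.trans ?_
  have h9 : 8 * t ≤ Y ^ δ := by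
    have h10 : ((x : ℝ) ^ (2 / 5 : ℝ)) ^ δ₁ ≤ Y ^ δ₁ := Real.rpow_le_rpow (by positivity) h6 hδ₁0.le
    have h11 : Y ^ δ₁ ≤ Y ^ δ := Real.rpow_le_rpow_of_exponent_le hY1 hδ₁δ
    have h12 : ((x : ℝ) ^ (2 / 5 : ℝ)) ^ δ₁ = (x : ℝ) ^ (δ₁ * (11 / 40)) * t := by
      rw [ht, ← Real.rpow_mul hx0.le, ← Real.rpow_add hx0]
      congr 1
      ring
    rw [h12] at h10
    have h13 : 8 * t ≤ (x : ℝ) ^ (δ₁ * (11 / 40)) * t := mul_le_mul_of_nonneg_right h7 (by linarith)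
    linarith
  rw [Real.rpow_add hY0, ← Real.sqrt_eq_rpow]
  calc 8 * (Real.sqrt Y * t) = Real.sqrt Y * (8 * t) := by ring
    _ ≤ Real.sqrt Y * Y ^ δ := mul_le_mul_of_nonneg_left h9 (Real.sqrt_nonneg _)

open Classical in
theorem thr_near {e w : ℝ} (he : 1 < e) (hk : ∀ k : ℕ, e ≠ k) (hw : w ≠ 0) {δ : ℝ} (hδ : 0 < δ) (A V : ℕ) :
    ∃ κ : ℝ, 0 < κ ∧ ∃ x₀ : ℕ, ∀ x : ℕ, x₀ ≤ x → ∀ β : ℝ, |β| ≤ Real.exp ((x : ℝ) ^ κ) →
      (badIndices x e w β (Real.log x ^ V) (fun m => ∀ d : ℤ, NFD d → SF d m → κ * Real.log x ≤ Real.log |(d : ℝ)| ∧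
        |2 * (((PX (⌈thr d⌉₊ - 1)).filter (fun p => Sp d p)).card : ℝ) - (PX (⌈thr d⌉₊ - 1)).card| ≤
          ((PX (⌈thr d⌉₊ - 1)).card : ℝ) ^ (1 / 2 + δ)) : ℝ) ≤ 1 / Real.log x ^ A * x := by
  obtain ⟨δ', hδ', hδ'8, z₀, hcount⟩ := count_of δ hδ
  obtain ⟨c, hc, y₀, H⟩ := one_dim (quad_near he hk hw hδ' A V 0 1)
  obtain ⟨z₁, h1⟩ := PX_ev
  obtain ⟨κ, hκ⟩ : ∃ κ : ℝ, κ = c / 5 := ⟨_, rfl⟩
  have hκ0 : 0 < κ := by rw [hκ]; positivity
  have hev3 : ∀ᶠ x : ℕ in atTop, (5 : ℝ) ≤ (x : ℝ) ^ (3 / 20 : ℝ) := by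
    have h1 : Tendsto (fun x : ℝ => x ^ (3 / 20 : ℝ)) atTop atTop := tendsto_rpow_atTop (by norm_num)
    exact (h1.comp tendsto_natCast_atTop_atTop).eventually (eventually_ge_atTop _)
  obtain ⟨z₃, h3⟩ := eventually_atTop.1 hev3
  -- large x
  have hlog : Tendsto (fun x : ℕ => Real.log x) atTop atTop := Real.tendsto_log_atTop.comp tendsto_natCast_atTop_atTop
  have hevA : ∀ᶠ x : ℕ in atTop, ((y₀ + z₀ + z₁ + z₃ + 10 : ℕ) : ℝ) + Real.exp 2 / κ + 4 / κ ^ 2 ≤ Real.log x :=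
    hlog.eventually (eventually_ge_atTop _)
  have hevB : ∀ᶠ x : ℕ in atTop, (16 : ℝ) ≤ (x : ℝ) ^ κ := by
    have h1 : Tendsto (fun x : ℝ => x ^ κ) atTop atTop := tendsto_rpow_atTop hκ0
    exact (h1.comp tendsto_natCast_atTop_atTop).eventually (eventually_ge_atTop _)
  have hevC : ∀ᶠ x : ℕ in atTop, |w| * (x : ℝ) ^ e + (Real.log x + 1) ^ V ≤ Real.exp ((x : ℝ) ^ κ) := by
    have hb : Tendsto (fun x : ℕ => (x : ℝ) ^ κ) atTop atTop := (tendsto_rpow_atTop hκ0).comp tendsto_natCast_atTop_atTop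
    have hg : Tendsto (fun t : ℝ => Real.exp t / t ^ ((e + V + 1) / κ)) atTop atTop := by
      have := tendsto_exp_mul_div_rpow_atTop ((e + V + 1) / κ) 1 one_pos
      simpa using this
    have h5 := (hg.comp hb).eventually (eventually_ge_atTop (|w| + 1))
    have h6 : ∀ᶠ x : ℕ in atTop, 1 ≤ x := eventually_ge_atTop 1
    filter_upwards [h5, h6] with x hx hx1
    have hx1r : (1 : ℝ) ≤ x := by exact_mod_cast hx1
    have hx0 : (0 : ℝ) < x := by linarith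
    have hx' : |w| + 1 ≤ Real.exp ((x : ℝ) ^ κ) / ((x : ℝ) ^ κ) ^ ((e + V + 1) / κ) := hx
    have e1 : ((x : ℝ) ^ κ) ^ ((e + V + 1) / κ) = (x : ℝ) ^ (e + V + 1) := by
      rw [← Real.rpow_mul hx0.le]
      congr 1
      field_simp
    rw [e1, le_div_iff₀ (by positivity)] at hx'
    refine le_trans ?_ hx'
    have hlx : Real.log x + 1 ≤ x := by
      have := Real.log_le_sub_one_of_pos hx0
      linarith
    have hlx0 : 0 ≤ Real.log x := Real.log_nonneg hx1r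
    have h7 : (Real.log x + 1) ^ V ≤ (x : ℝ) ^ (e + V + 1) := by
      calc (Real.log x + 1) ^ V ≤ (x : ℝ) ^ V := pow_le_pow_left₀ (by linarith) hlx V
        _ = (x : ℝ) ^ (V : ℝ) := (Real.rpow_natCast _ _).symm
        _ ≤ _ := Real.rpow_le_rpow_of_exponent_le hx1r (by linarith)
    have h8 : (x : ℝ) ^ e ≤ (x : ℝ) ^ (e + V + 1) := Real.rpow_le_rpow_of_exponent_le hx1r (by
      have : (0 : ℝ) ≤ V := Nat.cast_nonneg V
      linarith)
    have h9 : |w| * (x : ℝ) ^ e ≤ |w| * (x : ℝ) ^ (e + V + 1) := mul_le_mul_of_nonneg_left h8 (abs_nonneg w)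
    linarith
  have hevD : ∀ᶠ x : ℕ in atTop, Real.log x + 3 ≤ (x : ℝ) ^ c := by
    have h2 : ∀ᶠ x : ℝ in atTop, Real.log x + 3 ≤ x ^ c := by
      have h3 := (isLittleO_log_rpow_atTop hc).bound (by norm_num : (0 : ℝ) < 1 / 2)
      have h4 : ∀ᶠ x : ℝ in atTop, (6 : ℝ) ≤ x ^ c := (tendsto_rpow_atTop hc).eventually (eventually_ge_atTop _)
      filter_upwards [h3, h4, eventually_gt_atTop 1] with x hx hx6 hx1
      rw [Real.norm_of_nonneg (Real.log_nonneg hx1.le), Real.norm_of_nonneg (by positivity)] at hx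
      linarith
    exact tendsto_natCast_atTop_atTop.eventually h2
  obtain ⟨xA, hA⟩ := eventually_atTop.1 hevA
  obtain ⟨xB, hB⟩ := eventually_atTop.1 hevB
  obtain ⟨xC, hC⟩ := eventually_atTop.1 hevC
  obtain ⟨xD, hD⟩ := eventually_atTop.1 hevD
  refine ⟨κ, hκ0, xA + xB + xC + xD + 2, fun x hx β hβ => ?_⟩
  have hA' := hA x (by omega)
  have hB' := hB x (by omega)
  have hC' := hC x (by omega)
  have hD' := hD x (by omega)
  have hx1r : (1 : ℝ) ≤ x := by exact_mod_cast (by omega : 1 ≤ x)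
  have hx0 : (0 : ℝ) < x := by linarith
  have hE0 : 0 ≤ Real.exp 2 / κ := by positivity
  have hF0 : 0 ≤ 4 / κ ^ 2 := by positivity
  obtain ⟨y, hy⟩ : ∃ y : ℕ, y = ⌈Real.log x⌉₊ := ⟨_, rfl⟩
  have hylog : Real.log x ≤ y := by rw [hy]; exact Nat.le_ceil _
  have hlog10 : (10 : ℝ) ≤ Real.log x := by
    push_cast at hA'
    have : (0 : ℝ) ≤ (y₀ : ℝ) + z₀ + z₁ + z₃ := by positivity
    linarith
  have hylog2 : (y : ℝ) ≤ Real.log x + 1 := by
    rw [hy]
    exact (Nat.ceil_lt_add_one (by linarith)).le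
  have hybig : y₀ + z₀ + z₁ + z₃ + 10 ≤ y := by
    have : ((y₀ + z₀ + z₁ + z₃ + 10 : ℕ) : ℝ) ≤ y := by linarith
    exact_mod_cast this
  have hmain := H allPrimes β x y (by omega)
  have hW : Real.log x ^ V ≤ (y : ℝ) ^ V := pow_le_pow_left₀ (by linarith) hylog V
  refine le_trans (Nat.cast_le.2 (badIndices_mono' hW)) ?_
  have hfin : (1 / (y : ℝ) ^ A * x : ℝ) ≤ 1 / Real.log x ^ A * x := by
    apply mul_le_mul_of_nonneg_right _ hx0.le
    apply one_div_le_one_div_of_le (by positivity)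
    exact pow_le_pow_left₀ (by linarith) hylog A
  refine le_trans ?_ (hmain.trans hfin)
  -- only the integers in the windows matter
  have hsub : badIndices x e w β ((y : ℝ) ^ V) (fun m => ∀ d : ℤ, NFD d → SF d m → κ * Real.log x ≤ Real.log |(d : ℝ)| ∧
        |2 * (((PX (⌈thr d⌉₊ - 1)).filter (fun p => Sp d p)).card : ℝ) - (PX (⌈thr d⌉₊ - 1)).card| ≤
          ((PX (⌈thr d⌉₊ - 1)).card : ℝ) ^ (1 / 2 + δ)) ≤
      badIndices x e w β ((y : ℝ) ^ V) (fun m => ∀ z : ℕ, y ≤ z → (z : ℝ) ≤ (x : ℝ) ^ c →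
        ∀ P ∈ allPrimes.S z, ∀ i : ℤ × Bool, i.1 ≠ 0 → |i.1| ≤ (z : ℤ) ^ 1 →
          |(cq P i m : ℝ) - (P.card : ℝ) / 2| ≤ Real.sqrt P.card * (z : ℝ) ^ δ') := by
    unfold badIndices
    apply card_le_card
    intro j hj
    rw [mem_filter] at hj ⊢
    obtain ⟨hj1, m, hm1, hm2⟩ := hj
    refine ⟨hj1, m, hm1, fun hlaw' => hm2 ?_⟩
    have hlaw : ∀ z : ℕ, y ≤ z → (z : ℝ) ≤ (x : ℝ) ^ c → ∀ i : ℤ × Bool, i.1 ≠ 0 → |i.1| ≤ (z : ℤ) ^ 1 →
        |(cq (PX z) i m : ℝ) - ((PX z).card : ℝ) / 2| ≤ Real.sqrt (PX z).card * (z : ℝ) ^ δ' :=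
      fun z h1 h2 => hlaw' z h1 h2 (PX z) (mem_singleton_self _)
    intro d hd hs
    obtain ⟨f, v, hf, hdf, hmv, _⟩ := kernel hd hs
    have hd0 : d < 0 := hd.1
    have hdr : (0 : ℝ) < |(d : ℝ)| := abs_pos.2 (by exact_mod_cast hd0.ne)
    -- the discriminant is large
    have hlarge : c * Real.log x ≤ Real.log |(d : ℝ)| := by
      obtain ⟨z, hz⟩ : ∃ z, z = ⌊(x : ℝ) ^ c⌋₊ := ⟨_, rfl⟩
      have hyz : y ≤ z := by
        rw [hz, Nat.le_floor_iff (by positivity)]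
        linarith
      have hzx : (z : ℝ) ≤ (x : ℝ) ^ c := by rw [hz]; exact Nat.floor_le (by positivity)
      have hz0 : (0 : ℝ) < z := by exact_mod_cast (by omega : 0 < z)
      have h5 := large_disc hd hs δ' (by omega : 1 ≤ z) (hlaw z hyz hzx) ?_
      · have h6 : (x : ℝ) ^ c < |(d : ℝ)| := by
          have h7 : (z : ℤ) + 1 ≤ |d| := h5
          have h8 : ((z : ℝ) + 1) ≤ |(d : ℝ)| := by exact_mod_cast h7
          have h9 := Nat.lt_floor_add_one ((x : ℝ) ^ c)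
          rw [← hz] at h9
          linarith
        rw [← Real.log_rpow hx0]
        exact Real.log_le_log (by positivity) h6.le
      · have h6 := h1 z (by omega)
        have h7 := h3 z (by omega)
        have h8 : (z : ℝ) ^ (2 / 5 : ℝ) = (z : ℝ) ^ (1 / 4 : ℝ) * (z : ℝ) ^ (3 / 20 : ℝ) := by
          rw [← Real.rpow_add hz0]
          norm_num
        have hz1 : (1 : ℝ) ≤ z := by exact_mod_cast (by omega : 1 ≤ z)
        have h9 : ((z : ℝ) ^ δ') ^ 2 ≤ (z : ℝ) ^ (1 / 4 : ℝ) := by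
          rw [← Real.rpow_natCast, ← Real.rpow_mul hz0.le]
          apply Real.rpow_le_rpow_of_exponent_le hz1
          push_cast
          linarith
        have h10 : (0 : ℝ) < (z : ℝ) ^ (1 / 4 : ℝ) := Real.rpow_pos_of_pos hz0 _
        nlinarith
    have hκc : κ * Real.log x ≤ c * Real.log x := by
      apply mul_le_mul_of_nonneg_right _ (by linarith)
      rw [hκ]
      linarith
    refine ⟨hκc.trans hlarge, ?_⟩
    -- upper bound for the discriminant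
    have hm0 : m ≠ 0 := by
      intro h0
      obtain ⟨u, v, hu, hv, huv⟩ := hs
      rw [h0] at huv
      simp only [Nat.cast_zero, neg_zero, zero_mul, mul_eq_zero, pow_eq_zero_iff, ne_eq, OfNat.ofNat_ne_zero, not_false_eq_true] at huv
      rcases huv with h | h
      · exact hd0.ne h
      · exact hu h
    have hfm : |f| ≤ (m : ℤ) := by
      have hv0 : v ≠ 0 := by
        intro h0
        rw [h0] at hmv
        apply hm0
        have : (m : ℤ) = 0 := by linarith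
        exact_mod_cast this
      have h5 : 1 ≤ v ^ 2 := by
        have := Int.one_le_abs hv0
        nlinarith [sq_abs v]
      rw [abs_of_neg hf]
      nlinarith
    rw [mem_Icc] at hj1
    have hmb : (m : ℝ) ≤ 2 * Real.exp ((x : ℝ) ^ κ) := by
      have h5 := (abs_le.1 hm1).2
      have h6 : w * (j : ℝ) ^ e ≤ |w| * (x : ℝ) ^ e := by
        calc w * (j : ℝ) ^ e ≤ |w| * (j : ℝ) ^ e := mul_le_mul_of_nonneg_right (le_abs_self w) (by positivity)
          _ ≤ |w| * (x : ℝ) ^ e := by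
            apply mul_le_mul_of_nonneg_left _ (abs_nonneg w)
            exact Real.rpow_le_rpow (Nat.cast_nonneg j) (by exact_mod_cast hj1.2) (by linarith)
      have h7 : (y : ℝ) ^ V ≤ (Real.log x + 1) ^ V := pow_le_pow_left₀ (Nat.cast_nonneg y) hylog2 V
      have h8 := le_abs_self β
      linarith
    have hdm : |(d : ℝ)| ≤ Real.exp ((x : ℝ) ^ κ + 3) := by
      have h5 : |d| ≤ 4 * |f| := by
        rcases hdf with h | h
        · rw [h]
          have := abs_nonneg f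
          linarith
        · rw [h, abs_mul]
          norm_num
      have h6 : |d| ≤ 4 * (m : ℤ) := by linarith
      have h7 : |(d : ℝ)| ≤ 4 * (m : ℝ) := by exact_mod_cast h6
      rw [Real.exp_add]
      have h8 : (8 : ℝ) ≤ Real.exp 3 := by
        have := Real.add_one_lt_exp (show (1 : ℝ) ≠ 0 by norm_num)
        have h9 : Real.exp 3 = Real.exp 1 ^ 3 := by rw [← Real.exp_nat_mul]; norm_num
        rw [h9]
        have h10 : (2 : ℝ) ≤ Real.exp 1 := by linarith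
        have := pow_le_pow_left₀ (by norm_num : (0 : ℝ) ≤ 2) h10 3
        linarith
      have h9 : 0 < Real.exp ((x : ℝ) ^ κ) := Real.exp_pos _
      nlinarith
    obtain ⟨L, hL⟩ : ∃ L, L = Real.log |(d : ℝ)| := ⟨_, rfl⟩
    have hLup : L ≤ 2 * (x : ℝ) ^ κ := by
      have h5 : L ≤ (x : ℝ) ^ κ + 3 := by
        rw [hL]
        have := Real.log_le_log hdr hdm
        rwa [Real.log_exp] at this
      linarith
    have hLlow : Real.exp 2 ≤ L ∧ Real.log x + 2 ≤ L ^ 2 := by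
      have h5 : κ * Real.log x ≤ L := by rw [hL]; exact hκc.trans hlarge
      have h6 : (0 : ℝ) ≤ ((y₀ + z₀ + z₁ + z₃ : ℕ) : ℝ) := by positivity
      have h7 : Real.exp 2 / κ ≤ Real.log x := by push_cast at hA'; push_cast at h6; linarith
      have h8 : 4 / κ ^ 2 ≤ Real.log x := by push_cast at hA'; push_cast at h6; linarith
      rw [div_le_iff₀ hκ0] at h7
      rw [div_le_iff₀ (by positivity)] at h8
      refine ⟨by linarith, ?_⟩
      have h9 : (κ * Real.log x) ^ 2 ≤ L ^ 2 := pow_le_pow_left₀ (by positivity) h5 2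
      have h10 : 4 * Real.log x ≤ (κ * Real.log x) ^ 2 := by
        have : (κ * Real.log x) ^ 2 = (Real.log x * κ ^ 2) * Real.log x := by ring
        rw [this]
        exact mul_le_mul_of_nonneg_right h8 (by linarith)
      linarith
    have hL0 : 0 < L := lt_of_lt_of_le (Real.exp_pos 2) hLlow.1
    have hLL2 : 2 ≤ Real.log L := by
      rw [Real.le_log_iff_exp_le hL0]
      exact hLlow.1
    have hLLL : Real.log L ≤ L := (Real.log_le_sub_one_of_pos hL0).trans (by linarith)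
    have hthr : thr d = L ^ 2 * Real.log L ^ 2 := by unfold thr; rw [hL]
    have ht1 : (y : ℝ) + 1 ≤ thr d := by
      rw [hthr]
      have h13 : (4 : ℝ) ≤ Real.log L ^ 2 := by nlinarith
      have h14 : 0 ≤ L ^ 2 := sq_nonneg L
      nlinarith [hLlow.2]
    have ht2 : thr d ≤ (x : ℝ) ^ c := by
      rw [hthr]
      have h12 : Real.log L ^ 2 ≤ (2 * (x : ℝ) ^ κ) ^ 2 := pow_le_pow_left₀ (by linarith) (hLLL.trans hLup) 2
      have h13 : L ^ 2 ≤ (2 * (x : ℝ) ^ κ) ^ 2 := pow_le_pow_left₀ hL0.le hLup 2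
      have h14 : (x : ℝ) ^ c = ((x : ℝ) ^ κ) ^ 5 := by
        rw [← Real.rpow_natCast, ← Real.rpow_mul hx0.le, hκ]
        congr 1
        push_cast
        ring
      rw [h14]
      obtain ⟨s, hs'⟩ : ∃ s : ℝ, s = (x : ℝ) ^ κ := ⟨_, rfl⟩
      rw [← hs'] at h12 h13 hB' ⊢
      calc L ^ 2 * Real.log L ^ 2 ≤ (2 * s) ^ 2 * (2 * s) ^ 2 := mul_le_mul h13 h12 (by positivity) (by positivity)
        _ = 16 * s ^ 4 := by ring
        _ ≤ s * s ^ 4 := mul_le_mul_of_nonneg_right hB' (by positivity)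
        _ = _ := by ring
    obtain ⟨z, hz⟩ : ∃ z, z = ⌈thr d⌉₊ - 1 := ⟨_, rfl⟩
    rw [← hz]
    have hceil : y + 1 ≤ ⌈thr d⌉₊ := by
      have h5 := Nat.le_ceil (thr d)
      have h6 : ((y + 1 : ℕ) : ℝ) ≤ (⌈thr d⌉₊ : ℝ) := by push_cast; linarith
      exact_mod_cast h6
    have hyz : y ≤ z := by omega
    have hzt : (z : ℝ) ≤ thr d := by
      have h5 : z < ⌈thr d⌉₊ := by omega
      exact (Nat.lt_ceil.1 h5).le
    refine hcount z (by omega) d m hd hs fun β' => ?_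
    refine hlaw z hyz (hzt.trans ht2) (-1, β') (by norm_num) ?_
    rw [pow_one]
    show |(-1 : ℤ)| ≤ z
    rw [abs_neg, abs_one]
    exact_mod_cast (by omega : 1 ≤ z)
  exact_mod_cast hsub

end Pool.Agent.Q56.WL
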