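import Pool.Agent.Q56.WL.Exp
import Pool.Agent.TH894.ND2

set_option autoImplicit false

/-! Exponential sums over linear combinations of powers with different exponents. -/

namespace Pool.Agent.Q56.WL
open Finset Filter
open Pool.Agent.TH915.PW (pw pw_der)
open Pool.Agent.Q56.TF (Sm ev_log Sx)
open Pool.Agent.TH894.ND (ee ee_add ee_norm ee_sum)

lemma e_eq_ee (x : ℝ) : Pool.Agent.H469R2.NK.e x = ee x := rfl

lemma gap {L : Type*} (s : Finset L) (f : L → ℝ) : ∃ g : ℝ, 0 < g ∧ ∀ l ∈ s, 0 < f l → g ≤ f l := by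
  classical
  induction s using Finset.induction_on with
  | empty => exact ⟨1, one_pos, fun l hl => absurd hl (notMem_empty l)⟩
  | insert a s _ ih =>
    obtain ⟨g, hg, h⟩ := ih
    by_cases hfa : 0 < f a
    · refine ⟨min g (f a), lt_min hg hfa, fun l hl hfl => ?_⟩
      rcases mem_insert.1 hl with rfl | hl
      · exact min_le_right _ _
      · exact (min_le_left _ _).trans (h l hl hfl)
    · refine ⟨g, hg, fun l hl hfl => ?_⟩
      rcases mem_insert.1 hl with rfl | hl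
      · exact absurd hfl hfa
      · exact h l hl hfl

/-- the lower terms -/
lemma lower_unif {L : Type*} (s : Finset L) (e w : L → ℝ) (c : ℝ) (m : ℕ) : ∃ g : ℝ, 0 < g ∧ ∀ κ : ℝ, 0 < κ →
    ∃ x₀ : ℕ, ∀ x : ℕ, x₀ ≤ x → ∀ a : L → ℝ, (∀ l ∈ s, a l ≠ 0 → e l < c) →
      (∀ l ∈ s, |a l| ≤ (x : ℝ) ^ g * |w l|) → ∀ t : ℝ, (x : ℝ) ^ (1 / 2 : ℝ) ≤ t →
      |∑ l ∈ s, pw (a l) (e l) m t| ≤ κ * t ^ (c - m) := by
  classical
  obtain ⟨g0, hg0, hg⟩ := gap s (fun l => c - e l)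
  obtain ⟨K, hK⟩ : ∃ K : ℝ, K = ∑ l ∈ s, |w l| * |∏ j ∈ range m, (e l - j)| := ⟨_, rfl⟩
  refine ⟨g0 / 4, by positivity, fun κ hκ => ?_⟩
  have hev : ∀ᶠ x : ℕ in atTop, K / κ ≤ (x : ℝ) ^ (g0 / 4) :=
    ((tendsto_rpow_atTop (show 0 < g0 / 4 by positivity)).comp tendsto_natCast_atTop_atTop).eventually_ge_atTop _
  obtain ⟨x1, hx1⟩ := eventually_atTop.1 hev
  refine ⟨x1 + 1, fun x hx a ha hab t ht => ?_⟩
  have hxx := hx1 x (by omega)
  rw [div_le_iff₀ hκ] at hxx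
  have hx0 : (0 : ℝ) < x := by exact_mod_cast (by omega : 0 < x)
  have hx1' : (1 : ℝ) ≤ x := by exact_mod_cast (by omega : 1 ≤ x)
  have hq1 : (1 : ℝ) ≤ (x : ℝ) ^ (1 / 2 : ℝ) := Real.one_le_rpow hx1' (by norm_num)
  have ht1 : 1 ≤ t := hq1.trans ht
  have ht0 : 0 < t := by linarith
  have htc : 0 < t ^ (c - m) := Real.rpow_pos_of_pos ht0 _
  have h1 : ∀ l ∈ s, |pw (a l) (e l) m t| ≤ (|w l| * |∏ j ∈ range m, (e l - j)|) * ((x : ℝ) ^ (-(g0 / 4)) * t ^ (c - m)) := by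
    intro l hl
    unfold pw
    rw [abs_mul, abs_mul, abs_of_pos (Real.rpow_pos_of_pos ht0 _)]
    by_cases h0 : a l = 0
    · rw [h0, abs_zero, zero_mul, zero_mul]
      positivity
    · have hlt := ha l hl h0
      have hge := hg l hl (by linarith)
      have e1 : t ^ (e l - m) = t ^ (c - m) * t ^ (-(c - e l)) := by
        rw [← Real.rpow_add ht0]
        congr 1
        ring
      have e2 : t ^ (-(c - e l)) ≤ (x : ℝ) ^ (-(g0 / 2)) := by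
        calc t ^ (-(c - e l)) ≤ t ^ (-g0) := Real.rpow_le_rpow_of_exponent_le ht1 (by linarith)
          _ ≤ ((x : ℝ) ^ (1 / 2 : ℝ)) ^ (-g0) := Real.rpow_le_rpow_of_nonpos (by linarith) ht (by linarith)
          _ = _ := by
            rw [← Real.rpow_mul hx0.le]
            congr 1
            ring
      have e3 : (x : ℝ) ^ (g0 / 4) * (x : ℝ) ^ (-(g0 / 2)) = (x : ℝ) ^ (-(g0 / 4)) := by
        rw [← Real.rpow_add hx0]
        congr 1
        ring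
      rw [e1]
      calc |a l| * |∏ j ∈ range m, (e l - j)| * (t ^ (c - m) * t ^ (-(c - e l)))
          ≤ ((x : ℝ) ^ (g0 / 4) * |w l|) * |∏ j ∈ range m, (e l - j)| * (t ^ (c - m) * (x : ℝ) ^ (-(g0 / 2))) := by
            apply mul_le_mul _ _ (by positivity) (by positivity)
            · exact mul_le_mul_of_nonneg_right (hab l hl) (abs_nonneg _)
            · exact mul_le_mul_of_nonneg_left e2 htc.le
        _ = (|w l| * |∏ j ∈ range m, (e l - j)|) * (((x : ℝ) ^ (g0 / 4) * (x : ℝ) ^ (-(g0 / 2))) * t ^ (c - m)) := by ring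
        _ = _ := by rw [e3]
  refine (abs_sum_le_sum_abs _ _).trans ((sum_le_sum h1).trans ?_)
  rw [← sum_mul, ← hK]
  have h2 : K * (x : ℝ) ^ (-(g0 / 4)) ≤ κ := by
    rw [Real.rpow_neg hx0.le, ← div_eq_mul_inv, div_le_iff₀ (by positivity)]
    linarith
  calc K * ((x : ℝ) ^ (-(g0 / 4)) * t ^ (c - m)) = (K * (x : ℝ) ^ (-(g0 / 4))) * t ^ (c - m) := by ring
    _ ≤ _ := mul_le_mul_of_nonneg_right h2 htc.le

lemma ee_neg_norm {ι : Type*} (s : Finset ι) (f : ι → ℝ) : ‖∑ i ∈ s, ee (-(f i))‖ = ‖∑ i ∈ s, ee (f i)‖ := by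
  have h1 : ∑ i ∈ s, ee (-(f i)) = (starRingEnd ℂ) (∑ i ∈ s, ee (f i)) := by
    rw [map_sum]
    refine sum_congr rfl fun i _ => ?_
    unfold ee
    rw [← Complex.exp_conj]
    congr 1
    rw [map_mul, Complex.conj_I, Complex.conj_ofReal]
    push_cast
    ring
  rw [h1, Complex.norm_conj]

/-- linear combinations with a given leading term -/
lemma top {L : Type*} (s : Finset L) (e w : L → ℝ) (l0 : L) (hl0 : l0 ∈ s) (he : 1 < e l0)
    (hn : ∀ m : ℕ, e l0 ≠ m) (hw : w l0 ≠ 0) (hinj : ∀ l ∈ s, e l = e l0 → l = l0) : ∃ η : ℝ, 0 < η ∧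
    ∃ x₀ : ℕ, ∀ x : ℕ, x₀ ≤ x → ∀ θ : L → ℝ, (∀ l ∈ s, |θ l| ≤ 1) → (x : ℝ) ^ (-η) ≤ |θ l0| →
      (∀ l ∈ s, θ l ≠ 0 → e l ≤ e l0) →
      ‖∑ i ∈ Icc 1 x, ee (∑ l ∈ s, θ l * (w l * (i : ℝ) ^ e l))‖ ≤ (x : ℝ) ^ (1 - η) := by
  classical
  obtain ⟨c, hc⟩ : ∃ c, c = e l0 := ⟨_, rfl⟩
  rw [← hc] at he hn hinj ⊢
  obtain ⟨k, hk⟩ : ∃ k : ℕ, k = ⌊c⌋₊ := ⟨_, rfl⟩
  have hk1 : (k : ℝ) ≤ c := by rw [hk]; exact Nat.floor_le (by linarith)
  have hk1' : (k : ℝ) < c := lt_of_le_of_ne hk1 (hn k).symm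
  have hk2 : c < k + 1 := by rw [hk]; exact Nat.lt_floor_add_one _
  have hk0 : 1 ≤ k := by
    rw [hk, Nat.one_le_floor_iff]
    exact he.le
  obtain ⟨b, hb⟩ : ∃ b : ℝ, b = c - k := ⟨_, rfl⟩
  have hb0 : 0 < b := by linarith
  have hb1 : b < 1 := by linarith
  obtain ⟨C, hC⟩ : ∃ C : ℝ, C = |w l0| * ∏ j ∈ range (k + 1), (c - j) := ⟨_, rfl⟩
  have hC0 : 0 < C := by
    rw [hC]
    apply mul_pos (abs_pos.2 hw)
    apply prod_pos
    intro j hj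
    have h1 : j ≤ k := Nat.lt_succ_iff.mp (mem_range.mp hj)
    have h2 : (j : ℝ) ≤ k := by exact_mod_cast h1
    linarith
  obtain ⟨D, κ, hD, hκ, x1, hx1⟩ := exp_unif hk0 (c1 := C / 2) (c2 := 2 * C) hb0 hb1 (by positivity) (by positivity)
  obtain ⟨g1, hg1, hlow1⟩ := lower_unif (s.erase l0) e w c (k + 1)
  obtain ⟨g2, hg2, hlow2⟩ := lower_unif (s.erase l0) e w c (k + 2)
  obtain ⟨x2, hx2⟩ := hlow1 (C / 2) (by positivity)
  obtain ⟨x3, hx3⟩ := hlow2 (C * (1 - b)) (mul_pos hC0 (by linarith))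
  obtain ⟨κ', hκ'⟩ : ∃ κ' : ℝ, κ' = min κ (1 / 2) := ⟨_, rfl⟩
  have hκ'0 : 0 < κ' := by rw [hκ']; exact lt_min hκ (by norm_num)
  have hκ'1 : κ' ≤ κ := by rw [hκ']; exact min_le_left _ _
  have hκ'2 : κ' ≤ 1 / 2 := by rw [hκ']; exact min_le_right _ _
  have h2k : (0 : ℝ) < 2 ^ (k + 1) := by positivity
  obtain ⟨η, hη⟩ : ∃ η : ℝ, η = min (min g1 g2) (min (1 / 4) (κ' / 2 ^ (k + 1))) := ⟨_, rfl⟩
  have hη0 : 0 < η := by
    rw [hη]
    exact lt_min (lt_min hg1 hg2) (lt_min (by norm_num) (by positivity))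
  have hη1 : η ≤ g1 := by rw [hη]; exact (min_le_left _ _).trans (min_le_left _ _)
  have hη2 : η ≤ g2 := by rw [hη]; exact (min_le_left _ _).trans (min_le_right _ _)
  have hη3 : η ≤ 1 / 4 := by rw [hη]; exact (min_le_right _ _).trans (min_le_left _ _)
  have hη4 : η ≤ κ' / 2 ^ (k + 1) := by rw [hη]; exact (min_le_right _ _).trans (min_le_right _ _)
  obtain ⟨x4, hx4⟩ := eventually_atTop.1 (ev_log k)
  have hev : ∀ᶠ x : ℕ in atTop, 2 * D ≤ (x : ℝ) ^ (κ' / 2) :=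
    ((tendsto_rpow_atTop (show 0 < κ' / 2 by positivity)).comp tendsto_natCast_atTop_atTop).eventually_ge_atTop _
  obtain ⟨x5, hx5⟩ := eventually_atTop.1 hev
  refine ⟨η, hη0, x1 + x2 + x3 + x4 + x5 + 1, fun x hx θ hθ hθ0 hmax => ?_⟩
  have hxx1 := hx1 x (by omega)
  have hxx2 := hx2 x (by omega)
  have hxx3 := hx3 x (by omega)
  have hxx4 := hx4 x (by omega)
  have hxx5 := hx5 x (by omega)
  have hx0 : (0 : ℝ) < x := by exact_mod_cast (by omega : 0 < x)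
  have hx1' : (1 : ℝ) ≤ x := by exact_mod_cast (by omega : 1 ≤ x)
  have hq1 : (1 : ℝ) ≤ (x : ℝ) ^ (1 / 2 : ℝ) := Real.one_le_rpow hx1' (by norm_num)
  obtain ⟨u, hu⟩ : ∃ u : ℝ, u = |θ l0| := ⟨_, rfl⟩
  rw [← hu] at hθ0
  have hu0 : 0 < u := lt_of_lt_of_le (Real.rpow_pos_of_pos hx0 _) hθ0
  have hu1 : u ≤ 1 := by rw [hu]; exact hθ l0 hl0
  have hθne : θ l0 ≠ 0 := by
    intro h
    rw [hu, h, abs_zero] at hu0
    exact lt_irrefl _ hu0
  have huinv : 1 / u ≤ (x : ℝ) ^ η := by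
    rw [div_le_iff₀ hu0]
    calc (1 : ℝ) = (x : ℝ) ^ η * (x : ℝ) ^ (-η) := by rw [← Real.rpow_add hx0]; simp
      _ ≤ (x : ℝ) ^ η * u := mul_le_mul_of_nonneg_left hθ0 (by positivity)
  -- the sign
  obtain ⟨σ, hσ1, hσ2⟩ : ∃ σ : ℝ, (σ = 1 ∨ σ = -1) ∧ σ * (θ l0 * w l0) = |θ l0 * w l0| := by
    rcases le_or_gt 0 (θ l0 * w l0) with h | h
    · exact ⟨1, Or.inl rfl, by rw [abs_of_nonneg h, one_mul]⟩
    · exact ⟨-1, Or.inr rfl, by rw [abs_of_neg h]; ring⟩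
  have hσabs : |σ| = 1 := by rcases hσ1 with h | h <;> rw [h] <;> simp
  obtain ⟨φ, hφ⟩ : ∃ φ : ℕ → ℝ → ℝ, φ = fun m t => ∑ l ∈ s, pw (σ * (θ l * w l) / u) (e l) m t := ⟨_, rfl⟩
  have htop : σ * (θ l0 * w l0) / u = |w l0| := by
    rw [hσ2, abs_mul, ← hu]
    field_simp
  have hsplit : ∀ m t, φ m t = pw (|w l0|) c m t + ∑ l ∈ s.erase l0, pw (σ * (θ l * w l) / u) (e l) m t := by
    intro m t
    rw [hφ]
    show ∑ l ∈ s, pw (σ * (θ l * w l) / u) (e l) m t = _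
    rw [← Finset.add_sum_erase s (fun l => pw (σ * (θ l * w l) / u) (e l) m t) hl0, htop, ← hc]
  have hsm1 : ∀ l ∈ s.erase l0, σ * (θ l * w l) / u ≠ 0 → e l < c := by
    intro l hl h
    rw [mem_erase] at hl
    have hθl : θ l ≠ 0 := by
      intro h0
      apply h
      rw [h0]
      simp
    refine lt_of_le_of_ne (hmax l hl.2 hθl) fun h2 => hl.1 (hinj l hl.2 h2)
  have hsm2 : ∀ g : ℝ, η ≤ g → ∀ l ∈ s.erase l0, |σ * (θ l * w l) / u| ≤ (x : ℝ) ^ g * |w l| := by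
    intro g hg l hl
    rw [mem_erase] at hl
    rw [abs_div, abs_mul, hσabs, one_mul, abs_mul, abs_of_pos hu0]
    calc |θ l| * |w l| / u ≤ 1 * |w l| / u := by
          have := hθ l hl.2
          gcongr
      _ = (1 / u) * |w l| := by ring
      _ ≤ (x : ℝ) ^ η * |w l| := mul_le_mul_of_nonneg_right huinv (abs_nonneg _)
      _ ≤ _ := mul_le_mul_of_nonneg_right (Real.rpow_le_rpow_of_exponent_le hx1' hg) (abs_nonneg _)
  have e1 : ∀ t, pw (|w l0|) c (k + 1) t = C * t ^ (c - ((k + 1 : ℕ) : ℝ)) := fun t => by rw [hC]; rfl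
  have e2 : ∀ t, pw (|w l0|) c (k + 2) t = -(C * (1 - b)) * t ^ (c - ((k + 2 : ℕ) : ℝ)) := by
    intro t
    unfold pw
    rw [prod_range_succ, hC, hb]
    push_cast
    ring
  have hSm : Sm k b (C / 2) (2 * C) ((x : ℝ) ^ (1 / 2 : ℝ)) φ := by
    have e3 : c - ((k + 1 : ℕ) : ℝ) = b - 1 := by push_cast; rw [hb]; ring
    refine ⟨hb0, hb1, by positivity, by positivity, hq1, ?_, ?_, ?_, ?_⟩
    · intro m _ t ht
      have ht0 : 0 < t := lt_of_lt_of_le one_pos (hq1.trans ht)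
      rw [hφ]
      exact HasDerivAt.fun_sum (u := s) (fun l _ => pw_der _ (e l) m t ht0)
    · intro t ht
      have ht0 : 0 < t := lt_of_lt_of_le one_pos (hq1.trans ht)
      have h3 := abs_le.mp (hxx2 _ hsm1 (hsm2 g1 hη1) t ht)
      rw [hsplit, e1]
      rw [e3] at h3 ⊢
      have hp := Real.rpow_pos_of_pos ht0 (b - 1)
      linarith [h3.1]
    · intro t ht
      have ht0 : 0 < t := lt_of_lt_of_le one_pos (hq1.trans ht)
      have h3 := abs_le.mp (hxx2 _ hsm1 (hsm2 g1 hη1) t ht)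
      rw [hsplit, e1]
      rw [e3] at h3 ⊢
      have hp := Real.rpow_pos_of_pos ht0 (b - 1)
      nlinarith [h3.2]
    · intro t ht
      have h3 := abs_le.mp (hxx3 _ hsm1 (hsm2 g2 hη2) t ht)
      rw [hsplit, e2]
      linarith [h3.2]
  have hmain := hxx1 φ hSm u hu0 hu1
  -- identification of the sum
  have hsum : ‖Sx x (fun m => φ 0 m) u‖ = ‖∑ i ∈ Icc 1 x, ee (∑ l ∈ s, θ l * (w l * (i : ℝ) ^ e l))‖ := by
    have h1 : Sx x (fun m => φ 0 m) u = ∑ i ∈ Icc 1 x, ee (σ * ∑ l ∈ s, θ l * (w l * (i : ℝ) ^ e l)) := by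
      unfold Sx
      refine sum_congr rfl fun i _ => ?_
      rw [e_eq_ee]
      congr 1
      rw [hφ]
      show u * ∑ l ∈ s, pw (σ * (θ l * w l) / u) (e l) 0 i = _
      rw [mul_sum, mul_sum]
      refine sum_congr rfl fun l _ => ?_
      unfold pw
      simp only [range_zero, prod_empty, mul_one, Nat.cast_zero, sub_zero]
      field_simp
    rw [h1]
    rcases hσ1 with h | h
    · rw [h]
      simp only [one_mul]
    · rw [h]
      simp only [neg_one_mul]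
      exact ee_neg_norm _ _
  rw [hsum] at hmain
  obtain ⟨N, hN⟩ : ∃ N : ℝ, N = ‖∑ i ∈ Icc 1 x, ee (∑ l ∈ s, θ l * (w l * (i : ℝ) ^ e l))‖ := ⟨_, rfl⟩
  have hN0 : 0 ≤ N := by rw [hN]; exact norm_nonneg _
  rw [← hN] at hmain ⊢
  have hkb : (k : ℝ) + b = c := by rw [hb]; ring
  rw [hkb] at hmain
  have h3 : (1 + Real.log x) ^ k / (u * (x : ℝ) ^ c) ≤ (x : ℝ) ^ (-κ') := by
    calc (1 + Real.log x) ^ k / (u * (x : ℝ) ^ c) = (1 + Real.log x) ^ k * (1 / u) / (x : ℝ) ^ c := by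
          field_simp
      _ ≤ (x : ℝ) ^ (1 / 4 : ℝ) * (x : ℝ) ^ η / (x : ℝ) ^ c := by
          apply div_le_div_of_nonneg_right _ (by positivity)
          exact mul_le_mul hxx4 huinv (by positivity) (by positivity)
      _ = (x : ℝ) ^ (1 / 4 + η - c) := by
          rw [← Real.rpow_add hx0, ← Real.rpow_sub hx0]
      _ ≤ _ := Real.rpow_le_rpow_of_exponent_le hx1' (by linarith)
  have h4 : (x : ℝ) ^ (-κ) ≤ (x : ℝ) ^ (-κ') := Real.rpow_le_rpow_of_exponent_le hx1' (by linarith)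
  have h5 : (N / x) ^ (2 ^ k) ≤ (x : ℝ) ^ (-(κ' / 2)) := by
    refine hmain.trans ?_
    calc D * ((1 + Real.log x) ^ k / (u * (x : ℝ) ^ c) + (x : ℝ) ^ (-κ)) ≤ D * ((x : ℝ) ^ (-κ') + (x : ℝ) ^ (-κ')) := by
          apply mul_le_mul_of_nonneg_left (add_le_add h3 h4) hD.le
      _ = (2 * D) * (x : ℝ) ^ (-κ') := by ring
      _ ≤ (x : ℝ) ^ (κ' / 2) * (x : ℝ) ^ (-κ') := mul_le_mul_of_nonneg_right hxx5 (by positivity)
      _ = _ := by
          rw [← Real.rpow_add hx0]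
          congr 1
          ring
  have h6 : ((x : ℝ) ^ (-η)) ^ (2 ^ k) ≥ (x : ℝ) ^ (-(κ' / 2)) := by
    rw [← Real.rpow_natCast, ← Real.rpow_mul hx0.le]
    apply Real.rpow_le_rpow_of_exponent_le hx1'
    push_cast
    have h7 : η * 2 ^ k ≤ κ' / 2 := by
      calc η * 2 ^ k ≤ (κ' / 2 ^ (k + 1)) * 2 ^ k := mul_le_mul_of_nonneg_right hη4 (by positivity)
        _ = κ' / 2 := by rw [pow_succ]; field_simp
    linarith
  have h7 : N / x ≤ (x : ℝ) ^ (-η) := by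
    by_contra hcon
    push Not at hcon
    have h8 := pow_lt_pow_left₀ hcon (by positivity) (n := 2 ^ k) (by positivity)
    linarith
  rw [div_le_iff₀ hx0] at h7
  refine h7.trans (le_of_eq ?_)
  rw [← Real.rpow_add_one hx0.ne']
  congr 1
  ring

/-- linear combinations of powers with different exponents -/
lemma single {L : Type*} (s : Finset L) (e w : L → ℝ) (he : ∀ l ∈ s, 1 < e l ∧ ∀ m : ℕ, e l ≠ m)
    (hw : ∀ l ∈ s, w l ≠ 0) (hinj : ∀ l ∈ s, ∀ l' ∈ s, e l = e l' → l = l') : ∃ η : ℝ, 0 < η ∧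
    ∃ x₀ : ℕ, ∀ x : ℕ, x₀ ≤ x → ∀ θ β : L → ℝ, (∀ l ∈ s, θ l = 0 ∨ ((x : ℝ) ^ (-η) ≤ |θ l| ∧ |θ l| ≤ 1)) →
      (∃ l ∈ s, θ l ≠ 0) →
      ‖∑ i ∈ Icc 1 x, ee (∑ l ∈ s, θ l * (β l + w l * (i : ℝ) ^ e l))‖ ≤ (x : ℝ) ^ (1 - η) := by
  classical
  have hall : ∀ t : Finset L, t ⊆ s → ∃ η : ℝ, 0 < η ∧ ∃ x₀ : ℕ, ∀ x : ℕ, x₀ ≤ x → ∀ l0 ∈ t, ∀ θ : L → ℝ,
      (∀ l ∈ s, |θ l| ≤ 1) → (x : ℝ) ^ (-η) ≤ |θ l0| → (∀ l ∈ s, θ l ≠ 0 → e l ≤ e l0) →
      ‖∑ i ∈ Icc 1 x, ee (∑ l ∈ s, θ l * (w l * (i : ℝ) ^ e l))‖ ≤ (x : ℝ) ^ (1 - η) := by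
    intro t
    induction t using Finset.induction_on with
    | empty => exact fun _ => ⟨1, one_pos, 0, fun x _ l0 hl0 => absurd hl0 (notMem_empty l0)⟩
    | insert a t _ ih =>
      intro hts
      obtain ⟨η, hη, x0, h⟩ := ih ((subset_insert a t).trans hts)
      have has : a ∈ s := hts (mem_insert_self a t)
      obtain ⟨η', hη', x0', h'⟩ := top s e w a has (he a has).1 (he a has).2 (hw a has) (fun l hl h1 => hinj l hl a has h1)
      refine ⟨min η η', lt_min hη hη', x0 + x0' + 1, fun x hx l0 hl0 θ h1 h2 h3 => ?_⟩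
      have hx1 : (1 : ℝ) ≤ x := by exact_mod_cast (by omega : 1 ≤ x)
      rcases mem_insert.1 hl0 with rfl | hl0
      · refine (h' x (by omega) θ h1 (le_trans ?_ h2) h3).trans ?_
        · exact Real.rpow_le_rpow_of_exponent_le hx1 (neg_le_neg (min_le_right _ _))
        · exact Real.rpow_le_rpow_of_exponent_le hx1 (by linarith [min_le_right η η'])
      · refine (h x (by omega) l0 hl0 θ h1 (le_trans ?_ h2) h3).trans ?_
        · exact Real.rpow_le_rpow_of_exponent_le hx1 (neg_le_neg (min_le_left _ _))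
        · exact Real.rpow_le_rpow_of_exponent_le hx1 (by linarith [min_le_left η η'])
  obtain ⟨η, hη, x0, h⟩ := hall s (Subset.refl s)
  refine ⟨η, hη, x0, fun x hx θ β hθ hne => ?_⟩
  obtain ⟨l1, hl1, hθ1⟩ := hne
  have hne' : (s.filter (fun l => θ l ≠ 0)).Nonempty := ⟨l1, mem_filter.2 ⟨hl1, hθ1⟩⟩
  obtain ⟨l0, hl0, hmax⟩ := exists_max_image _ e hne'
  rw [mem_filter] at hl0
  have h1 : ∑ i ∈ Icc 1 x, ee (∑ l ∈ s, θ l * (β l + w l * (i : ℝ) ^ e l)) =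
      ee (∑ l ∈ s, θ l * β l) * ∑ i ∈ Icc 1 x, ee (∑ l ∈ s, θ l * (w l * (i : ℝ) ^ e l)) := by
    rw [mul_sum]
    refine sum_congr rfl fun i _ => ?_
    rw [← ee_add, ← sum_add_distrib]
    congr 1
    exact sum_congr rfl fun l _ => by ring
  rw [h1, norm_mul, ee_norm, one_mul]
  refine h x hx l0 hl0.1 θ (fun l hl => ?_) ?_ (fun l hl h0 => hmax l (mem_filter.2 ⟨hl, h0⟩))
  · rcases hθ l hl with h2 | h2
    · rw [h2, abs_zero]
      exact zero_le_one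
    · exact h2.2
  · rcases hθ l0 hl0.1 with h2 | h2
    · exact absurd h2 hl0.2
    · exact h2.1

end Pool.Agent.Q56.WL
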