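import Pool.Agent.Q56.WL.One
import Pool.Agent.Q93.LT.Fld

/-! Moments of the numbers of ideal classes killed by `l`, for all quadratic fields with radicands in windows near powers. -/

set_option autoImplicit false

namespace Pool.Agent.Q56.WL

open Finset Filter Polynomial Topology
open Pool.Agent.Q235.FD (Sets number propData law_prop proportion)
open Pool.Agent.Q93.LT (PX mem_PX theta proportion_le_one pi_lower card_PX card_PX_le big Rt Rt_mod Sq Sq_mod prop_Sq IsTor triv disc_bound pointwise)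

/-- many primes with a periodic property of positive proportion -/
theorem many_of_near {L : Type} [Fintype L] (n : ℕ) {dm : ℕ} {ex ω : L → ℝ} {μ : L → Fin dm} (hset : Setting ex ω μ) (A V : ℕ) (T : ℕ → (L → ℕ) → Prop)
    (hT : ∀ p m, T p m ↔ T p (fun i => m i % p)) (hlow : ∀ p, p.Prime → 4 * n ≤ p → 1 / 4 ≤ proportion p (T p)) :
    ForAlmostAll ex ω μ A V (fun (_ : Unit) x m => (x : ℝ) / (16 * Real.log x) ≤ number (PX n x) (fun p => T p m)) := by
  classical
  obtain ⟨y₁, hy₁⟩ := eventually_atTop.1 (pi_lower.and (big n))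
  refine forAlmostAll_of hset (show (0 : ℝ) < 1 / 4 by norm_num) A V (A₂ := 0 + 0) (fun _ : Unit => propData (theta n) (fun _ => (univ : Finset Unit))
    (by intro x hx; simp) (fun _ p m => T p m) (fun _ p m => hT p m)) (y₁ + 2) ?_
  intro _ x m hx h
  obtain ⟨h1, h2⟩ := hy₁ x (by omega)
  have h3 := law_prop (theta n) _ _ _ _ h (PX n x) (by show PX n x ∈ ({PX n x} : Finset (Finset ℕ)); exact mem_singleton_self _) () (mem_univ _)
  have hx2 : (2 : ℝ) ≤ x := by exact_mod_cast (by omega : 2 ≤ x)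
  have hx0 : (0 : ℝ) < x := by linarith
  obtain ⟨Sg, hSg⟩ : ∃ Sg, Sg = ∑ p ∈ PX n x, proportion p (T p) := ⟨_, rfl⟩
  rw [← hSg] at h3
  have h4 : ((PX n x).card : ℝ) / 4 ≤ Sg := by
    rw [hSg]
    have : ∀ p ∈ PX n x, (1 : ℝ) / 4 ≤ proportion p (T p) := by
      intro p hp
      rw [mem_PX] at hp
      exact hlow p hp.1 hp.2.2
    have h6 := sum_le_sum this
    rw [sum_const, nsmul_eq_mul] at h6
    linarith
  have h5 : Sg ≤ x := by
    rw [hSg]
    have : ∀ p ∈ PX n x, proportion p (T p) ≤ (1 : ℝ) := fun p hp => proportion_le_one (mem_PX.1 hp).1 _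
    have h6 := sum_le_sum this
    rw [sum_const, nsmul_eq_mul, mul_one] at h6
    exact h6.trans (card_PX_le n x)
  have h6 : Real.sqrt (max 1 Sg) * (x : ℝ) ^ (1 / 4 : ℝ) ≤ (x : ℝ) ^ (3 / 4 : ℝ) := by
    have h7 : Real.sqrt (max 1 Sg) ≤ (x : ℝ) ^ (1 / 2 : ℝ) := by
      rw [← Real.sqrt_eq_rpow]
      exact Real.sqrt_le_sqrt (max_le (by linarith) h5)
    calc Real.sqrt (max 1 Sg) * (x : ℝ) ^ (1 / 4 : ℝ) ≤ (x : ℝ) ^ (1 / 2 : ℝ) * (x : ℝ) ^ (1 / 4 : ℝ) :=
          mul_le_mul_of_nonneg_right h7 (by positivity)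
      _ = (x : ℝ) ^ (3 / 4 : ℝ) := by rw [← Real.rpow_add hx0]; norm_num
  have h7 := (abs_le.1 h3).1
  have h8 := card_PX n x
  have h9 : (x : ℝ) / (2 * Real.log x) = 8 * (x / (16 * Real.log x)) := by
    have hlog : 0 < Real.log x := Real.log_pos (by linarith)
    field_simp
    norm_num
  rw [h9] at h1
  have h10 : (number (PX n x) (fun p => T p m) : ℝ) ≥ Sg - (x : ℝ) ^ (3 / 4 : ℝ) := by linarith
  linarith

theorem many_quad_near (σ : Bool) {e w : ℝ} (he : 1 < e) (hk : ∀ k : ℕ, e ≠ k) (hw : w ≠ 0) (A V : ℕ) :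
    ForAlmostAll (fun _ : Unit => e) (fun _ => w) (fun _ => (0 : Fin 1)) A V
      (fun (_ : Unit) x m => (x : ℝ) / (16 * Real.log x) ≤ number (PX 2 x) (fun p => Sq σ p m)) :=
  many_of_near 2 (setting_one he hk hw) A V (Sq σ) (Sq_mod σ) (prop_Sq σ)

/-- the moments -/
theorem moment_near (σ : Bool) (l : ℕ) (hl : 1 ≤ l) (k : ℕ) {e w : ℝ} (he : 1 < e) (hk : ∀ k : ℕ, e ≠ k) (hw : w ≠ 0) :
    ∃ c : ℝ, 0 < c ∧ ∃ C : ℝ, 0 < C ∧ ∀ (β : ℝ) (X : ℕ) (W : Finset ℕ) (m t : ℕ → ℕ), W ⊆ Icc 1 X →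
      (∀ i ∈ W, |(m i : ℝ) - (β + w * (i : ℝ) ^ e)| ≤ (X : ℝ) ^ c ∧ IsTor σ l (m i) (t i)) →
      ∑ i ∈ W, (t i : ℝ) ^ k ≤ C * (Real.sqrt (|β| + (X : ℝ) ^ e) * (X : ℝ) ^ (-c)) ^ k * X := by
  classical
  obtain ⟨C, hC, x₁, hpt⟩ := pointwise σ l hl
  obtain ⟨C1, hC1, htr⟩ := triv l hl
  obtain ⟨c0, hc0, y₀, hlaw⟩ := one_dim (many_quad_near σ he hk hw k 1)
  obtain ⟨c, hc⟩ : ∃ c, c = min c0 (1 / (2 * l + 2)) := ⟨_, rfl⟩
  have hcpos : 0 < c := by rw [hc]; exact lt_min hc0 (by positivity)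
  have hcl : c ≤ 1 / (2 * l + 2) := by rw [hc]; exact min_le_right _ _
  have hc1 : c ≤ 1 := by
    refine hcl.trans ?_
    rw [div_le_one (by positivity)]
    have : (0 : ℝ) ≤ l := Nat.cast_nonneg _
    linarith
  obtain ⟨q₀, hq₀⟩ : ∃ q₀ : ℕ, q₀ = 150 ^ (2 * l) := ⟨_, rfl⟩
  obtain ⟨x₂, hx₂⟩ : ∃ x₂, x₂ = x₁ + y₀ + q₀ + 4 := ⟨_, rfl⟩
  obtain ⟨ω, hω⟩ : ∃ ω, ω = Real.sqrt (|w| + 1) := ⟨_, rfl⟩
  have hω0 : 0 < ω := by rw [hω]; exact Real.sqrt_pos.2 (by positivity)
  refine ⟨c / 2, by positivity, ((2 * C) ^ k + (4 * C1) ^ k + (2 * C1 * (x₂ + 1)) ^ k + 1) * ω ^ k, by positivity, ?_⟩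
  intro β X W m t hW ht
  rcases Nat.eq_zero_or_pos X with hX0 | hX0
  · subst hX0
    have : W = ∅ := by
      rw [← subset_empty]
      simpa using hW
    rw [this]
    simp
  have hXr1 : (1 : ℝ) ≤ X := by exact_mod_cast hX0
  have hXr0 : (0 : ℝ) < X := by linarith
  obtain ⟨S, hS⟩ : ∃ S, S = |β| + (|w| + 1) * (X : ℝ) ^ e := ⟨_, rfl⟩
  have hXe : (X : ℝ) ≤ (X : ℝ) ^ e := by
    calc (X : ℝ) = (X : ℝ) ^ (1 : ℝ) := (Real.rpow_one _).symm
      _ ≤ (X : ℝ) ^ e := Real.rpow_le_rpow_of_exponent_le hXr1 he.le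
  have hXS : (X : ℝ) ≤ S := by
    rw [hS]
    have := abs_nonneg β
    have := abs_nonneg w
    nlinarith
  have hS0 : 0 < S := by linarith
  have hsz : ∀ i ∈ W, (m i : ℝ) ≤ S := by
    intro i hi
    obtain ⟨h1, -⟩ := ht i hi
    have hi1 := mem_Icc.1 (hW hi)
    have hiX : (i : ℝ) ≤ X := by exact_mod_cast hi1.2
    have hie : (i : ℝ) ^ e ≤ (X : ℝ) ^ e := Real.rpow_le_rpow (Nat.cast_nonneg _) hiX (by linarith)
    have hie0 : 0 ≤ (i : ℝ) ^ e := by positivity
    have h2 := (abs_le.1 h1).2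
    have h3 : (X : ℝ) ^ (c / 2) ≤ (X : ℝ) ^ e := Real.rpow_le_rpow_of_exponent_le hXr1 (by linarith)
    have h4 : w * (i : ℝ) ^ e ≤ |w| * (X : ℝ) ^ e := by
      calc w * (i : ℝ) ^ e ≤ |w| * (i : ℝ) ^ e := mul_le_mul_of_nonneg_right (le_abs_self w) hie0
        _ ≤ |w| * (X : ℝ) ^ e := mul_le_mul_of_nonneg_left hie (abs_nonneg w)
    have h5 := le_abs_self β
    rw [hS]
    linarith
  obtain ⟨M, hM⟩ : ∃ M, M = Real.sqrt S := ⟨_, rfl⟩
  have hM0 : 0 < M := by rw [hM]; exact Real.sqrt_pos.2 hS0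
  have hMle : M ≤ ω * Real.sqrt (|β| + (X : ℝ) ^ e) := by
    rw [hM, hω, ← Real.sqrt_mul (by positivity)]
    apply Real.sqrt_le_sqrt
    rw [hS]
    have := abs_nonneg β
    have := abs_nonneg w
    nlinarith
  obtain ⟨ε, hε⟩ : ∃ ε, ε = (X : ℝ) ^ (-(c / 2)) := ⟨_, rfl⟩
  have hε0 : 0 < ε := by rw [hε]; positivity
  have hε1 : ε ≤ 1 := by
    rw [hε]
    exact Real.rpow_le_one_of_one_le_of_nonpos hXr1 (by linarith)
  have hmain : ∑ i ∈ W, (t i : ℝ) ^ k ≤ ((2 * C) ^ k + (4 * C1) ^ k + (2 * C1 * (x₂ + 1)) ^ k + 1) * (M * ε) ^ k * X := by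
    -- the trivial bound
    have hT : ∀ i ∈ W, (t i : ℝ) ≤ 2 * C1 * M := by
      intro i hi
      obtain ⟨F, _, _, hF, ⟨γ, hγ, hq⟩, h1⟩ := (ht i hi).2
      rw [h1]
      have hD := disc_bound hF γ hγ hq
      calc _ ≤ C1 * Real.sqrt |(NumberField.discr F : ℝ)| := htr F hF
        _ ≤ C1 * Real.sqrt (4 * S) := by
            apply mul_le_mul_of_nonneg_left _ hC1.le
            apply Real.sqrt_le_sqrt
            have := hsz i hi
            linarith
        _ = 2 * C1 * M := by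
            rw [Real.sqrt_mul (by norm_num), show (4 : ℝ) = 2 ^ 2 by norm_num, Real.sqrt_sq (by norm_num), hM]
            ring
    have hcardW : (W.card : ℝ) ≤ X := by
      have := card_le_card hW
      rw [Nat.card_Icc, Nat.add_sub_cancel] at this
      exact_mod_cast this
    obtain ⟨x, hx⟩ : ∃ x, x = ⌊(X : ℝ) ^ c⌋₊ := ⟨_, rfl⟩
    have hxle : (x : ℝ) ≤ (X : ℝ) ^ c := by rw [hx]; exact Nat.floor_le (by positivity)
    have hxlt : (X : ℝ) ^ c < x + 1 := by rw [hx]; exact Nat.lt_floor_add_one _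
    have hee : ε * ε = (X : ℝ) ^ (-c) := by
      rw [hε, ← Real.rpow_add hXr0]
      congr 1
      ring
    have hinv : (X : ℝ) ^ (-c) * (X : ℝ) ^ c = 1 := by
      rw [← Real.rpow_add hXr0]
      simp
    by_cases hbig : x₂ ≤ x
    · -- the law
      have hx2 : (4 : ℝ) ≤ x := by exact_mod_cast (by omega : 4 ≤ x)
      have hx0 : (0 : ℝ) < x := by linarith
      have hsx : 0 < Real.sqrt x := Real.sqrt_pos.2 hx0
      have hex : (X : ℝ) ^ c ≤ 2 * x := by linarith
      have hxe : 1 / (x : ℝ) ≤ 2 * (ε * ε) := by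
        rw [div_le_iff₀ hx0, hee]
        have : (X : ℝ) ^ (-c) * (X : ℝ) ^ c ≤ (X : ℝ) ^ (-c) * (2 * x) :=
          mul_le_mul_of_nonneg_left hex (by positivity)
        rw [hinv] at this
        linarith
      have hsxe : 1 / Real.sqrt x ≤ 2 * ε := by
        have h1 : (1 / Real.sqrt x) ^ 2 ≤ (2 * ε) ^ 2 := by
          rw [div_pow, one_pow, Real.sq_sqrt hx0.le]
          nlinarith [mul_pos hε0 hε0]
        exact (pow_le_pow_iff_left₀ (by positivity) (by positivity) (by norm_num)).1 h1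
      have hXX : ((150 * (x : ℝ)) ^ l) ^ 2 * x ≤ S := by
        have h150 : (150 : ℝ) ^ (2 * l) ≤ x := by
          have : q₀ ≤ x := by omega
          rw [hq₀] at this
          exact_mod_cast this
        calc ((150 * (x : ℝ)) ^ l) ^ 2 * x = 150 ^ (2 * l) * (x ^ (2 * l) * x) := by
              rw [mul_pow, mul_pow, ← pow_mul, ← pow_mul, mul_comm l 2]
              ring
          _ ≤ x * (x ^ (2 * l) * x) := mul_le_mul_of_nonneg_right h150 (by positivity)
          _ = x ^ (2 * l + 2) := by ring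
          _ ≤ ((X : ℝ) ^ c) ^ (2 * l + 2) := pow_le_pow_left₀ hx0.le hxle _
          _ = (X : ℝ) ^ (c * (2 * l + 2)) := by
              rw [← Real.rpow_natCast, ← Real.rpow_mul hXr0.le]
              congr 1
              push_cast
              ring
          _ ≤ (X : ℝ) ^ (1 : ℝ) := by
              apply Real.rpow_le_rpow_of_exponent_le hXr1
              rwa [le_div_iff₀ (by positivity)] at hcl
          _ = X := Real.rpow_one _
          _ ≤ S := hXS
      have hwin : (X : ℝ) ^ (c / 2) ≤ (x : ℝ) ^ 1 := by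
        rw [pow_one]
        have h1 : ((X : ℝ) ^ (c / 2)) ^ 2 = (X : ℝ) ^ c := by
          rw [← Real.rpow_natCast, ← Real.rpow_mul hXr0.le]
          congr 1
          push_cast
          ring
        have h2 : ((X : ℝ) ^ (c / 2)) ^ 2 ≤ (x : ℝ) ^ 2 := by
          rw [h1]
          nlinarith
        exact (pow_le_pow_iff_left₀ (by positivity) (by positivity) (by norm_num)).1 h2
      -- the exceptional set
      obtain ⟨E, hE⟩ : ∃ E : ℕ → Prop, E = fun n => ∀ x' : ℕ, x ≤ x' → (x' : ℝ) ≤ (X : ℝ) ^ c0 →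
        (x' : ℝ) / (16 * Real.log x') ≤ number (PX 2 x') (fun p => Sq σ p (fun _ => n)) := ⟨_, rfl⟩
      have hex1 := hlaw () β X x (by omega)
      rw [← hE] at hex1
      obtain ⟨B, hB⟩ : ∃ B, B = W.filter (fun i => ¬ E (m i)) := ⟨_, rfl⟩
      have hBcard : (B.card : ℝ) ≤ 1 / (x : ℝ) ^ k * X := by
        refine le_trans ?_ hex1
        unfold badIndices
        apply Nat.cast_le.2
        apply card_le_card
        intro i hi
        rw [hB, mem_filter] at hi
        rw [mem_filter]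
        exact ⟨hW hi.1, m i, ((ht i hi.1).1).trans hwin, hi.2⟩
      have hgood : ∀ i ∈ W.filter (fun i => E (m i)), (t i : ℝ) ^ k ≤ (C * (M / Real.sqrt x)) ^ k := by
        intro i hi
        rw [mem_filter] at hi
        apply pow_le_pow_left₀ (Nat.cast_nonneg _)
        have h1 : (x : ℝ) / (16 * Real.log x) ≤ number (PX 2 x) (fun p => Sq σ p (fun _ => m i)) := by
          have h2 := hi.2
          rw [hE] at h2
          apply h2 x le_rfl
          refine hxle.trans (Real.rpow_le_rpow_of_exponent_le hXr1 ?_)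
          rw [hc]
          exact min_le_left _ _
        rw [hM]
        exact hpt x (by omega) (fun _ => m i) h1 S (hsz i hi.1) hXX _ (ht i hi.1).2
      have hbad : ∀ i ∈ B, (t i : ℝ) ^ k ≤ (2 * C1 * M) ^ k := by
        intro i hi
        rw [hB, mem_filter] at hi
        exact pow_le_pow_left₀ (Nat.cast_nonneg _) (hT i hi.1) _
      have hsplit : ∑ i ∈ W, (t i : ℝ) ^ k =
          ∑ i ∈ W.filter (fun i => E (m i)), (t i : ℝ) ^ k + ∑ i ∈ B, (t i : ℝ) ^ k := by
        rw [hB, sum_filter_add_sum_filter_not]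
      rw [hsplit]
      have h1 := sum_le_sum hgood
      have h2 := sum_le_sum hbad
      rw [sum_const, nsmul_eq_mul] at h1 h2
      have h3 : ((W.filter (fun i => E (m i))).card : ℝ) ≤ X := by
        refine le_trans ?_ hcardW
        exact_mod_cast card_filter_le _ _
      have h4 : ((W.filter (fun i => E (m i))).card : ℝ) * (C * (M / Real.sqrt x)) ^ k ≤
          (2 * C) ^ k * (M * ε) ^ k * X := by
        calc _ ≤ (X : ℝ) * (C * (M * (2 * ε))) ^ k := by
              apply mul_le_mul h3 _ (by positivity) hXr0.le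
              apply pow_le_pow_left₀ (by positivity)
              apply mul_le_mul_of_nonneg_left _ hC.le
              rw [div_eq_mul_one_div]
              exact mul_le_mul_of_nonneg_left hsxe hM0.le
          _ = (2 * C) ^ k * (M * ε) ^ k * X := by
              rw [← mul_pow, mul_comm (X : ℝ)]
              congr 2
              ring
      have h5 : (B.card : ℝ) * (2 * C1 * M) ^ k ≤ (4 * C1) ^ k * (M * ε) ^ k * X := by
        calc _ ≤ (1 / (x : ℝ) ^ k * X) * (2 * C1 * M) ^ k := mul_le_mul_of_nonneg_right hBcard (by positivity)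
          _ = (1 / (x : ℝ)) ^ k * (2 * C1 * M) ^ k * X := by
              rw [div_pow, one_pow]
              ring
          _ ≤ (2 * ε) ^ k * (2 * C1 * M) ^ k * X := by
              apply mul_le_mul_of_nonneg_right _ hXr0.le
              apply mul_le_mul_of_nonneg_right _ (by positivity)
              apply pow_le_pow_left₀ (by positivity)
              refine hxe.trans ?_
              nlinarith
          _ = (4 * C1) ^ k * (M * ε) ^ k * X := by
              rw [← mul_pow, ← mul_pow]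
              congr 2
              ring
      have h6 : (0 : ℝ) ≤ (M * ε) ^ k * X := by positivity
      have h7 : (0 : ℝ) ≤ (2 * C1 * (x₂ + 1)) ^ k + 1 := by positivity
      calc _ ≤ (2 * C) ^ k * (M * ε) ^ k * X + (4 * C1) ^ k * (M * ε) ^ k * X := by linarith
        _ ≤ ((2 * C) ^ k + (4 * C1) ^ k + (2 * C1 * (x₂ + 1)) ^ k + 1) * (M * ε) ^ k * X := by
            have e3 : ((2 * C) ^ k + (4 * C1) ^ k + (2 * C1 * (x₂ + 1)) ^ k + 1) * (M * ε) ^ k * X =
                (2 * C) ^ k * (M * ε) ^ k * X + (4 * C1) ^ k * (M * ε) ^ k * X +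
                ((2 * C1 * (x₂ + 1)) ^ k + 1) * ((M * ε) ^ k * X) := by ring
            have e4 := mul_nonneg h7 h6
            linarith
    · -- `X` is bounded
      push Not at hbig
      have h1 : (X : ℝ) ^ c ≤ x₂ + 1 := by
        have : (x : ℝ) ≤ x₂ := by exact_mod_cast hbig.le
        linarith
      have h2 : 1 ≤ (x₂ + 1) * ε := by
        have h3 : (X : ℝ) ^ (-c) * (X : ℝ) ^ c ≤ (X : ℝ) ^ (-c) * (x₂ + 1) :=
          mul_le_mul_of_nonneg_left h1 (by positivity)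
        rw [hinv, ← hee] at h3
        have h4 : ε * ε * ((x₂ : ℝ) + 1) ≤ ε * ((x₂ : ℝ) + 1) := by
          apply mul_le_mul_of_nonneg_right _ (by positivity)
          nlinarith
        linarith
      have h3 : ∀ i ∈ W, (t i : ℝ) ^ k ≤ (2 * C1 * (x₂ + 1)) ^ k * (M * ε) ^ k := by
        intro i hi
        rw [← mul_pow]
        apply pow_le_pow_left₀ (Nat.cast_nonneg _)
        refine (hT i hi).trans ?_
        calc 2 * C1 * M = 2 * C1 * M * 1 := by ring
          _ ≤ 2 * C1 * M * ((x₂ + 1) * ε) := mul_le_mul_of_nonneg_left h2 (by positivity)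
          _ = 2 * C1 * (x₂ + 1) * (M * ε) := by ring
      have h4 := sum_le_sum h3
      rw [sum_const, nsmul_eq_mul] at h4
      have h6 : (0 : ℝ) ≤ (M * ε) ^ k * X := by positivity
      have h7 : (0 : ℝ) ≤ (2 * C) ^ k + (4 * C1) ^ k + 1 := by positivity
      calc _ ≤ (W.card : ℝ) * ((2 * C1 * (x₂ + 1)) ^ k * (M * ε) ^ k) := h4
        _ ≤ (X : ℝ) * ((2 * C1 * (x₂ + 1)) ^ k * (M * ε) ^ k) := mul_le_mul_of_nonneg_right hcardW (by positivity)
        _ ≤ ((2 * C) ^ k + (4 * C1) ^ k + (2 * C1 * (x₂ + 1)) ^ k + 1) * (M * ε) ^ k * X := by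
            have e3 : ((2 * C) ^ k + (4 * C1) ^ k + (2 * C1 * (x₂ + 1)) ^ k + 1) * (M * ε) ^ k * X =
                (X : ℝ) * ((2 * C1 * (x₂ + 1)) ^ k * (M * ε) ^ k) +
                ((2 * C) ^ k + (4 * C1) ^ k + 1) * ((M * ε) ^ k * X) := by ring
            have e4 := mul_nonneg h7 h6
            linarith
  refine hmain.trans ?_
  have hP : 0 ≤ (2 * C) ^ k + (4 * C1) ^ k + (2 * C1 * (x₂ + 1)) ^ k + 1 := by positivity
  have h1 : (M * ε) ^ k ≤ (ω * Real.sqrt (|β| + (X : ℝ) ^ e) * ε) ^ k :=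
    pow_le_pow_left₀ (by positivity) (mul_le_mul_of_nonneg_right hMle hε0.le) _
  rw [← hε]
  calc _ ≤ ((2 * C) ^ k + (4 * C1) ^ k + (2 * C1 * (x₂ + 1)) ^ k + 1) * (ω * Real.sqrt (|β| + (X : ℝ) ^ e) * ε) ^ k * X := by
        gcongr
    _ = _ := by
        rw [mul_pow, mul_pow, mul_pow]
        ring

end Pool.Agent.Q56.WL
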