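import Pool.Agent.Q56.WL.Rough
import Pool.Agent.Q235.FD.WJoint

/-! Joint moments with weights, near powers. -/

set_option autoImplicit false

namespace Pool.Agent.Q56.WL

open Finset Filter
open Pool.Agent.Q235.FD

variable {s : ℕ} {D : Fin s → ℕ}

/-- **The law for the joint moments, with weights.** -/
theorem wjoint_near (hs : 1 ≤ s) (hD : ∀ i, Odd (D i)) {dm : ℕ} {ex ω : (Σ i, Fin (D i)) → ℝ} {μ : (Σ i, Fin (D i)) → Fin dm} (hset : Setting ex ω μ) {δ : ℝ} (hδ : 0 < δ) (A V B : ℕ) :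
    ForAlmostAll ex ω μ A V (fun (θ : Weights B) x m => ∀ w ∈ θ.W x,
      |∑ p ∈ primesTo x, w p * Real.log p * jbad p m| ≤ (x : ℝ) ^ (1 / 2 + δ) ∧
      ∀ k : Fin s → ℕ, (∀ i, k i ≤ D i) → |∑ p ∈ primesTo x, w p * Real.log p * jpow k p m| ≤ (x : ℝ) ^ (1 / 2 + δ)) := by
  classical
  have : Nonempty (Σ i, Fin (D i)) := ⟨⟨⟨0, hs⟩, ⟨0, (hD _).pos⟩⟩⟩
  obtain ⟨Q, hQ⟩ : ∃ Q : Finset (Fin s → ℕ), Q = Fintype.piFinset (fun i => range (D i + 1)) := ⟨_, rfl⟩
  have hQ' : ∀ k, k ∈ Q ↔ ∀ i, k i ≤ D i := by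
    intro k
    rw [hQ, Fintype.mem_piFinset]
    exact forall_congr' fun i => by rw [mem_range]; omega
  have hex : ∀ k : {k // k ∈ Q}, ∃ C : ℝ, 0 ≤ C ∧ ∀ p : ℕ, p.Prime → |avg p (jpow (D := D) k.1 p)| ≤ C / p :=
    fun k => avg_jpow hD ((hQ' k.1).1 k.2)
  choose C hC0 hC using hex
  have hS : 0 ≤ ∑ k, C k := sum_nonneg fun k _ => hC0 k
  have h0 := CJ_one (D := D)
  have h0' : 1 ≤ CJ D ^ s := one_le_pow₀ h0
  have hDs : 0 ≤ ∑ i, ((D i : ℝ) + 2) := sum_nonneg fun i _ => by positivity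
  obtain ⟨T, hT⟩ : ∃ T : ℝ, T = 2 * CJ D ^ s + ∑ k, C k + ∑ i, ((D i : ℝ) + 2) := ⟨_, rfl⟩
  have hT1 : 1 ≤ T := by linarith
  have hsqrt : ∀ p : ℕ, p.Prime → (1 : ℝ) ≤ Real.sqrt p := fun p hp => Real.one_le_sqrt.2 (by exact_mod_cast hp.one_lt.le)
  have hdiv : ∀ p : ℕ, p.Prime → ∀ a : ℝ, 0 ≤ a → a / p ≤ a / Real.sqrt p := by
    intro p hp a ha
    have h1 := hsqrt p hp
    apply div_le_div_of_nonneg_left ha (by linarith)
    calc Real.sqrt p = Real.sqrt p * 1 := (mul_one _).symm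
      _ ≤ Real.sqrt p * Real.sqrt p := mul_le_mul_of_nonneg_left h1 (by linarith)
      _ = p := Real.mul_self_sqrt (Nat.cast_nonneg p)
  have sqle : ∀ (F : ((Σ i, Fin (D i)) → ℕ) → ℝ) (p : ℕ), p.Prime → (∀ n, |F n| ≤ T) → avg p (fun n => F n ^ 2) ≤ T ^ 2 := by
    intro F p hp hF
    refine le_trans (avg_mono (G := fun _ => T ^ 2) fun n => ?_) (le_of_eq (avg_const hp.one_lt.le _))
    rw [← sq_abs]
    exact pow_le_pow_left₀ (abs_nonneg _) (hF n) 2
  have hT2 : T ≤ T ^ 2 := by nlinarith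
  have h1 := rough_near' (L := Σ i, Fin (D i)) hset hδ (A + 1) V B Q.card (fun _ => (univ : Finset {k // k ∈ Q})) (by
    intro x hx
    rw [card_univ, Fintype.card_coe]
    calc Q.card ≤ 2 ^ Q.card := Nat.lt_two_pow_self.le
      _ ≤ x ^ Q.card := Nat.pow_le_pow_left hx _) (fun k p m => jpow k.1 p m) (fun k p n _ => jpow_mod k.1 p n)
    (C := T ^ 2) (by linarith) (fun k p n hp => by
      have h2 := jpow_bound hD ((hQ' k.1).1 k.2) hp n
      have h3 := hsqrt p hp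
      calc |jpow k.1 p n| ≤ T ^ 2 * 1 := by linarith
        _ ≤ T ^ 2 * Real.sqrt p := mul_le_mul_of_nonneg_left h3 (by positivity)) (fun k p hp => by
      have hpp : (0 : ℝ) < Real.sqrt p := by linarith [hsqrt p hp]
      refine (hC k p hp).trans ((hdiv p hp _ (hC0 k)).trans (div_le_div_of_nonneg_right ?_ hpp.le))
      have := single_le_sum (f := C) (fun k _ => hC0 k) (mem_univ k)
      linarith) (fun k p hp => sqle _ p hp fun n => (jpow_bound hD ((hQ' k.1).1 k.2) hp n).trans (by linarith))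
  have hjb : ∀ (p : ℕ) (n : (Σ i, Fin (D i)) → ℕ), |jbad p n| ≤ T := by
    intro p n
    unfold jbad
    split_ifs
    · rw [abs_zero]; linarith
    · rw [abs_one]; linarith
  have h2 := rough_near' (L := Σ i, Fin (D i)) hset hδ (A + 1) V B 1 (fun _ => (univ : Finset Unit)) (by
    intro x hx
    rw [card_univ, Fintype.card_unit, pow_one]
    omega) (fun _ p m => jbad p m) (fun _ p n _ => jbad_mod p n)
    (C := T ^ 2) (by linarith) (fun _ p n hp => by
      have h3 := hsqrt p hp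
      calc |jbad p n| ≤ T ^ 2 * 1 := by linarith [hjb p n]
        _ ≤ T ^ 2 * Real.sqrt p := mul_le_mul_of_nonneg_left h3 (by positivity)) (fun _ p hp => (avg_jbad hD p hp).trans (by
        have hpp : (0 : ℝ) < Real.sqrt p := by linarith [hsqrt p hp]
        exact (hdiv p hp _ hDs).trans (div_le_div_of_nonneg_right (by linarith) hpp.le))) (fun _ p hp => sqle _ p hp fun n => hjb p n)
  refine ForAlmostAll.and h1 h2 ?_
  intro θ x m g1 g2 w hw
  exact ⟨g2 w hw () (mem_univ _), fun k hk => g1 w hw ⟨k, (hQ' k).2 hk⟩ (mem_univ _)⟩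

end Pool.Agent.Q56.WL
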