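import Pool.Agent.Q56.WL.Cen
import Pool.Agent.Q56.WL.Thr
import Pool.Agent.TH869.EVF.Wit

/-! Witnesses for the strong test, near powers. -/

set_option autoImplicit false

namespace Pool.Agent.Q56.WL

open Finset Filter
open Pool.Agent.Q235.FD (Sets avg avg_const avg_mono avg_zmod)
open Pool.Agent.TH869.EVF (IsWit wit_of recip count_neg js PR PR_card)
open Pool.Agent.TH894.NG (PX mem_PX dvd_count)

/-! ### Averages of quadratic symbols -/

lemma quad_shift {p : ℕ} [Fact p.Prime] (hp2 : p ≠ 2) {h : ZMod p} (hh : h ≠ 0) :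
    ∑ x : ZMod p, quadraticChar (ZMod p) (x * (x + h)) = -1 := by
  have h0 : ∀ x : ZMod p, quadraticChar (ZMod p) (x * (x + h)) = if x = 0 then 0 else quadraticChar (ZMod p) (1 + h * x⁻¹) := by
    intro x
    split_ifs with hx
    · rw [hx, zero_mul]
      exact quadraticChar_zero
    · have e : x * (x + h) = x ^ 2 * (1 + h * x⁻¹) := by field_simp
      rw [e, map_mul, quadraticChar_sq_one' hx, one_mul]
  have h1 : ∑ x : ZMod p, quadraticChar (ZMod p) (x * (x + h)) = ∑ x : ZMod p, (if x = 0 then 0 else quadraticChar (ZMod p) (1 + h * x⁻¹)) := sum_congr rfl fun x _ => h0 x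
  have h2 : ∑ x : ZMod p, (if x = 0 then 0 else quadraticChar (ZMod p) (1 + h * x⁻¹)) = ∑ x : ZMod p, quadraticChar (ZMod p) (1 + h * x⁻¹) - 1 := by
    have : ∀ x : ZMod p, (if x = 0 then 0 else quadraticChar (ZMod p) (1 + h * x⁻¹)) = quadraticChar (ZMod p) (1 + h * x⁻¹) - if x = 0 then 1 else 0 := by
      intro x
      split_ifs with hx
      · rw [hx, inv_zero, mul_zero, add_zero, map_one]; norm_num
      · rw [sub_zero]
    rw [sum_congr rfl fun x _ => this x, sum_sub_distrib, sum_ite_eq' univ (0 : ZMod p), if_pos (mem_univ _)]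
  have h3 : ∑ x : ZMod p, quadraticChar (ZMod p) (1 + h * x⁻¹) = ∑ x : ZMod p, quadraticChar (ZMod p) x := by
    have hinj : Function.Injective (fun x : ZMod p => 1 + h * x⁻¹) := by
      intro a b hab
      have := add_left_cancel hab
      exact inv_injective (mul_left_cancel₀ hh this)
    exact Fintype.sum_bijective (fun x : ZMod p => 1 + h * x⁻¹) (Finite.injective_iff_bijective.1 hinj) _ _ (fun _ => rfl)
  have h4 : ∑ x : ZMod p, quadraticChar (ZMod p) x = 0 := quadraticChar_sum_zero (by rw [ZMod.ringChar_zmod_n]; exact hp2)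
  rw [h1, h2, h3, h4]; norm_num

lemma sum_zero_of {L : Type} [Fintype L] [DecidableEq L] {p : ℕ} [Fact p.Prime] (F : (L → ZMod p) → ℤ) (c : L → ZMod p) (hc : ∀ i, c i ≠ 0)
    (h : ∀ v, F (fun i => c i * v i) = - F v) : ∑ v, F v = 0 := by
  have h1 : ∑ v : L → ZMod p, F (fun i => c i * v i) = ∑ v, F v := by
    have hinj : Function.Injective (fun (v : L → ZMod p) => fun i => c i * v i) := by
      intro v v' hv
      funext i
      exact mul_left_cancel₀ (hc i) (congrFun hv i)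
    exact Fintype.sum_bijective (fun (v : L → ZMod p) => fun i => c i * v i) (Finite.injective_iff_bijective.1 hinj) _ _ (fun _ => rfl)
  have h2 : ∑ v : L → ZMod p, F (fun i => c i * v i) = - ∑ v, F v := by
    rw [← sum_neg_distrib]
    exact sum_congr rfl fun v _ => h v
  linarith

/-- the sign -/
def sg (b : Bool) : ℤ := if b then 1 else -1

lemma js_char {p : ℕ} [Fact p.Prime] (a : ℤ) : (jacobiSym a p : ℤ) = quadraticChar (ZMod p) (a : ZMod p) := by
  rw [← jacobiSym.legendreSym.to_jacobiSym]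
  rfl

lemma js_mod {p : ℕ} [Fact p.Prime] {a b : ℤ} (h : (a : ZMod p) = (b : ZMod p)) : jacobiSym a p = jacobiSym b p := by
  rw [js_char, js_char, h]

lemma js_abs_le (a : ℤ) (p : ℕ) : |(jacobiSym a p : ℝ)| ≤ 1 := by
  rcases jacobiSym.trichotomy a p with h | h | h <;> rw [h] <;> norm_num

lemma avg_js {L : Type} [Fintype L] [DecidableEq L] {p : ℕ} [Fact p.Prime] (N : (L → ℕ) → ℤ) (f : (L → ZMod p) → ZMod p)
    (hf : ∀ n, (N n : ZMod p) = f (fun l => (n l : ZMod p))) :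
    avg p (fun n => (jacobiSym (N n) p : ℝ)) = ((∑ v, quadraticChar (ZMod p) (f v) : ℤ) : ℝ) / (p : ℝ) ^ Fintype.card L := by
  have h1 : (fun n : L → ℕ => (jacobiSym (N n) p : ℝ)) = fun n : L → ℕ => (fun v : L → ZMod p => ((quadraticChar (ZMod p) (f v) : ℤ) : ℝ)) (fun l => (n l : ZMod p)) := by
    funext n
    rw [js_char, hf]
  rw [h1, avg_zmod (fun v : L → ZMod p => ((quadraticChar (ZMod p) (f v) : ℤ) : ℝ))]
  push_cast
  rfl

/-- the three numbers formed from two -/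
def N2 (s : Fin 3) (n : Fin 2 → ℕ) : ℤ := if s = 0 then n 0 else if s = 1 then n 1 else n 0 * n 1

lemma avg_two {p : ℕ} [Fact p.Prime] (hp2 : p ≠ 2) (b : Bool) (s : Fin 3) :
    avg p (fun n : Fin 2 → ℕ => (jacobiSym (sg b * N2 s n) p : ℝ)) = 0 := by
  obtain ⟨u, hu⟩ := quadraticChar_exists_neg_one (F := ZMod p) (by rw [ZMod.ringChar_zmod_n]; exact hp2)
  have hu0 : u ≠ 0 := by
    rintro rfl
    rw [quadraticChar_zero] at hu
    norm_num at hu
  obtain ⟨f, hf⟩ : ∃ f : (Fin 2 → ZMod p) → ZMod p, f = fun v => (sg b : ZMod p) * (if s = 0 then v 0 else if s = 1 then v 1 else v 0 * v 1) := ⟨_, rfl⟩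
  rw [avg_js (fun n : Fin 2 → ℕ => sg b * N2 s n) f (by
    intro n
    rw [hf]
    unfold N2
    push_cast
    split_ifs <;> push_cast <;> rfl)]
  have h0 : ∑ v, quadraticChar (ZMod p) (f v) = 0 := by
    refine sum_zero_of (fun v => quadraticChar (ZMod p) (f v)) (fun i => if (s = 1 ∧ i = 1) ∨ (s ≠ 1 ∧ i = 0) then u else 1) ?_ ?_
    · intro i
      beta_reduce
      split_ifs
      · exact hu0
      · exact one_ne_zero
    · intro v
      have e : f (fun i => (if (s = 1 ∧ i = 1) ∨ (s ≠ 1 ∧ i = 0) then u else 1) * v i) = u * f v := by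
        rw [hf]
        fin_cases s <;> simp <;> ring
      beta_reduce
      rw [e, map_mul, hu]
      ring
  rw [h0]
  norm_num

lemma avg_one {p : ℕ} [Fact p.Prime] (hp2 : p ≠ 2) (b : Bool) :
    avg p (fun n : Unit → ℕ => (jacobiSym (sg b * (n () : ℤ)) p : ℝ)) = 0 := by
  obtain ⟨u, hu⟩ := quadraticChar_exists_neg_one (F := ZMod p) (by rw [ZMod.ringChar_zmod_n]; exact hp2)
  have hu0 : u ≠ 0 := by
    rintro rfl
    rw [quadraticChar_zero] at hu
    norm_num at hu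
  rw [avg_js (fun n : Unit → ℕ => sg b * (n () : ℤ)) (fun v => (sg b : ZMod p) * v ()) (by
    intro n
    push_cast
    rfl)]
  have h0 : ∑ v : Unit → ZMod p, quadraticChar (ZMod p) ((sg b : ZMod p) * v ()) = 0 := by
    refine sum_zero_of (fun v : Unit → ZMod p => quadraticChar (ZMod p) ((sg b : ZMod p) * v ())) (fun _ => u) (fun _ => hu0) ?_
    intro v
    beta_reduce
    have e : (sg b : ZMod p) * (u * v ()) = u * ((sg b : ZMod p) * v ()) := by ring
    rw [e, map_mul, hu]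
    ring
  rw [h0]
  norm_num

lemma avg_shift {p : ℕ} [Fact p.Prime] (hp2 : p ≠ 2) (b : Bool) (h : ℤ) (hh : ¬ (p : ℤ) ∣ h) :
    |avg p (fun n : Unit → ℕ => (jacobiSym (sg b * ((n () : ℤ) * (n () + h))) p : ℝ))| ≤ 1 / p := by
  have hh' : (h : ZMod p) ≠ 0 := fun h0 => hh ((ZMod.intCast_zmod_eq_zero_iff_dvd h p).1 h0)
  rw [avg_js (fun n : Unit → ℕ => sg b * ((n () : ℤ) * (n () + h))) (fun v => (sg b : ZMod p) * (v () * (v () + (h : ZMod p)))) (by
    intro n
    push_cast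
    rfl)]
  have h0 : ∑ v : Unit → ZMod p, quadraticChar (ZMod p) ((sg b : ZMod p) * (v () * (v () + (h : ZMod p)))) = - quadraticChar (ZMod p) (sg b : ZMod p) := by
    have e1 : ∑ v : Unit → ZMod p, quadraticChar (ZMod p) ((sg b : ZMod p) * (v () * (v () + (h : ZMod p)))) =
        ∑ x : ZMod p, quadraticChar (ZMod p) ((sg b : ZMod p) * (x * (x + (h : ZMod p)))) := by
      refine (Equiv.sum_comp (Equiv.funUnique Unit (ZMod p)).symm (fun v : Unit → ZMod p => quadraticChar (ZMod p) ((sg b : ZMod p) * (v () * (v () + (h : ZMod p)))))).symm.trans ?_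
      refine sum_congr rfl fun x _ => ?_
      simp only [Equiv.funUnique_symm_apply, uniqueElim_const]
    rw [e1]
    simp only [map_mul (quadraticChar (ZMod p)) (sg b : ZMod p)]
    rw [← mul_sum, quad_shift hp2 hh']
    ring
  rw [h0, Fintype.card_unit, pow_one, abs_div, Nat.abs_cast]
  have hp0 : (0 : ℝ) < p := by exact_mod_cast (Fact.out : p.Prime).pos
  apply div_le_div_of_nonneg_right _ hp0.le
  have h1 := js_abs_le (sg b) p
  rw [js_char] at h1
  push_cast at h1 ⊢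
  rw [abs_neg]
  exact h1

/-! ### The sums of the symbols -/

/-- two sequences -/
theorem two_near {m : ℕ} {e w : Fin 2 → ℝ} {μ : Fin 2 → Fin m} (hs : Setting e w μ) {δ : ℝ} (hδ : 0 < δ) (A V : ℕ) :
    ForAlmostAll e w μ A V (fun (_ : Unit) z n => ∀ b s,
      |∑ p ∈ PX z, (jacobiSym (sg b * N2 s n) p : ℝ)| ≤ Real.sqrt (max 1 (PX z).card) * (z : ℝ) ^ δ) := by
  obtain ⟨c, hc, y₀, H⟩ := centered_near hs hδ A V 0 3 (fun _ => (univ : Finset (Bool × Fin 3))) (fun x hx => by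
      rw [card_univ, Fintype.card_prod, Fintype.card_bool, Fintype.card_fin]
      calc 2 * 3 ≤ 2 ^ 3 := by norm_num
        _ ≤ x ^ 3 := Nat.pow_le_pow_left hx 3)
    (fun t p n => (jacobiSym (sg t.1 * N2 t.2 n) p : ℝ)) (fun t p n hp => by
      haveI : Fact p.Prime := ⟨hp⟩
      rw [js_mod (a := sg t.1 * N2 t.2 n) (b := sg t.1 * N2 t.2 (fun i => n i % p))]
      unfold N2
      push_cast
      split_ifs <;> simp) (C := 2) (by norm_num) (fun t p n _ => (js_abs_le _ p).trans (by norm_num)) (fun t p hp => by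
      haveI : Fact p.Prime := ⟨hp⟩
      by_cases h2 : p = 2
      · subst h2
        have h1 : |avg 2 (fun n : Fin 2 → ℕ => (jacobiSym (sg t.1 * N2 t.2 n) 2 : ℝ))| ≤ 1 := by
          have h3 : avg 2 (fun n : Fin 2 → ℕ => (jacobiSym (sg t.1 * N2 t.2 n) 2 : ℝ)) ≤ avg (L := Fin 2) 2 (fun _ => (1 : ℝ)) :=
            avg_mono fun n => (abs_le.1 (js_abs_le _ 2)).2
          have h4 : avg (L := Fin 2) 2 (fun _ => (-1 : ℝ)) ≤ avg 2 (fun n : Fin 2 → ℕ => (jacobiSym (sg t.1 * N2 t.2 n) 2 : ℝ)) :=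
            avg_mono fun n => (abs_le.1 (js_abs_le _ 2)).1
          rw [avg_const (by norm_num)] at h3 h4
          exact abs_le.2 ⟨h4, h3⟩
        refine h1.trans ?_
        norm_num
      · rw [avg_two h2, abs_zero]
        positivity)
  refine ⟨c, hc, y₀, fun _ β x y hy => le_trans (Nat.cast_le.2 (exceptions_mono ?_)) (H allPrimes β x y hy)⟩
  intro n hn z hz hzx b s
  exact hn z hz hzx (PX z) (by show PX z ∈ ({PX z} : Finset _); exact mem_singleton_self _) (b, s) (mem_univ _)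

/-- the function of one number -/
noncomputable def G1 (t : Bool × Option ℤ) (p : ℕ) (n : Unit → ℕ) : ℝ :=
  match t.2 with
  | none => (jacobiSym (sg t.1 * (n () : ℤ)) p : ℝ)
  | some h => if (p : ℤ) ∣ h then 0 else (jacobiSym (sg t.1 * ((n () : ℤ) * (n () + h))) p : ℝ)

lemma G1_none (b : Bool) (p : ℕ) (n : Unit → ℕ) : G1 (b, none) p n = (jacobiSym (sg b * (n () : ℤ)) p : ℝ) := rfl

lemma G1_some (b : Bool) (h : ℤ) (p : ℕ) (n : Unit → ℕ) :
    G1 (b, some h) p n = if (p : ℤ) ∣ h then 0 else (jacobiSym (sg b * ((n () : ℤ) * (n () + h))) p : ℝ) := rfl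

lemma G1_bd (t : Bool × Option ℤ) (p : ℕ) (n : Unit → ℕ) : |G1 t p n| ≤ 1 := by
  obtain ⟨b, h⟩ := t
  rcases h with _ | h
  · rw [G1_none]
    exact js_abs_le _ p
  · rw [G1_some]
    split_ifs
    · norm_num
    · exact js_abs_le _ p

/-- one sequence -/
theorem one_near {m : ℕ} {e w : Unit → ℝ} {μ : Unit → Fin m} (hs : Setting e w μ) {δ : ℝ} (hδ : 0 < δ) (A V B : ℕ) :
    ForAlmostAll e w μ A V (fun (_ : Unit) z n => ∀ b,
      |∑ p ∈ PX z, G1 (b, none) p n| ≤ Real.sqrt (max 1 (PX z).card) * (z : ℝ) ^ δ ∧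
      ∀ h : ℤ, |h| ≤ (z : ℤ) ^ B → |∑ p ∈ PX z, G1 (b, some h) p n| ≤ Real.sqrt (max 1 (PX z).card) * (z : ℝ) ^ δ) := by
  classical
  obtain ⟨U, hU⟩ : ∃ U : ℕ → Finset (Bool × Option ℤ), U = fun x : ℕ => univ ×ˢ (insert none ((Icc (-((x : ℤ) ^ B)) ((x : ℤ) ^ B)).image some)) := ⟨_, rfl⟩
  have hUc : ∀ x, 2 ≤ x → (U x).card ≤ x ^ (B + 4) := by
    intro x hx
    rw [hU]
    show (univ ×ˢ (insert none ((Icc (-((x : ℤ) ^ B)) ((x : ℤ) ^ B)).image some)) : Finset (Bool × Option ℤ)).card ≤ _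
    rw [card_product, card_univ, Fintype.card_bool]
    have h1 : (insert none ((Icc (-((x : ℤ) ^ B)) ((x : ℤ) ^ B)).image some) : Finset (Option ℤ)).card ≤ 2 * x ^ B + 1 + 1 := by
      refine (card_insert_le _ _).trans ?_
      apply Nat.add_le_add_right
      refine card_image_le.trans ?_
      rw [Int.card_Icc]
      have : (x : ℤ) ^ B + 1 - -((x : ℤ) ^ B) = ((2 * x ^ B + 1 : ℕ) : ℤ) := by push_cast; ring
      rw [this, Int.toNat_natCast]
    have h2 : 1 ≤ x ^ B := Nat.one_le_pow _ _ (by omega)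
    have h3 : 2 ^ 4 ≤ x ^ 4 := Nat.pow_le_pow_left hx 4
    rw [pow_add]
    nlinarith
  obtain ⟨c, hc, y₀, H⟩ := centered_near hs hδ A V 0 (B + 4) U hUc G1 (fun t p n hp => by
      haveI : Fact p.Prime := ⟨hp⟩
      obtain ⟨b, h⟩ := t
      rcases h with _ | h
      · rw [G1_none, G1_none, js_mod (a := sg b * (n () : ℤ)) (b := sg b * ((n () % p : ℕ) : ℤ))]
        push_cast
        simp
      · rw [G1_some, G1_some, js_mod (a := sg b * ((n () : ℤ) * (n () + h))) (b := sg b * (((n () % p : ℕ) : ℤ) * ((n () % p : ℕ) + h)))]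
        push_cast
        simp) (C := 2) (by norm_num) (fun t p n _ => (G1_bd t p n).trans (by norm_num)) (fun t p hp => by
      haveI : Fact p.Prime := ⟨hp⟩
      have hp0 : (0 : ℝ) < p := by exact_mod_cast hp.pos
      by_cases h2 : p = 2
      · subst h2
        have h1 : |avg 2 (G1 t 2)| ≤ 1 := by
          have h3 : avg 2 (G1 t 2) ≤ avg (L := Unit) 2 (fun _ => (1 : ℝ)) :=
            avg_mono fun n => (abs_le.1 (G1_bd t 2 n)).2
          have h4 : avg (L := Unit) 2 (fun _ => (-1 : ℝ)) ≤ avg 2 (G1 t 2) :=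
            avg_mono fun n => (abs_le.1 (G1_bd t 2 n)).1
          rw [avg_const (by norm_num)] at h3 h4
          exact abs_le.2 ⟨h4, h3⟩
        refine h1.trans ?_
        norm_num
      · obtain ⟨b, h⟩ := t
        rcases h with _ | h
        · have e : G1 (b, none) p = fun n : Unit → ℕ => (jacobiSym (sg b * (n () : ℤ)) p : ℝ) := rfl
          rw [e, avg_one h2, abs_zero]
          positivity
        · by_cases hd : (p : ℤ) ∣ h
          · have e : G1 (b, some h) p = fun _ : Unit → ℕ => (0 : ℝ) := by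
              funext n
              rw [G1_some, if_pos hd]
            rw [e, avg_const hp.one_lt.le, abs_zero]
            positivity
          · have e : G1 (b, some h) p = fun n : Unit → ℕ => (jacobiSym (sg b * ((n () : ℤ) * (n () + h))) p : ℝ) := by
              funext n
              rw [G1_some, if_neg hd]
            rw [e]
            refine (avg_shift h2 b h hd).trans ?_
            apply div_le_div_of_nonneg_right (by norm_num) hp0.le)
  refine ⟨c, hc, y₀, fun _ β x y hy => le_trans (Nat.cast_le.2 (exceptions_mono ?_)) (H allPrimes β x y hy)⟩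
  intro n hn z hz hzx b
  have h1 := hn z hz hzx (PX z) (by show PX z ∈ ({PX z} : Finset _); exact mem_singleton_self _)
  refine ⟨h1 (b, none) ?_, fun h hh => h1 (b, some h) ?_⟩
  · rw [hU, mem_product]
    exact ⟨mem_univ _, mem_insert_self _ _⟩
  · rw [hU, mem_product]
    refine ⟨mem_univ _, mem_insert_of_mem (mem_image_of_mem _ ?_)⟩
    rw [mem_Icc]
    exact abs_le.1 hh

/-! ### Witnesses -/

open Classical in
/-- the number of the primes `b ≤ z` which are witnesses -/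
noncomputable def wits (z M : ℕ) : ℕ := ((PX z).filter (fun b => IsWit M b)).card

lemma symbols (N z : ℕ) (hN : Odd N) (hN0 : N ≠ 0) (hk : N.primeFactors.card ≤ 2) (D : ℝ)
    (h : ∀ b, |∑ p ∈ PX z, (jacobiSym (sg b * (N : ℤ)) p : ℝ)| ≤ D) :
    ((PX z).card : ℝ) / 2 - D / 2 - 2 ≤ ((PX z).filter (fun a : ℕ => jacobiSym a N = -1)).card := by
  obtain ⟨g, hg, hr⟩ := recip (Polynomial.C (N : ℤ)) 0 N hN (Polynomial.eval_C)
  have h1 := count_neg g 0 N z 2 hk hN0 hr
  have h2 : |∑ a ∈ PR z, js g a 0| ≤ D := by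
    rcases hg with rfl | rfl
    · refine le_trans (le_of_eq ?_) (h true)
      refine congrArg abs (sum_congr rfl fun a _ => ?_)
      unfold js sg
      rw [Polynomial.eval_C]
      norm_num
    · refine le_trans (le_of_eq ?_) (h false)
      refine congrArg abs (sum_congr rfl fun a _ => ?_)
      unfold js sg
      rw [Polynomial.eval_neg, Polynomial.eval_C]
      norm_num
  push_cast at h1
  have h3 : ((PR z).card : ℝ) / 2 - |∑ a ∈ PR z, js g a 0| / 2 - 1 - 2 / 2 ≤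
      (((PX z).filter (fun a : ℕ => jacobiSym a N = -1)).card : ℝ) := h1
  have e : (PR z).card = (PX z).card := rfl
  rw [e] at h3
  linarith

lemma wits_of (p q M z : ℕ) (hp : p.Prime) (hq : q.Prime) (hp2 : p ≠ 2) (hq2 : q ≠ 2) (hpM : p ∣ M) (hqM : q ∣ M)
    (D : ℝ) (h1 : ∀ b, |∑ a ∈ PX z, (jacobiSym (sg b * (p : ℤ)) a : ℝ)| ≤ D)
    (h2 : ∀ b, |∑ a ∈ PX z, (jacobiSym (sg b * (q : ℤ)) a : ℝ)| ≤ D)
    (h3 : ∀ b, |∑ a ∈ PX z, (jacobiSym (sg b * ((p : ℤ) * q)) a : ℝ)| ≤ D) :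
    ((PX z).card : ℝ) / 2 - D / 2 - 2 ≤ wits z M := by
  classical
  have key : ∀ N : ℕ, Odd N → N ≠ 0 → N.primeFactors.card ≤ 2 → (∀ b, |∑ a ∈ PX z, (jacobiSym (sg b * (N : ℤ)) a : ℝ)| ≤ D) →
      (∀ b : ℕ, jacobiSym b N = -1 → IsWit M b) → ((PX z).card : ℝ) / 2 - D / 2 - 2 ≤ wits z M := by
    intro N hN hN0 hk h hw
    refine (symbols N z hN hN0 hk D h).trans ?_
    unfold wits
    have hsub : (PX z).filter (fun a : ℕ => jacobiSym a N = -1) ⊆ (PX z).filter (fun b => IsWit M b) := by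
      intro b hb
      rw [mem_filter] at hb ⊢
      exact ⟨hb.1, hw b hb.2⟩
    exact_mod_cast card_le_card hsub
  rcases wit_of p q M hp hq hp2 hq2 hpM hqM with h | h | h
  · exact key p (hp.odd_of_ne_two hp2) hp.ne_zero (by rw [hp.primeFactors, card_singleton]; norm_num) h1 h
  · exact key q (hq.odd_of_ne_two hq2) hq.ne_zero (by rw [hq.primeFactors, card_singleton]; norm_num) h2 h
  · refine key (p * q) ((hp.odd_of_ne_two hp2).mul (hq.odd_of_ne_two hq2)) (mul_ne_zero hp.ne_zero hq.ne_zero) ?_ ?_ h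
    · rw [Nat.primeFactors_mul hp.ne_zero hq.ne_zero, hp.primeFactors, hq.primeFactors]
      refine (card_union_le _ _).trans ?_
      rw [card_singleton, card_singleton]
    · intro b
      have := h3 b
      push_cast
      exact this

lemma final_ineq {δ : ℝ} (hδ : 0 < δ) (K : ℝ) : ∃ z₀ : ℕ, ∀ z : ℕ, z₀ ≤ z →
    (Real.sqrt (max 1 (PX z).card) * (z : ℝ) ^ (δ / 2) + K * Real.log z) / 2 + 2 ≤ (z : ℝ) ^ (1 / 2 + δ) := by
  have hev : ∀ᶠ x : ℝ in atTop, |K| * Real.log x + 4 ≤ x ^ (1 / 2 : ℝ) := by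
    have h1 := (isLittleO_log_rpow_atTop (show (0 : ℝ) < 1 / 2 by norm_num)).bound (show (0 : ℝ) < 1 / (2 * (|K| + 1)) by positivity)
    have h2 : ∀ᶠ x : ℝ in atTop, (8 : ℝ) ≤ x ^ (1 / 2 : ℝ) := (tendsto_rpow_atTop (by norm_num)).eventually (eventually_ge_atTop _)
    filter_upwards [h1, h2, eventually_gt_atTop 1] with x hx hx8 hx1
    rw [Real.norm_of_nonneg (Real.log_nonneg hx1.le), Real.norm_of_nonneg (by positivity)] at hx
    have h3 : |K| * Real.log x ≤ (|K| + 1) * (1 / (2 * (|K| + 1)) * x ^ (1 / 2 : ℝ)) := by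
      have hl := Real.log_nonneg hx1.le
      calc |K| * Real.log x ≤ (|K| + 1) * Real.log x := mul_le_mul_of_nonneg_right (by linarith) hl
        _ ≤ _ := mul_le_mul_of_nonneg_left hx (by positivity)
    have h4 : (|K| + 1) * (1 / (2 * (|K| + 1)) * x ^ (1 / 2 : ℝ)) = x ^ (1 / 2 : ℝ) / 2 := by
      have : (|K| + 1) ≠ 0 := by positivity
      field_simp
    linarith
  obtain ⟨z₁, hz₁⟩ := eventually_atTop.1 (tendsto_natCast_atTop_atTop.eventually hev)
  refine ⟨z₁ + 1, fun z hz => ?_⟩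
  have hz1 : (1 : ℝ) ≤ z := by exact_mod_cast (by omega : 1 ≤ z)
  have hz0 : (0 : ℝ) < z := by linarith
  have h1 := hz₁ z (by omega)
  have h2 : Real.sqrt (max 1 (PX z).card) ≤ (z : ℝ) ^ (1 / 2 : ℝ) := by
    rw [← Real.sqrt_eq_rpow]
    apply Real.sqrt_le_sqrt
    refine max_le hz1 ?_
    have h3 : PX z ⊆ Icc 1 z := by
      intro p hp
      rw [mem_PX] at hp
      rw [mem_Icc]
      exact ⟨hp.1.one_lt.le, hp.2⟩
    have h4 := card_le_card h3
    rw [Nat.card_Icc, Nat.add_sub_cancel] at h4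
    exact_mod_cast h4
  have h3 : Real.sqrt (max 1 (PX z).card) * (z : ℝ) ^ (δ / 2) ≤ (z : ℝ) ^ (1 / 2 + δ) := by
    calc Real.sqrt (max 1 (PX z).card) * (z : ℝ) ^ (δ / 2) ≤ (z : ℝ) ^ (1 / 2 : ℝ) * (z : ℝ) ^ (δ / 2) :=
          mul_le_mul_of_nonneg_right h2 (by positivity)
      _ = (z : ℝ) ^ (1 / 2 + δ / 2) := (Real.rpow_add hz0 _ _).symm
      _ ≤ (z : ℝ) ^ (1 / 2 + δ) := Real.rpow_le_rpow_of_exponent_le hz1 (by linarith)
  have h4 : (z : ℝ) ^ (1 / 2 : ℝ) ≤ (z : ℝ) ^ (1 / 2 + δ) := Real.rpow_le_rpow_of_exponent_le hz1 (by linarith)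
  have h5 : K * Real.log z ≤ |K| * Real.log z := mul_le_mul_of_nonneg_right (le_abs_self K) (Real.log_nonneg hz1)
  linarith

open Classical in
/-- the index vectors with a bad pair of primes, in the windows `l` and `l'` -/
noncomputable def badPairs {L : Type} {m : ℕ} (e w β : L → ℝ) (μ : L → Fin m) (δ c : ℝ) (x y V : ℕ) (l l' : L) : Finset (Fin m → ℕ) :=
  (Fintype.piFinset (fun _ : Fin m => Icc 1 x)).filter (fun i => ∃ p q M z : ℕ, p.Prime ∧ q.Prime ∧ p ≠ 2 ∧ q ≠ 2 ∧ p ≠ q ∧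
    |(p : ℝ) - (β l + w l * (i (μ l) : ℝ) ^ e l)| ≤ (y : ℝ) ^ V ∧
    |(q : ℝ) - (β l' + w l' * (i (μ l') : ℝ) ^ e l')| ≤ (y : ℝ) ^ V ∧ p ∣ M ∧ q ∣ M ∧ y ≤ z ∧ (z : ℝ) ≤ (x : ℝ) ^ c ∧
    (wits z M : ℝ) < ((PX z).card : ℝ) / 2 - (z : ℝ) ^ (1 / 2 + δ))

lemma pair_case {L : Type} {m : ℕ} {e w : L → ℝ} {μ : L → Fin m} (hs : Setting e w μ) {δ : ℝ} (hδ : 0 < δ) (A V : ℕ)
    (l l' : L) : ∃ c : ℝ, 0 < c ∧ ∃ y₀ : ℕ, ∀ (β : L → ℝ) (x y : ℕ), y₀ ≤ y →
      ((badPairs e w β μ δ c x y V l l').card : ℝ) ≤ 1 / (y : ℝ) ^ A * (x : ℝ) ^ m := by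
  classical
  have hl2 : 0 < Real.log 2 := Real.log_pos (by norm_num)
  obtain ⟨z₁, hz₁⟩ := final_ineq hδ ((V + 1 : ℕ) / Real.log 2)
  by_cases hll : l = l'
  · subst hll
    have hs' : Setting (fun _ : Unit => e l) (fun _ => w l) (fun _ => μ l) := ⟨fun _ => hs.1 l, fun _ => hs.2.1 l, fun _ _ _ _ => rfl⟩
    obtain ⟨c, hc, y₀, H⟩ := one_near hs' (show 0 < δ / 2 by positivity) A V (V + 1)
    refine ⟨c, hc, y₀ + z₁ + 2, fun β x y hy => le_trans (Nat.cast_le.2 ?_) (H () (fun _ => β l) x y (by omega))⟩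
    unfold badPairs exceptions
    apply card_le_card
    intro i hi
    rw [mem_filter] at hi ⊢
    obtain ⟨hi0, p, q, M, z, hp, hq, hp2, hq2, hpq, h1, h2, hpM, hqM, hyz, hzx, hlt⟩ := hi
    refine ⟨hi0, ?_⟩
    by_contra hne
    push Not at hne
    have hall := hne (fun _ => p) (fun _ => h1)
    have hall' := hne (fun _ => q) (fun _ => h2)
    clear hne
    apply absurd hlt
    push Not
    have hz1 : (1 : ℝ) ≤ z := by exact_mod_cast (by omega : 1 ≤ z)
    have hy2 : (2 : ℝ) ≤ y := by exact_mod_cast (by omega : 2 ≤ y)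
    obtain ⟨h, hh⟩ : ∃ h : ℤ, h = (q : ℤ) - p := ⟨_, rfl⟩
    have hh0 : h ≠ 0 := by
      rw [hh, sub_ne_zero]
      exact_mod_cast hpq.symm
    have hhz : |h| ≤ (z : ℤ) ^ (V + 1) := by
      have h3 : |((h : ℤ) : ℝ)| ≤ (z : ℝ) ^ (V + 1) := by
        have e1 : ((h : ℤ) : ℝ) = ((q : ℝ) - (β l + w l * (i (μ l) : ℝ) ^ e l)) - ((p : ℝ) - (β l + w l * (i (μ l) : ℝ) ^ e l)) := by
          rw [hh]
          push_cast
          ring
        rw [e1]
        refine (abs_sub _ _).trans ?_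
        calc _ ≤ (y : ℝ) ^ V + (y : ℝ) ^ V := add_le_add h2 h1
          _ = (y : ℝ) ^ V * 2 := by ring
          _ ≤ (y : ℝ) ^ V * y := mul_le_mul_of_nonneg_left hy2 (by positivity)
          _ = (y : ℝ) ^ (V + 1) := (pow_succ _ _).symm
          _ ≤ (z : ℝ) ^ (V + 1) := pow_le_pow_left₀ (by positivity) (by exact_mod_cast hyz) _
      have h4 : (((|h| : ℤ)) : ℝ) ≤ (((z : ℤ) ^ (V + 1) : ℤ) : ℝ) := by
        push_cast
        exact h3
      exact_mod_cast h4
    have hdc : (((PX z).filter (fun a : ℕ => (a : ℤ) ∣ h)).card : ℝ) ≤ (V + 1 : ℕ) / Real.log 2 * Real.log z := by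
      have h4 := dvd_count (PX z) (fun a ha => (mem_PX.1 ha).1) h hh0
      have h5 : Real.log |(h : ℝ)| ≤ (V + 1 : ℕ) * Real.log z := by
        rw [← Real.log_pow]
        apply Real.log_le_log
        · exact abs_pos.2 (by exact_mod_cast hh0)
        · have : ((|h| : ℤ) : ℝ) ≤ (((z : ℤ) ^ (V + 1) : ℤ) : ℝ) := by exact_mod_cast hhz
          push_cast at this
          exact this
      have h6 := h4.trans h5
      rw [div_mul_eq_mul_div, le_div_iff₀ hl2]
      exact h6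
    have hK0 : 0 ≤ (V + 1 : ℕ) / Real.log 2 * Real.log z := by
      have := Real.log_nonneg hz1
      positivity
    obtain ⟨D, hD⟩ : ∃ D, D = Real.sqrt (max 1 (PX z).card) * (z : ℝ) ^ (δ / 2) + (V + 1 : ℕ) / Real.log 2 * Real.log z := ⟨_, rfl⟩
    have hfin := hz₁ z (by omega)
    rw [← hD] at hfin
    have hprod : ∀ b, |∑ a ∈ PX z, (jacobiSym (sg b * ((p : ℤ) * q)) a : ℝ)| ≤ D := by
      intro b
      have h3 := (hall z hyz hzx b).2 h hhz
      have e1 : ∑ a ∈ PX z, (jacobiSym (sg b * ((p : ℤ) * q)) a : ℝ) = ∑ a ∈ PX z, G1 (b, some h) a (fun _ => p) +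
          ∑ a ∈ (PX z).filter (fun a : ℕ => (a : ℤ) ∣ h), (jacobiSym (sg b * ((p : ℤ) * q)) a : ℝ) := by
        rw [sum_filter, ← sum_add_distrib]
        refine sum_congr rfl fun a _ => ?_
        rw [G1_some]
        have e2 : (p : ℤ) + h = q := by rw [hh]; ring
        rw [e2]
        split_ifs <;> simp
      rw [e1, hD]
      refine (abs_add_le _ _).trans (add_le_add h3 (le_trans ?_ hdc))
      refine (abs_sum_le_sum_abs _ _).trans (le_trans (sum_le_sum fun a _ => js_abs_le _ a) ?_)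
      rw [sum_const, nsmul_eq_mul, mul_one]
    have hsingle : ∀ b, |∑ a ∈ PX z, (jacobiSym (sg b * (p : ℤ)) a : ℝ)| ≤ D := by
      intro b
      have h3 := (hall z hyz hzx b).1
      rw [hD]
      refine le_trans ?_ (h3.trans (le_add_of_nonneg_right hK0))
      rfl
    have hsingle' : ∀ b, |∑ a ∈ PX z, (jacobiSym (sg b * (q : ℤ)) a : ℝ)| ≤ D := by
      intro b
      have h3 := (hall' z hyz hzx b).1
      rw [hD]
      refine le_trans ?_ (h3.trans (le_add_of_nonneg_right hK0))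
      rfl
    have h3 := wits_of p q M z hp hq hp2 hq2 hpM hqM D hsingle hsingle' hprod
    linarith
  · have hf : Function.Injective (![l, l'] : Fin 2 → L) := by
      intro a b hab
      fin_cases a <;> fin_cases b <;> simp at hab ⊢
      · exact hll hab
      · exact hll hab.symm
    have hs' : Setting (fun a : Fin 2 => e (![l, l'] a)) (fun a => w (![l, l'] a)) (fun a => μ (![l, l'] a)) :=
      ⟨fun a => hs.1 _, fun a => hs.2.1 _, fun a b h1 h2 => hf (hs.2.2 _ _ h1 h2)⟩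
    obtain ⟨c, hc, y₀, H⟩ := two_near hs' (show 0 < δ / 2 by positivity) A V
    refine ⟨c, hc, y₀ + z₁ + 2, fun β x y hy => le_trans (Nat.cast_le.2 ?_) (H () (fun a => β (![l, l'] a)) x y (by omega))⟩
    unfold badPairs exceptions
    apply card_le_card
    intro i hi
    rw [mem_filter] at hi ⊢
    obtain ⟨hi0, p, q, M, z, hp, hq, hp2, hq2, hpq, h1, h2, hpM, hqM, hyz, hzx, hlt⟩ := hi
    refine ⟨hi0, ![p, q], ?_, fun hall => ?_⟩
    · intro a
      fin_cases a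
      · exact h1
      · exact h2
    apply absurd hlt
    push Not
    have hz1 : (1 : ℝ) ≤ z := by exact_mod_cast (by omega : 1 ≤ z)
    have hK0 : 0 ≤ (V + 1 : ℕ) / Real.log 2 * Real.log z := by
      have := Real.log_nonneg hz1
      positivity
    obtain ⟨D, hD⟩ : ∃ D, D = Real.sqrt (max 1 (PX z).card) * (z : ℝ) ^ (δ / 2) + (V + 1 : ℕ) / Real.log 2 * Real.log z := ⟨_, rfl⟩
    have hfin := hz₁ z (by omega)
    rw [← hD] at hfin
    have hb : ∀ b s, |∑ a ∈ PX z, (jacobiSym (sg b * N2 s ![p, q]) a : ℝ)| ≤ D := fun b s => by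
      rw [hD]
      exact (hall z hyz hzx b s).trans (le_add_of_nonneg_right hK0)
    have h3 := wits_of p q M z hp hq hp2 hq2 hpM hqM D (fun b => hb b 0) (fun b => hb b 1) (fun b => hb b 2)
    linarith

open Classical in
/-- **Almost half of the primes are witnesses, for every number with two odd primes near the powers.** -/
theorem wit_near {L : Type} [Fintype L] {m : ℕ} {e w : L → ℝ} {μ : L → Fin m} (hs : Setting e w μ) {δ : ℝ} (hδ : 0 < δ) (A V : ℕ) :
    ∃ c : ℝ, 0 < c ∧ ∃ y₀ : ℕ, ∀ (β : L → ℝ) (x y : ℕ), y₀ ≤ y →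
      (((Fintype.piFinset (fun _ : Fin m => Icc 1 x)).filter (fun i => ∃ p q M z : ℕ, p.Prime ∧ q.Prime ∧ p ≠ 2 ∧ q ≠ 2 ∧ p ≠ q ∧
        (∃ l, |(p : ℝ) - (β l + w l * (i (μ l) : ℝ) ^ e l)| ≤ (y : ℝ) ^ V) ∧
        (∃ l, |(q : ℝ) - (β l + w l * (i (μ l) : ℝ) ^ e l)| ≤ (y : ℝ) ^ V) ∧ p ∣ M ∧ q ∣ M ∧ y ≤ z ∧ (z : ℝ) ≤ (x : ℝ) ^ c ∧
        (wits z M : ℝ) < ((PX z).card : ℝ) / 2 - (z : ℝ) ^ (1 / 2 + δ))).card : ℝ) ≤ 1 / (y : ℝ) ^ A * (x : ℝ) ^ m := by
  have h := fun t : L × L => pair_case hs hδ (A + 1) V t.1 t.2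
  choose c hc y₀ H using h
  obtain ⟨g, hg, hgl⟩ := gap (univ : Finset (L × L)) (fun t => c t)
  refine ⟨g, hg, ∑ t, y₀ t + Fintype.card (L × L) + 1, fun β x y hy => ?_⟩
  have hy1 : (1 : ℝ) ≤ y := by exact_mod_cast (by omega : 1 ≤ y)
  have hy0 : (0 : ℝ) < y := by linarith
  have hsub : ((Fintype.piFinset (fun _ : Fin m => Icc 1 x)).filter (fun i => ∃ p q M z : ℕ, p.Prime ∧ q.Prime ∧ p ≠ 2 ∧ q ≠ 2 ∧ p ≠ q ∧
        (∃ l, |(p : ℝ) - (β l + w l * (i (μ l) : ℝ) ^ e l)| ≤ (y : ℝ) ^ V) ∧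
        (∃ l, |(q : ℝ) - (β l + w l * (i (μ l) : ℝ) ^ e l)| ≤ (y : ℝ) ^ V) ∧ p ∣ M ∧ q ∣ M ∧ y ≤ z ∧ (z : ℝ) ≤ (x : ℝ) ^ g ∧
        (wits z M : ℝ) < ((PX z).card : ℝ) / 2 - (z : ℝ) ^ (1 / 2 + δ))) ⊆
      (univ : Finset (L × L)).biUnion (fun t => badPairs e w β μ δ (c t) x y V t.1 t.2) := by
    intro i hi
    rw [mem_filter] at hi
    obtain ⟨hi0, p, q, M, z, hp, hq, hp2, hq2, hpq, ⟨l, h1⟩, ⟨l', h2⟩, hpM, hqM, hyz, hzx, hlt⟩ := hi
    rw [mem_biUnion]
    refine ⟨(l, l'), mem_univ _, ?_⟩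
    have hx1 : 1 ≤ x := by
      have := Fintype.mem_piFinset.1 hi0 (μ l)
      rw [mem_Icc] at this
      omega
    have hx1r : (1 : ℝ) ≤ x := by exact_mod_cast hx1
    unfold badPairs
    rw [mem_filter]
    exact ⟨hi0, p, q, M, z, hp, hq, hp2, hq2, hpq, h1, h2, hpM, hqM, hyz,
      hzx.trans (Real.rpow_le_rpow_of_exponent_le hx1r (hgl (l, l') (mem_univ _) (hc _))), hlt⟩
  have h1 := (card_le_card hsub).trans card_biUnion_le
  have h2 : ∀ t : L × L, ((badPairs e w β μ δ (c t) x y V t.1 t.2).card : ℝ) ≤ 1 / (y : ℝ) ^ (A + 1) * (x : ℝ) ^ m := by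
    intro t
    refine H t β x y ?_
    have := single_le_sum (f := y₀) (fun _ _ => Nat.zero_le _) (mem_univ t)
    omega
  have h3 : (((∑ t : L × L, (badPairs e w β μ δ (c t) x y V t.1 t.2).card : ℕ)) : ℝ) ≤ Fintype.card (L × L) * (1 / (y : ℝ) ^ (A + 1) * (x : ℝ) ^ m) := by
    push_cast
    refine (sum_le_sum fun t _ => h2 t).trans (le_of_eq ?_)
    rw [sum_const, nsmul_eq_mul, card_univ]
  refine (Nat.cast_le.2 h1).trans (h3.trans ?_)
  have h4 : (Fintype.card (L × L) : ℝ) ≤ y := by exact_mod_cast (by omega : Fintype.card (L × L) ≤ y)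
  calc (Fintype.card (L × L) : ℝ) * (1 / (y : ℝ) ^ (A + 1) * (x : ℝ) ^ m) ≤ y * (1 / (y : ℝ) ^ (A + 1) * (x : ℝ) ^ m) :=
        mul_le_mul_of_nonneg_right h4 (by positivity)
    _ = 1 / (y : ℝ) ^ A * (x : ℝ) ^ m := by
        rw [pow_succ]
        field_simp

end Pool.Agent.Q56.WL
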